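import Mathlib
import Pool.Agent.helper67.ND.Defs

/-!
Module C1 of the `n/d` project of helper67 (MP_6163c8_ag): one variable extension.
-/

namespace Pool.Agent.helper59.NDC1

open Pool.Agent.helper67.ND
open scoped BigOperators
open Polynomial (aeval derivative)

section C1

variable {K F : Type} [Field K] [Field F] [Algebra K F]

/-! ### elementary identities -/

lemma z_sub_ne (A : Subalgebra K F) (z : F) (D : Derivation K F F) (hz : D z = 1)
    (hA : ∀ r ∈ A, D r = 0) {a : F} (ha : a ∈ A) : z - a ≠ 0 := by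
  intro h
  have h1 : D (z - a) = 1 := by rw [map_sub, hz, hA a ha, sub_zero]
  rw [h, map_zero] at h1
  exact zero_ne_one h1

lemma D_mul_pow (A : Subalgebra K F) (z : F) (D : Derivation K F F) (hz : D z = 1)
    (hA : ∀ r ∈ A, D r = 0) {r : F} (hr : r ∈ A) (m : ℕ) :
    D (r * z ^ (m + 1)) = ((m : K) + 1) • (r * z ^ m) := by
  rw [Derivation.leibniz, hA r hr, Derivation.leibniz_pow, hz, nsmul_eq_mul]
  simp only [smul_eq_mul, mul_zero, add_zero, mul_one, Nat.add_sub_cancel,
    Algebra.smul_def, map_add, map_natCast, map_one]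
  push_cast
  ring

lemma D_mul_inv_pow (A : Subalgebra K F) (z : F) (D : Derivation K F F) (hz : D z = 1)
    (hA : ∀ r ∈ A, D r = 0) {r : F} (hr : r ∈ A) {c : F} (hc : c ∈ A) (m : ℕ) :
    D (r * ((z - c)⁻¹) ^ (m + 1)) = -(((m : K) + 1) • (r * ((z - c)⁻¹) ^ (m + 2))) := by
  rw [Derivation.leibniz, hA r hr, Derivation.leibniz_pow, Derivation.leibniz_inv, map_sub, hz,
    hA c hc, nsmul_eq_mul]
  simp only [smul_eq_mul, mul_zero, add_zero, mul_one, Nat.add_sub_cancel,
    Algebra.smul_def, map_add, map_natCast, map_one, sub_zero]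
  push_cast
  ring

lemma inv_pow_mul_inv {z a b : F} (ha : z - a ≠ 0) (hb : z - b ≠ 0) (hab : a ≠ b) (r : F) (m : ℕ) :
    r * ((z - a)⁻¹) ^ (m + 1) * (z - b)⁻¹ =
      (r * (b - a)⁻¹) * ((z - a)⁻¹) ^ m * (z - b)⁻¹ - (r * (b - a)⁻¹) * ((z - a)⁻¹) ^ (m + 1) := by
  have hba : b - a ≠ 0 := sub_ne_zero.2 (Ne.symm hab)
  have key : (z - a)⁻¹ * (z - b)⁻¹ = (b - a)⁻¹ * (z - b)⁻¹ - (b - a)⁻¹ * (z - a)⁻¹ := by
    field_simp
    ring
  rw [pow_succ]
  calc r * ((z - a)⁻¹ ^ m * (z - a)⁻¹) * (z - b)⁻¹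
      = r * (z - a)⁻¹ ^ m * ((z - a)⁻¹ * (z - b)⁻¹) := by ring
    _ = r * (z - a)⁻¹ ^ m * ((b - a)⁻¹ * (z - b)⁻¹ - (b - a)⁻¹ * (z - a)⁻¹) := by rw [key]
    _ = _ := by ring

lemma pow_mul_inv {z a : F} (ha : z - a ≠ 0) (r : F) (m : ℕ) :
    r * z ^ (m + 1) * (z - a)⁻¹ = r * z ^ m + (a * r) * z ^ m * (z - a)⁻¹ := by
  field_simp
  ring

/-! ### the spanning set -/

/-- the spanning set -/
def gens {ι : Type} (A : Subalgebra K F) (z : F) (c : ι → F) : Set F :=
  {s | ∃ r ∈ A, ∃ m : ℕ, s = r * z ^ m} ∪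
    {s | ∃ r ∈ A, ∃ (i : ι) (m : ℕ), s = r * ((z - c i)⁻¹) ^ (m + 1)}

lemma mul_inv_mem_span {ι : Type} (A : Subalgebra K F) (z : F) (c : ι → F) (hc : ∀ i, c i ∈ A)
    (hcc : ∀ i j, i ≠ j → c i ≠ c j ∧ (c i - c j)⁻¹ ∈ A) (hzc : ∀ i, z - c i ≠ 0) (j : ι) :
    ∀ s ∈ gens A z c, s * (z - c j)⁻¹ ∈ Submodule.span K (gens A z c) := by
  have h1 : ∀ m : ℕ, ∀ r ∈ A, r * z ^ m * (z - c j)⁻¹ ∈ Submodule.span K (gens A z c) := by
    intro m
    induction m with
    | zero =>
      intro r hr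
      refine Submodule.subset_span (Or.inr ⟨r, hr, j, 0, ?_⟩)
      simp
    | succ m ih =>
      intro r hr
      rw [pow_mul_inv (hzc j)]
      exact Submodule.add_mem _ (Submodule.subset_span (Or.inl ⟨r, hr, m, rfl⟩))
        (ih _ (A.mul_mem (hc j) hr))
  intro s hs
  rcases hs with ⟨r, hr, m, rfl⟩ | ⟨r, hr, i, m, rfl⟩
  · exact h1 m r hr
  · by_cases hij : i = j
    · subst hij
      refine Submodule.subset_span (Or.inr ⟨r, hr, i, m + 1, ?_⟩)
      rw [pow_succ _ (m + 1)]
      ring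
    · have hD : (c j - c i)⁻¹ ∈ A := (hcc j i (Ne.symm hij)).2
      have h2 : ∀ m : ℕ, ∀ r ∈ A, r * ((z - c i)⁻¹) ^ m * (z - c j)⁻¹ ∈
          Submodule.span K (gens A z c) := by
        intro m
        induction m with
        | zero =>
          intro r hr
          have := h1 0 r hr
          simpa using this
        | succ m ih =>
          intro r hr
          rw [inv_pow_mul_inv (hzc i) (hzc j) (hcc i j hij).1]
          exact Submodule.sub_mem _ (ih _ (A.mul_mem hr hD))
            (Submodule.subset_span (Or.inr ⟨_, A.mul_mem hr hD, i, m, rfl⟩))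
      exact h2 (m + 1) r hr

lemma mul_z_mem_span {ι : Type} (A : Subalgebra K F) (z : F) (c : ι → F) (hc : ∀ i, c i ∈ A)
    (hzc : ∀ i, z - c i ≠ 0) :
    ∀ s ∈ gens A z c, s * z ∈ Submodule.span K (gens A z c) := by
  intro s hs
  rcases hs with ⟨r, hr, m, rfl⟩ | ⟨r, hr, i, m, rfl⟩
  · refine Submodule.subset_span (Or.inl ⟨r, hr, m + 1, ?_⟩)
    ring
  · have h : r * ((z - c i)⁻¹) ^ (m + 1) * z =
        r * ((z - c i)⁻¹) ^ m + (r * c i) * ((z - c i)⁻¹) ^ (m + 1) := by
      have := hzc i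
      rw [pow_succ]
      field_simp
      ring
    rw [h]
    refine Submodule.add_mem _ ?_ (Submodule.subset_span (Or.inr ⟨_, A.mul_mem hr (hc i), i, m, rfl⟩))
    rcases m with _ | m
    · exact Submodule.subset_span (Or.inl ⟨r, hr, 0, by simp⟩)
    · exact Submodule.subset_span (Or.inr ⟨r, hr, i, m, rfl⟩)

lemma mul_A_mem_span {ι : Type} (A : Subalgebra K F) (z : F) (c : ι → F) {a : F} (ha : a ∈ A) :
    ∀ s ∈ gens A z c, s * a ∈ Submodule.span K (gens A z c) := by
  intro s hs
  rcases hs with ⟨r, hr, m, rfl⟩ | ⟨r, hr, i, m, rfl⟩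
  · exact Submodule.subset_span (Or.inl ⟨_, A.mul_mem hr ha, m, by ring⟩)
  · exact Submodule.subset_span (Or.inr ⟨_, A.mul_mem hr ha, i, m, by ring⟩)

lemma extRing_le_span {ι : Type} (A : Subalgebra K F) (z : F) (c : ι → F) (hc : ∀ i, c i ∈ A)
    (hcc : ∀ i j, i ≠ j → c i ≠ c j ∧ (c i - c j)⁻¹ ∈ A) (hzc : ∀ i, z - c i ≠ 0) :
    ∀ s ∈ extRing A z c, s ∈ Submodule.span K (gens A z c) := by
  -- multiplication by generators preserves the span
  have hmul : ∀ g : F, (∀ s ∈ gens A z c, s * g ∈ Submodule.span K (gens A z c)) →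
      ∀ s ∈ Submodule.span K (gens A z c), s * g ∈ Submodule.span K (gens A z c) := by
    intro g hg s hs
    have : Submodule.span K (gens A z c) ≤
        (Submodule.span K (gens A z c)).comap (LinearMap.mulRight K g) := by
      rw [Submodule.span_le]
      intro s hs
      exact hg s hs
    exact this hs
  have hG : ∀ g ∈ ((A : Set F) ∪ {z} ∪ Set.range (fun i => (z - c i)⁻¹)),
      ∀ s ∈ Submodule.span K (gens A z c), s * g ∈ Submodule.span K (gens A z c) := by
    intro g hg
    apply hmul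
    rcases hg with (hg | hg) | ⟨i, rfl⟩
    · exact mul_A_mem_span A z c hg
    · rw [Set.mem_singleton_iff] at hg
      subst hg
      exact mul_z_mem_span A g c hc hzc
    · exact mul_inv_mem_span A z c hc hcc hzc i
  intro s hs
  have h1 : s ∈ Subalgebra.toSubmodule (extRing A z c) := hs
  rw [extRing, Algebra.adjoin_eq_span] at h1
  refine Submodule.span_le.2 ?_ h1
  intro x hx
  refine Submonoid.closure_induction_right (motive := fun x _ => x ∈ Submodule.span K (gens A z c))
    ?_ ?_ hx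
  · exact Submodule.subset_span (Or.inl ⟨1, A.one_mem, 0, by simp⟩)
  · intro x _ y hy ih
    exact hG y hy x ih

variable [CharZero K] {U : Type} [AddCommGroup U] [Module K U] {ι : Type} [Fintype ι]

lemma gens_subset_extRing {ι : Type} (A : Subalgebra K F) (z : F) (c : ι → F) :
    gens A z c ⊆ extRing A z c := by
  have hAle : ∀ r ∈ A, r ∈ extRing A z c := fun r hr =>
    Algebra.subset_adjoin (Or.inl (Or.inl hr))
  have hzm : z ∈ extRing A z c := Algebra.subset_adjoin (Or.inl (Or.inr rfl))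
  have him : ∀ i, (z - c i)⁻¹ ∈ extRing A z c := fun i =>
    Algebra.subset_adjoin (Or.inr ⟨i, rfl⟩)
  intro s hs
  rcases hs with ⟨r, hr, m, rfl⟩ | ⟨r, hr, i, m, rfl⟩
  · exact Subalgebra.mul_mem _ (hAle r hr) (Subalgebra.pow_mem _ hzm m)
  · exact Subalgebra.mul_mem _ (hAle r hr) (Subalgebra.pow_mem _ (him i) _)


/-! ### transcendence of `z` and uniqueness of partial fractions -/

open Polynomial in
/-- `D` as a derivation over `A`. -/
noncomputable def DA (A : Subalgebra K F) (D : Derivation K F F) (hA : ∀ r ∈ A, D r = 0) :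
    Derivation A F F where
  toFun := D
  map_add' := map_add D
  map_smul' := by
    intro a x
    show D ((a : F) * x) = (a : F) * D x
    rw [Derivation.leibniz, hA a a.2]
    simp
  map_one_eq_zero' := D.map_one_eq_zero
  leibniz' := D.leibniz

open Polynomial in
lemma aeval_z_eq_zero (A : Subalgebra K F) (z : F) (D : Derivation K F F) (hz : D z = 1)
    (hA : ∀ r ∈ A, D r = 0) : ∀ (n : ℕ) (p : Polynomial A), p.natDegree ≤ n → aeval z p = 0 →
      p = 0 := by
  have : CharZero A := charZero_of_injective_algebraMap (algebraMap K A).injective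
  have hconst : ∀ p : Polynomial A, p.natDegree = 0 → aeval z p = 0 → p = 0 := by
    intro p hp h
    rw [Polynomial.eq_C_of_natDegree_eq_zero hp] at h ⊢
    rw [aeval_C] at h
    have : p.coeff 0 = 0 := Subtype.ext h
    rw [this, map_zero]
  intro n
  induction n with
  | zero =>
    intro p hp h
    exact hconst p (Nat.le_zero.1 hp) h
  | succ n ih =>
    intro p hp h
    have h1 : aeval z (derivative p) = 0 := by
      have h2 := (DA A D hA).map_aeval p z
      rw [h, map_zero] at h2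
      have h3 : (DA A D hA) z = 1 := hz
      rw [h3] at h2
      simpa using h2.symm
    have h4 : derivative p = 0 := by
      apply ih _ _ h1
      exact (Polynomial.natDegree_derivative_le p).trans (by omega)
    exact hconst p (Polynomial.derivative_eq_zero.1 h4) h

/-- the index set of the basis -/
abbrev Jx (ι : Type) : Type := ℕ ⊕ (ι × ℕ)

/-- the basis -/
noncomputable def bas (z : F) (c : ι → F) : Jx ι → F
  | Sum.inl m => z ^ m
  | Sum.inr (i, m) => ((z - c i)⁻¹) ^ (m + 1)

/-- the parametrization of `extRing` -/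
noncomputable def theta (A : Subalgebra K F) (z : F) (c : ι → F) : (Jx ι →₀ A) →ₗ[K] F :=
  Finsupp.lsum K (fun j => (LinearMap.mulRight K (bas z c j)) ∘ₗ A.val.toLinearMap)

lemma theta_single (A : Subalgebra K F) (z : F) (c : ι → F) (j : Jx ι) (r : A) :
    theta A z c (Finsupp.single j r) = (r : F) * bas z c j := by
  simp [theta]

open Polynomial in
lemma theta_injective (A : Subalgebra K F) (z : F) (D : Derivation K F F) (hz : D z = 1)
    (hA : ∀ r ∈ A, D r = 0) (c : ι → F) (hc : ∀ i, c i ∈ A)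
    (hcc : ∀ i j, i ≠ j → c i ≠ c j ∧ (c i - c j)⁻¹ ∈ A) :
    Function.Injective (theta A z c) := by
  classical
  have hzc : ∀ i, z - c i ≠ 0 := fun i => z_sub_ne A z D hz hA (hc i)
  rw [← LinearMap.ker_eq_bot, LinearMap.ker_eq_bot']
  intro f hf
  -- bound of the indices
  obtain ⟨N, hN⟩ : ∃ N : ℕ, f.support ⊆
      (Finset.range N).disjSum ((Finset.univ : Finset ι) ×ˢ Finset.range N) := by
    refine ⟨(f.support.sup (fun j => Sum.elim (fun m => m) (fun x => x.2) j)) + 1, ?_⟩
    intro j hj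
    have h1 := Finset.le_sup (f := fun j : Jx ι => Sum.elim (fun m => m) (fun x => x.2) j) hj
    rcases j with m | ⟨i, m⟩
    · rw [Finset.inl_mem_disjSum, Finset.mem_range]
      simp only [Sum.elim_inl] at h1
      omega
    · rw [Finset.inr_mem_disjSum, Finset.mem_product, Finset.mem_range]
      simp only [Sum.elim_inr] at h1
      exact ⟨Finset.mem_univ _, by omega⟩
  have hsum : theta A z c f = ∑ m ∈ Finset.range N, (f (Sum.inl m) : F) * z ^ m +
      ∑ i, ∑ m ∈ Finset.range N, (f (Sum.inr (i, m)) : F) * ((z - c i)⁻¹) ^ (m + 1) := by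
    have h1 : theta A z c f = f.sum (fun j r => (r : F) * bas z c j) := by
      simp [theta, Finsupp.lsum_apply, Finsupp.sum]
    rw [h1, Finsupp.sum_of_support_subset f hN _ (by intro j _; simp), Finset.sum_disjSum,
      Finset.sum_product]
    rfl
  rw [hf] at hsum
  -- polynomials
  set c' : ι → A := fun i => ⟨c i, hc i⟩ with hc'
  obtain ⟨q, hq⟩ : ∃ q : Polynomial A, q = ∑ m ∈ Finset.range N, C (f (Sum.inl m)) * X ^ m :=
    ⟨_, rfl⟩
  obtain ⟨g, hg⟩ : ∃ g : ι → Polynomial A, g = fun i => ∑ m ∈ Finset.range N,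
    C (f (Sum.inr (i, m))) * (X - C (c' i)) ^ (N - 1 - m) := ⟨_, rfl⟩
  have hcz : ∀ i, aeval z (X - C (c' i)) = z - c i := by
    intro i
    rw [map_sub, aeval_X, aeval_C]
    rfl
  have hgz : ∀ i, aeval z (g i) = (z - c i) ^ N *
      ∑ m ∈ Finset.range N, (f (Sum.inr (i, m)) : F) * ((z - c i)⁻¹) ^ (m + 1) := by
    intro i
    rw [hg]
    simp only [map_sum, map_mul, map_pow, hcz, aeval_C, Finset.mul_sum]
    refine Finset.sum_congr rfl fun m hm => ?_
    rw [Finset.mem_range] at hm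
    have h1 : (z - c i) ^ N = (z - c i) ^ (N - 1 - m) * (z - c i) ^ (m + 1) := by
      rw [← pow_add]
      congr 1
      omega
    have h2 : (z - c i) ^ (m + 1) * ((z - c i)⁻¹) ^ (m + 1) = 1 := by
      rw [← mul_pow, mul_inv_cancel₀ (hzc i), one_pow]
    have h3 : (algebraMap A F) (f (Sum.inr (i, m))) = (f (Sum.inr (i, m)) : F) := rfl
    rw [h1, h3]
    calc (f (Sum.inr (i, m)) : F) * (z - c i) ^ (N - 1 - m)
        = (f (Sum.inr (i, m)) : F) * (z - c i) ^ (N - 1 - m) *
          ((z - c i) ^ (m + 1) * ((z - c i)⁻¹) ^ (m + 1)) := by rw [h2, mul_one]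
      _ = _ := by ring
  have hrel : q * ∏ j, (X - C (c' j)) ^ N +
      ∑ i, g i * ∏ j ∈ Finset.univ.erase i, (X - C (c' j)) ^ N = 0 := by
    apply aeval_z_eq_zero A z D hz hA _ _ le_rfl
    rw [map_add, map_mul, map_prod, map_sum]
    simp only [map_mul, map_prod, map_pow, hcz, hgz]
    have h1 : ∀ i, (z - c i) ^ N *
        (∑ m ∈ Finset.range N, (f (Sum.inr (i, m)) : F) * ((z - c i)⁻¹) ^ (m + 1)) *
          ∏ j ∈ Finset.univ.erase i, (z - c j) ^ N =
        (∏ j, (z - c j) ^ N) *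
          ∑ m ∈ Finset.range N, (f (Sum.inr (i, m)) : F) * ((z - c i)⁻¹) ^ (m + 1) := by
      intro i
      rw [← Finset.mul_prod_erase Finset.univ (fun j => (z - c j) ^ N) (Finset.mem_univ i)]
      ring
    rw [Finset.sum_congr rfl fun i _ => h1 i, ← Finset.mul_sum, mul_comm _ (∏ j, (z - c j) ^ N),
      ← mul_add]
    have h2 : aeval z q = ∑ m ∈ Finset.range N, (f (Sum.inl m) : F) * z ^ m := by
      rw [hq]
      simp only [map_sum, map_mul, map_pow, aeval_C, aeval_X]
      rfl
    rw [h2, ← hsum, mul_zero]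
  have hcop : ∀ i j, i ≠ j → IsCoprime ((X - C (c' i)) ^ N) ((X - C (c' j)) ^ N) := by
    intro i j hij
    apply IsCoprime.pow
    have hu : (c j - c i)⁻¹ ∈ A := (hcc j i (Ne.symm hij)).2
    have hne : c j - c i ≠ 0 := sub_ne_zero.2 (Ne.symm (hcc i j hij).1)
    refine ⟨C ⟨_, hu⟩, - C ⟨_, hu⟩, ?_⟩
    have h1 : C (⟨_, hu⟩ : A) * (X - C (c' i)) + - C (⟨_, hu⟩ : A) * (X - C (c' j)) =
        C ((⟨_, hu⟩ : A) * (c' j - c' i)) := by
      rw [C_mul, C_sub]
      ring
    rw [h1]
    have h2 : (⟨_, hu⟩ : A) * (c' j - c' i) = 1 := by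
      apply Subtype.ext
      show (c j - c i)⁻¹ * (c j - c i) = 1
      exact inv_mul_cancel₀ hne
    rw [h2, C_1]
  have hg0 : ∀ i, g i = 0 := by
    intro i
    have h1 : (X - C (c' i)) ^ N ∣ g i * ∏ j ∈ Finset.univ.erase i, (X - C (c' j)) ^ N := by
      rw [← Finset.add_sum_erase Finset.univ _ (Finset.mem_univ i), add_left_comm] at hrel
      rw [eq_neg_of_add_eq_zero_left hrel]
      have hneg : ∀ a b : Polynomial A, a ∣ b → a ∣ -b := by
        rintro a b ⟨e, he⟩
        exact ⟨-e, by rw [he]; ring⟩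
      apply hneg
      apply dvd_add
      · exact Dvd.dvd.mul_left (Finset.dvd_prod_of_mem (fun j => (X - C (c' j)) ^ N)
          (Finset.mem_univ i)) _
      · apply Finset.dvd_sum
        intro j hj
        exact Dvd.dvd.mul_left (Finset.dvd_prod_of_mem (fun j => (X - C (c' j)) ^ N)
          (Finset.mem_erase.2 ⟨Ne.symm (Finset.ne_of_mem_erase hj), Finset.mem_univ i⟩)) _
    have h2 : (X - C (c' i)) ^ N ∣ g i := by
      refine IsCoprime.dvd_of_dvd_mul_right ?_ h1
      apply IsCoprime.prod_right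
      intro j hj
      exact hcop i j (Ne.symm (Finset.ne_of_mem_erase hj))
    apply Polynomial.eq_zero_of_dvd_of_degree_lt h2
    have h3 : ((X - C (c' i)) ^ N).degree = (N : WithBot ℕ) := by
      rw [degree_pow, degree_X_sub_C, nsmul_eq_mul, mul_one]
    rw [h3, hg]
    rcases Nat.eq_zero_or_pos N with hN0 | hN0
    · subst hN0
      simp
    · refine Finset.sum_induction _ (fun p : Polynomial A => p.degree < (N : WithBot ℕ))
        (fun a b ha hb => (degree_add_le a b).trans_lt (max_lt ha hb)) ?_ ?_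
      · rw [degree_zero]
        exact WithBot.bot_lt_coe N
      · intro m _
        apply lt_of_le_of_lt ((degree_mul_le _ _).trans (add_le_add degree_C_le le_rfl))
        rw [degree_pow, degree_X_sub_C, nsmul_eq_mul, mul_one, zero_add]
        exact_mod_cast (by omega : N - 1 - m < N)
  have hq0 : q = 0 := by
    have h1 := hrel
    simp only [hg0, zero_mul, Finset.sum_const_zero, add_zero] at h1
    rcases mul_eq_zero.1 h1 with h2 | h2
    · exact h2
    · exfalso
      rw [Finset.prod_eq_zero_iff] at h2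
      obtain ⟨j, _, hj⟩ := h2
      exact X_sub_C_ne_zero _ (eq_zero_of_pow_eq_zero hj)
  ext j
  by_cases hj : j ∈ (Finset.range N).disjSum ((Finset.univ : Finset ι) ×ˢ Finset.range N)
  · rcases j with m | ⟨i, m⟩
    · rw [Finset.inl_mem_disjSum, Finset.mem_range] at hj
      have h1 : q.coeff m = f (Sum.inl m) := by
        rw [hq, finsetSum_coeff]
        simp only [coeff_C_mul, coeff_X_pow, mul_ite, mul_one, mul_zero]
        rw [Finset.sum_ite_eq, if_pos (Finset.mem_range.2 hj)]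
      rw [← h1, hq0]
      simp
    · rw [Finset.inr_mem_disjSum, Finset.mem_product, Finset.mem_range] at hj
      have hj2 : m < N := hj.2
      have h0 : (g i).comp (X + C (c' i)) = ∑ m ∈ Finset.range N,
          C (f (Sum.inr (i, m))) * X ^ (N - 1 - m) := by
        rw [hg]
        simp only [Polynomial.sum_comp, mul_comp, C_comp, pow_comp, sub_comp, X_comp, add_sub_cancel_right]
      have h1 : ((g i).comp (X + C (c' i))).coeff (N - 1 - m) = f (Sum.inr (i, m)) := by
        rw [h0, finsetSum_coeff]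
        simp only [coeff_C_mul, coeff_X_pow, mul_ite, mul_one, mul_zero]
        rw [Finset.sum_eq_single m]
        · rw [if_pos rfl]
        · intro b hb hbm
          rw [Finset.mem_range] at hb
          rw [if_neg (by omega)]
        · intro h
          exact absurd (Finset.mem_range.2 hj2) h
      rw [← h1, hg0]
      simp
  · rw [Finsupp.notMem_support_iff.1 (fun h => hj (hN h))]
    simp

/-- (C1b) uniqueness -/
theorem one_step_unique (A : Subalgebra K F) (z : F) (D : Derivation K F F) (hz : D z = 1)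
    (hA : ∀ r ∈ A, D r = 0) (c : ι → F) (hc : ∀ i, c i ∈ A)
    (hcc : ∀ i j, i ≠ j → c i ≠ c j ∧ (c i - c j)⁻¹ ∈ A)
    (B : ι → Module.End K U)
    (hB : ∀ i (m : ℕ), 1 ≤ m → Function.Injective (fun u => B i u - (m : K) • u))
    (hT : ∀ (m : ℕ), 1 ≤ m → Function.Injective (fun u => ∑ i, B i u + (m : K) • u))
    (E : F →ₗ[K] U)
    (hE : ∀ s ∈ extRing A z c, E (D s) = - ∑ i, B i (E (s * (z - c i)⁻¹)))
    (hE0 : ∀ r ∈ A, ∀ i, E (r * (z - c i)⁻¹) = 0) :
    ∀ s ∈ extRing A z c, E s = 0 := by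
  classical
  have hzc : ∀ i, z - c i ≠ 0 := fun i => z_sub_ne A z D hz hA (hc i)
  -- polynomial part
  have hP : ∀ m : ℕ, (∀ r ∈ A, E (r * z ^ m) = 0) ∧
      (∀ r ∈ A, ∀ i, E (r * z ^ m * (z - c i)⁻¹) = 0) := by
    have step : ∀ m : ℕ, (∀ r ∈ A, ∀ i, E (r * z ^ m * (z - c i)⁻¹) = 0) →
        ∀ r ∈ A, E (r * z ^ m) = 0 := by
      intro m hm r hr
      have h1 := hE (r * z ^ (m + 1)) (gens_subset_extRing A z c (Or.inl ⟨r, hr, m + 1, rfl⟩))
      rw [D_mul_pow A z D hz hA hr, map_smul] at h1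
      have h2 : ∀ i, E (r * z ^ (m + 1) * (z - c i)⁻¹) = E (r * z ^ m) := by
        intro i
        rw [pow_mul_inv (hzc i), map_add, hm _ (A.mul_mem (hc i) hr) i, add_zero]
      simp only [h2] at h1
      apply hT (m + 1) (Nat.le_add_left _ _)
      simp only [map_zero, smul_zero, Finset.sum_const_zero, add_zero]
      push_cast
      rw [h1]
      abel
    intro m
    induction m with
    | zero =>
      have h0 : ∀ r ∈ A, ∀ i, E (r * z ^ 0 * (z - c i)⁻¹) = 0 := by
        intro r hr i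
        rw [pow_zero, mul_one]
        exact hE0 r hr i
      exact ⟨step 0 h0, h0⟩
    | succ m ih =>
      have h0 : ∀ r ∈ A, ∀ i, E (r * z ^ (m + 1) * (z - c i)⁻¹) = 0 := by
        intro r hr i
        rw [pow_mul_inv (hzc i), map_add, ih.1 r hr, ih.2 _ (A.mul_mem (hc i) hr) i, add_zero]
      exact ⟨step _ h0, h0⟩
  -- polar part
  have hQ : ∀ i, ∀ m : ℕ, (∀ r ∈ A, E (r * ((z - c i)⁻¹) ^ (m + 1)) = 0) ∧
      (∀ r ∈ A, ∀ j, j ≠ i → E (r * ((z - c i)⁻¹) ^ m * (z - c j)⁻¹) = 0) := by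
    intro i m
    induction m with
    | zero =>
      refine ⟨fun r hr => ?_, fun r hr j _ => ?_⟩
      · rw [zero_add, pow_one]
        exact hE0 r hr i
      · rw [pow_zero, mul_one]
        exact hE0 r hr j
    | succ m ih =>
      have h0 : ∀ r ∈ A, ∀ j, j ≠ i → E (r * ((z - c i)⁻¹) ^ (m + 1) * (z - c j)⁻¹) = 0 := by
        intro r hr j hj
        have hD : (c j - c i)⁻¹ ∈ A := (hcc j i hj).2
        rw [inv_pow_mul_inv (hzc i) (hzc j) (hcc i j (Ne.symm hj)).1, map_sub,
          ih.2 _ (A.mul_mem hr hD) j hj, ih.1 _ (A.mul_mem hr hD), sub_zero]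
      refine ⟨fun r hr => ?_, h0⟩
      have h1 := hE (r * ((z - c i)⁻¹) ^ (m + 1))
        (gens_subset_extRing A z c (Or.inr ⟨r, hr, i, m, rfl⟩))
      rw [D_mul_inv_pow A z D hz hA hr (hc i), map_neg, map_smul] at h1
      rw [Finset.sum_eq_single i (fun j _ hj => by rw [h0 r hr j hj, map_zero])
        (fun h => absurd (Finset.mem_univ i) h)] at h1
      have h2 : r * ((z - c i)⁻¹) ^ (m + 1) * (z - c i)⁻¹ = r * ((z - c i)⁻¹) ^ (m + 2) := by
        ring
      rw [h2] at h1
      apply hB i (m + 1) (Nat.le_add_left _ _)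
      simp only [map_zero, smul_zero, sub_zero]
      push_cast
      have h3 := neg_injective h1
      rw [← h3, sub_self]
  intro s hs
  have h1 := extRing_le_span A z c hc hcc hzc s hs
  have h2 : Submodule.span K (gens A z c) ≤ LinearMap.ker E := by
    rw [Submodule.span_le]
    rintro s (⟨r, hr, m, rfl⟩ | ⟨r, hr, i, m, rfl⟩)
    · exact (hP m).1 r hr
    · exact (hQ i m).1 r hr
  exact h2 h1

/-! ### the recursions for the existence -/

/-- the recursion at a pole: the state at step `m` is `(L(· (z-c_i)^{-(m+1)}),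
j ↦ L(· (z-c_i)^{-m}(z-c_j)^{-1}))`. -/
noncomputable def polRec (c : ι → F) (i : ι) (R : ℕ → Module.End K U) (B : ι → Module.End K U)
    (L' : F →ₗ[K] (ι → U)) : ℕ → (F →ₗ[K] U) × (ι → (F →ₗ[K] U))
  | 0 => ((LinearMap.proj i : (ι → U) →ₗ[K] U) ∘ₗ L',
      fun j => (LinearMap.proj j : (ι → U) →ₗ[K] U) ∘ₗ L')
  | m + 1 =>
      (-(R (m + 1) ∘ₗ ∑ j, B j ∘ₗ (((polRec c i R B L' m).2 j - (polRec c i R B L' m).1) ∘ₗ
        LinearMap.mulRight K ((c j - c i)⁻¹))),
      fun j => ((polRec c i R B L' m).2 j - (polRec c i R B L' m).1) ∘ₗ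
        LinearMap.mulRight K ((c j - c i)⁻¹))

/-- the recursion for the polynomial part: `Y_m j = L(· z^m (z - c_j)^{-1})`. -/
noncomputable def polyY (c : ι → F) (R : ℕ → Module.End K U) (B : ι → Module.End K U)
    (L' : F →ₗ[K] (ι → U)) : ℕ → (ι → (F →ₗ[K] U))
  | 0 => fun j => (LinearMap.proj j : (ι → U) →ₗ[K] U) ∘ₗ L'
  | m + 1 => fun j => -(R (m + 1) ∘ₗ ∑ i, B i ∘ₗ ((polyY c R B L' m i) ∘ₗ
        LinearMap.mulRight K (c i))) + (polyY c R B L' m j) ∘ₗ LinearMap.mulRight K (c j)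

/-- `P_m = L(· z^m)`. -/
noncomputable def polyP (c : ι → F) (R : ℕ → Module.End K U) (B : ι → Module.End K U)
    (L' : F →ₗ[K] (ι → U)) (m : ℕ) : F →ₗ[K] U :=
  -(R (m + 1) ∘ₗ ∑ i, B i ∘ₗ ((polyY c R B L' m i) ∘ₗ LinearMap.mulRight K (c i)))

/-- (C1a) existence -/
theorem one_step_exists (A : Subalgebra K F) (z : F) (D : Derivation K F F) (hz : D z = 1)
    (hA : ∀ r ∈ A, D r = 0) (c : ι → F) (hc : ∀ i, c i ∈ A)
    (hcc : ∀ i j, i ≠ j → c i ≠ c j ∧ (c i - c j)⁻¹ ∈ A)
    (B : ι → Module.End K U)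
    (hB : ∀ i (m : ℕ), 1 ≤ m → Function.Bijective (fun u => B i u - (m : K) • u))
    (hT : ∀ (m : ℕ), 1 ≤ m → Function.Bijective (fun u => ∑ i, B i u + (m : K) • u))
    (L' : F →ₗ[K] (ι → U)) (hL' : ∀ r ∈ A, ∑ i, B i (L' r i) = 0) :
    ∃ L : F →ₗ[K] U,
      (∀ s ∈ extRing A z c, L (D s) = - ∑ i, B i (L (s * (z - c i)⁻¹))) ∧
      (∀ r ∈ A, ∀ i, L (r * (z - c i)⁻¹) = L' r i) := by
  classical
  have hzc : ∀ i, z - c i ≠ 0 := fun i => z_sub_ne A z D hz hA (hc i)
  -- right inverses of the operators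
  have hRB : ∀ (i : ι) (m : ℕ), ∃ R : Module.End K U, 1 ≤ m →
      ∀ u, B i (R u) - (m : K) • R u = u := by
    intro i m
    by_cases hm : 1 ≤ m
    · have h1 : Function.Bijective (B i - (m : K) • (LinearMap.id : Module.End K U)) := hB i m hm
      refine ⟨((LinearEquiv.ofBijective _ h1).symm : U →ₗ[K] U), fun _ u => ?_⟩
      exact (LinearEquiv.ofBijective _ h1).apply_symm_apply u
    · exact ⟨0, fun h => absurd h hm⟩
  have hRT : ∀ (m : ℕ), ∃ R : Module.End K U, 1 ≤ m →
      ∀ u, ∑ i, B i (R u) + (m : K) • R u = u := by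
    intro m
    by_cases hm : 1 ≤ m
    · have h1 : Function.Bijective (∑ i, B i + (m : K) • (LinearMap.id : Module.End K U)) := by
        have h2 : ⇑(∑ i, B i + (m : K) • (LinearMap.id : Module.End K U)) =
            (fun u => ∑ i, B i u + (m : K) • u) := by
          funext u
          simp
        rw [h2]
        exact hT m hm
      refine ⟨((LinearEquiv.ofBijective _ h1).symm : U →ₗ[K] U), fun _ u => ?_⟩
      have h3 : (∑ i, B i + (m : K) • (LinearMap.id : Module.End K U))
          ((LinearEquiv.ofBijective _ h1).symm u) = u :=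
        (LinearEquiv.ofBijective _ h1).apply_symm_apply u
      simp only [LinearMap.add_apply, LinearMap.sum_apply, LinearMap.smul_apply,
        LinearMap.id_apply] at h3
      exact h3
    · exact ⟨0, fun h => absurd h hm⟩
  choose RB hRB using hRB
  choose RT hRT using hRT
  -- the functional
  set comp : Jx ι → (F →ₗ[K] U) := fun j => Sum.elim (fun m => polyP c RT B L' m)
    (fun x => (polRec c x.1 (RB x.1) B L' x.2).1) j with hcomp
  obtain ⟨G, hG⟩ := LinearMap.exists_leftInverse_of_injective (theta A z c)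
    (LinearMap.ker_eq_bot.2 (theta_injective A z D hz hA c hc hcc))
  set Ps : (Jx ι →₀ A) →ₗ[K] U :=
    Finsupp.lsum K (fun j => comp j ∘ₗ A.val.toLinearMap) with hPs
  obtain ⟨L, hLdef⟩ : ∃ L : F →ₗ[K] U, L = Ps ∘ₗ G := ⟨_, rfl⟩
  have hL : ∀ (j : Jx ι) (r : F), r ∈ A → L (r * bas z c j) = comp j r := by
    intro j r hr
    have h1 : r * bas z c j = theta A z c (Finsupp.single j ⟨r, hr⟩) := by
      rw [theta_single]
    rw [h1, hLdef, LinearMap.comp_apply]
    have h2 : G (theta A z c (Finsupp.single j ⟨r, hr⟩)) = Finsupp.single j ⟨r, hr⟩ :=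
      LinearMap.congr_fun hG _
    rw [h2, hPs, Finsupp.lsum_single]
    rfl
  have hLP : ∀ m r, r ∈ A → L (r * z ^ m) = polyP c RT B L' m r := fun m r hr =>
    hL (Sum.inl m) r hr
  have hLQ : ∀ i m r, r ∈ A → L (r * ((z - c i)⁻¹) ^ (m + 1)) = (polRec c i (RB i) B L' m).1 r :=
    fun i m r hr => hL (Sum.inr (i, m)) r hr
  have hL0 : ∀ r ∈ A, ∀ i, L (r * (z - c i)⁻¹) = L' r i := by
    intro r hr i
    have := hLQ i 0 r hr
    rw [zero_add, pow_one] at this
    rw [this]
    rfl
  -- mixed values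
  have hY : ∀ m, ∀ r ∈ A, ∀ i, L (r * z ^ m * (z - c i)⁻¹) = polyY c RT B L' m i r := by
    intro m
    induction m with
    | zero =>
      intro r hr i
      rw [pow_zero, mul_one, hL0 r hr i]
      rfl
    | succ m ih =>
      intro r hr i
      rw [pow_mul_inv (hzc i), map_add, hLP m r hr, ih _ (A.mul_mem (hc i) hr) i]
      simp only [polyY, polyP, LinearMap.add_apply, LinearMap.comp_apply,
        LinearMap.mulRight_apply]
      rw [mul_comm (c i) r]
  have hX : ∀ i m, ∀ r ∈ A, ∀ j, j ≠ i →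
      L (r * ((z - c i)⁻¹) ^ m * (z - c j)⁻¹) = (polRec c i (RB i) B L' m).2 j r := by
    intro i m
    induction m with
    | zero =>
      intro r hr j _
      rw [pow_zero, mul_one, hL0 r hr j]
      rfl
    | succ m ih =>
      intro r hr j hj
      have hD : (c j - c i)⁻¹ ∈ A := (hcc j i hj).2
      rw [inv_pow_mul_inv (hzc i) (hzc j) (hcc i j (Ne.symm hj)).1, map_sub,
        ih _ (A.mul_mem hr hD) j hj, hLQ i m _ (A.mul_mem hr hD)]
      simp only [polRec, LinearMap.sub_apply, LinearMap.comp_apply, LinearMap.mulRight_apply]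
  refine ⟨L, ?_, hL0⟩
  -- horizontality
  have hgen : ∀ s ∈ gens A z c, L (D s) = - ∑ i, B i (L (s * (z - c i)⁻¹)) := by
    rintro s (⟨r, hr, m, rfl⟩ | ⟨r, hr, i, m, rfl⟩)
    · rcases m with _ | m
      · rw [pow_zero, mul_one, hA r hr, map_zero]
        have h1 : ∀ i, B i (L (r * (z - c i)⁻¹)) = B i (L' r i) := by
          intro i
          rw [hL0 r hr i]
        rw [Finset.sum_congr rfl fun i _ => h1 i, hL' r hr, neg_zero]
      · rw [D_mul_pow A z D hz hA hr, map_smul, hLP m r hr]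
        have h1 : ∀ i, B i (L (r * z ^ (m + 1) * (z - c i)⁻¹)) =
            B i (polyP c RT B L' m r) + B i (polyY c RT B L' m i (r * c i)) := by
          intro i
          rw [hY (m + 1) r hr i]
          simp only [polyY, polyP, LinearMap.add_apply, LinearMap.comp_apply,
            LinearMap.mulRight_apply, map_add]
        rw [Finset.sum_congr rfl fun i _ => h1 i, Finset.sum_add_distrib]
        have h2 := hRT (m + 1) (Nat.le_add_left _ _)
          (∑ i, B i (polyY c RT B L' m i (r * c i)))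
        have h3 : polyP c RT B L' m r = - RT (m + 1) (∑ i, B i (polyY c RT B L' m i (r * c i))) := by
          simp only [polyP, LinearMap.neg_apply, LinearMap.comp_apply, LinearMap.sum_apply,
            LinearMap.mulRight_apply]
        rw [h3]
        simp only [map_neg, Finset.sum_neg_distrib, smul_neg]
        push_cast at h2
        rw [neg_add, neg_neg]
        nth_rewrite 3 [← h2]
        abel
    · rw [D_mul_inv_pow A z D hz hA hr (hc i), map_neg, map_smul, hLQ i (m + 1) r hr]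
      have h0 : ∀ j, B j (L (r * ((z - c i)⁻¹) ^ (m + 1) * (z - c j)⁻¹)) =
          (if j = i then B i ((polRec c i (RB i) B L' (m + 1)).1 r) else 0) +
            B j ((polRec c i (RB i) B L' (m + 1)).2 j r) := by
        intro j
        by_cases hj : j = i
        · subst hj
          rw [if_pos rfl]
          have h1 : r * ((z - c j)⁻¹) ^ (m + 1) * (z - c j)⁻¹ = r * ((z - c j)⁻¹) ^ (m + 1 + 1) := by
            ring
          have h2 : (polRec c j (RB j) B L' (m + 1)).2 j r = 0 := by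
            simp only [polRec, LinearMap.comp_apply, LinearMap.mulRight_apply, sub_self, inv_zero,
              mul_zero, map_zero]
          rw [h1, hLQ j (m + 1) r hr, h2, map_zero, add_zero]
        · rw [if_neg hj, zero_add, hX i (m + 1) r hr j hj]
      rw [Finset.sum_congr rfl fun j _ => h0 j, Finset.sum_add_distrib, Finset.sum_ite_eq',
        if_pos (Finset.mem_univ i)]
      have h2 := hRB i (m + 1) (Nat.le_add_left _ _)
        (∑ j, B j ((polRec c i (RB i) B L' (m + 1)).2 j r))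
      have h3 : (polRec c i (RB i) B L' (m + 1)).1 r =
          - RB i (m + 1) (∑ j, B j ((polRec c i (RB i) B L' (m + 1)).2 j r)) := by
        simp only [polRec, LinearMap.neg_apply, LinearMap.comp_apply, LinearMap.sum_apply,
          LinearMap.mulRight_apply]
      rw [h3]
      simp only [map_neg, smul_neg, neg_neg]
      push_cast at h2
      rw [neg_add, neg_neg]
      nth_rewrite 3 [← h2]
      abel
  intro s hs
  have h1 := extRing_le_span A z c hc hcc hzc s hs
  have h2 : Submodule.span K (gens A z c) ≤ LinearMap.eqLocus (L ∘ₗ D.toLinearMap)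
      (-(∑ i, B i ∘ₗ L ∘ₗ LinearMap.mulRight K ((z - c i)⁻¹))) := by
    rw [Submodule.span_le]
    intro s hs
    show (L ∘ₗ D.toLinearMap) s = (-(∑ i, B i ∘ₗ L ∘ₗ LinearMap.mulRight K ((z - c i)⁻¹))) s
    simp only [LinearMap.neg_apply, LinearMap.sum_apply, LinearMap.comp_apply,
      LinearMap.mulRight_apply]
    exact hgen s hs
  have h3 := h2 h1
  have h4 : (L ∘ₗ D.toLinearMap) s =
      (-(∑ i, B i ∘ₗ L ∘ₗ LinearMap.mulRight K ((z - c i)⁻¹))) s := h3
  simp only [LinearMap.neg_apply, LinearMap.sum_apply, LinearMap.comp_apply,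
      LinearMap.mulRight_apply] at h4
  exact h4

end C1

end Pool.Agent.helper59.NDC1
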