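import Pool.Agent.helper59.Count

/-! Stirling asymptotics of the middle binomial coefficient. -/

namespace Pool.Agent.helper59

open Finset Filter Topology

/-- `C(t-1, ⌊(t-1)/2⌋)` -/
def QQ (t : ℕ) : ℕ := (t - 1).choose ((t - 1) / 2)

theorem QQ_eq_mid (t : ℕ) : QQ t = mid (t - 1) := rfl

theorem QQ_pos (t : ℕ) : 0 < QQ t := mid_pos _

theorem mid_le_two_QQ (t : ℕ) (ht : 1 ≤ t) : mid t ≤ 2 * QQ t := by
  obtain ⟨m, rfl⟩ : ∃ m, t = m + 1 := ⟨t - 1, by omega⟩
  unfold QQ mid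
  simp only [Nat.add_sub_cancel]
  rcases Nat.eq_zero_or_pos ((m + 1) / 2) with h | h
  · rw [h, Nat.choose_zero_right]
    have := Nat.choose_pos (n := m) (k := m / 2) (Nat.div_le_self _ _)
    omega
  · obtain ⟨j, hj⟩ : ∃ j, (m + 1) / 2 = j + 1 := ⟨(m + 1) / 2 - 1, by omega⟩
    rw [hj, Nat.choose_succ_succ']
    have h1 := Nat.choose_le_middle j m
    have h2 := Nat.choose_le_middle (j + 1) m
    omega

/-- normalised central binomial coefficient -/
noncomputable def rho (k : ℕ) : ℝ := (Nat.centralBinom k : ℝ) * Real.sqrt (Real.pi * k) / 4 ^ k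

theorem rho_tendsto : Tendsto rho atTop (𝓝 1) := by
  have hst := Stirling.factorial_isEquivalent_stirling
  have h1 : Tendsto (fun n : ℕ => (n.factorial : ℝ) /
      (Real.sqrt (2 * Real.pi * n) * (n / Real.exp 1) ^ n)) atTop (𝓝 1) := by
    rw [Asymptotics.isEquivalent_iff_tendsto_one] at hst
    · refine hst.congr' ?_
      filter_upwards with n
      simp only [Pi.div_apply]
      rw [show 2 * (n : ℝ) * Real.pi = 2 * Real.pi * n by ring]
    · filter_upwards [eventually_gt_atTop 0] with n hn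
      have : (0 : ℝ) < n := by exact_mod_cast hn
      positivity
  have h2 : Tendsto (fun k : ℕ => 2 * k) atTop atTop :=
    tendsto_id.const_mul_atTop' (by norm_num : 0 < 2)
  have h3 := h1.comp h2
  have h4 := (h3.div (h1.pow 2) (by norm_num))
  simp only [one_pow, div_one] at h4
  refine h4.congr' ?_
  filter_upwards [eventually_gt_atTop 0] with k hk
  have hk0 : (0 : ℝ) < k := by exact_mod_cast hk
  have hpi := Real.pi_pos
  have he : (0 : ℝ) < Real.exp 1 := Real.exp_pos 1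
  simp only [Function.comp, Pi.div_apply]
  unfold rho
  have hcb : (Nat.centralBinom k : ℝ) = ((2 * k).factorial : ℝ) / (k.factorial : ℝ) ^ 2 := by
    have h5 := Nat.choose_mul_factorial_mul_factorial (n := 2 * k) (k := k) (by omega)
    have h6 : 2 * k - k = k := by omega
    rw [h6] at h5
    have hf : (0 : ℝ) < (k.factorial : ℝ) := by exact_mod_cast Nat.factorial_pos k
    rw [eq_div_iff (by positivity)]
    have h7 : (Nat.centralBinom k : ℝ) * (k.factorial : ℝ) * (k.factorial : ℝ) =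
        ((2 * k).factorial : ℝ) := by
      unfold Nat.centralBinom
      exact_mod_cast h5
    rw [← h7]; ring
  rw [hcb]
  have hf : (0 : ℝ) < (k.factorial : ℝ) := by exact_mod_cast Nat.factorial_pos k
  have s1 : Real.sqrt (2 * Real.pi * ((2 * k : ℕ) : ℝ)) = 2 * Real.sqrt (Real.pi * k) := by
    rw [show 2 * Real.pi * ((2 * k : ℕ) : ℝ) = 2 ^ 2 * (Real.pi * k) by push_cast; ring,
      Real.sqrt_mul (by norm_num), Real.sqrt_sq (by norm_num)]
  have s2 : Real.sqrt (2 * Real.pi * (k : ℝ)) ^ 2 = 2 * Real.pi * k :=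
    Real.sq_sqrt (by positivity)
  have s3 : Real.sqrt (Real.pi * k) ^ 2 = Real.pi * k := Real.sq_sqrt (by positivity)
  have s4 : 0 < Real.sqrt (Real.pi * k) := Real.sqrt_pos.2 (by positivity)
  rw [s1]
  have e1 : (((2 * k : ℕ) : ℝ) / Real.exp 1) ^ (2 * k) = 4 ^ k * ((k : ℝ) / Real.exp 1) ^ (2 * k) := by
    push_cast
    rw [show (2 * (k : ℝ)) / Real.exp 1 = 2 * (k / Real.exp 1) by ring, mul_pow, pow_mul]
    norm_num
  have hpow : (0 : ℝ) < ((k : ℝ) / Real.exp 1) ^ k := by positivity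
  have e2 : ((k : ℝ) / Real.exp 1) ^ (2 * k) = (((k : ℝ) / Real.exp 1) ^ k) ^ 2 := by
    rw [← pow_mul]; ring_nf
  rw [e1, e2]
  generalize ((k : ℝ) / Real.exp 1) ^ k = P at hpow
  have h4k : (0 : ℝ) < 4 ^ k := by positivity
  have e3 : ((k.factorial : ℝ) / (Real.sqrt (2 * Real.pi * (k : ℝ)) * P)) ^ 2 =
      (k.factorial : ℝ) ^ 2 / (2 * Real.pi * k * P ^ 2) := by
    rw [div_pow, mul_pow, s2]
  rw [e3]
  have e4 : 2 * Real.pi * (k : ℝ) = 2 * Real.sqrt (Real.pi * k) ^ 2 := by rw [s3]; ring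
  rw [e4]
  generalize Real.sqrt (Real.pi * k) = s at s4
  field_simp

theorem QQ_ratio (t : ℕ) (ht : 2 ≤ t) :
    (QQ t : ℝ) / (2 ^ t / Real.sqrt (2 * Real.pi * t)) =
      rho (t / 2) * Real.sqrt ((t : ℝ) / (2 * ((t / 2 : ℕ) : ℝ))) := by
  have hpi := Real.pi_pos
  rcases Nat.even_or_odd' t with ⟨k, rfl | rfl⟩
  · have hk : 1 ≤ k := by omega
    have hk0 : (0 : ℝ) < k := by exact_mod_cast hk
    have e1 : 2 * k / 2 = k := by omega
    have e2 : Nat.centralBinom k = 2 * QQ (2 * k) := by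
      obtain ⟨j, rfl⟩ : ∃ j, k = j + 1 := ⟨k - 1, by omega⟩
      unfold QQ Nat.centralBinom
      have e3 : 2 * (j + 1) - 1 = 2 * j + 1 := by omega
      have e4 : (2 * j + 1) / 2 = j := by omega
      rw [e3, e4]
      have e5 : 2 * (j + 1) = (2 * j + 1) + 1 := by ring
      rw [e5, Nat.choose_succ_succ' (2 * j + 1) j]
      have e6 : (2 * j + 1).choose (j + 1) = (2 * j + 1).choose j := by
        rw [← Nat.choose_symm_half]
      rw [e6]; ring
    have e7 : (QQ (2 * k) : ℝ) = (Nat.centralBinom k : ℝ) / 2 := by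
      rw [e2]; push_cast; ring
    rw [e1, e7]
    have e8 : ((2 * k : ℕ) : ℝ) / (2 * (k : ℝ)) = 1 := by push_cast; field_simp
    rw [e8, Real.sqrt_one, mul_one]
    unfold rho
    have s1 : Real.sqrt (2 * Real.pi * ((2 * k : ℕ) : ℝ)) = 2 * Real.sqrt (Real.pi * k) := by
      rw [show 2 * Real.pi * ((2 * k : ℕ) : ℝ) = 2 ^ 2 * (Real.pi * k) by push_cast; ring,
        Real.sqrt_mul (by norm_num), Real.sqrt_sq (by norm_num)]
    have s4 : 0 < Real.sqrt (Real.pi * k) := Real.sqrt_pos.2 (by positivity)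
    rw [s1, pow_mul]
    norm_num
    field_simp
  · have hk : 1 ≤ k := by omega
    have hk0 : (0 : ℝ) < k := by exact_mod_cast hk
    have e1 : (2 * k + 1) / 2 = k := by omega
    have e2 : QQ (2 * k + 1) = Nat.centralBinom k := by
      unfold QQ Nat.centralBinom
      have e3 : 2 * k + 1 - 1 = 2 * k := by omega
      have e4 : 2 * k / 2 = k := by omega
      rw [e3, e4]
    rw [e1, e2]
    unfold rho
    have s4 : 0 < Real.sqrt (Real.pi * k) := Real.sqrt_pos.2 (by positivity)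
    have s5 : Real.sqrt (2 * Real.pi * ((2 * k + 1 : ℕ) : ℝ)) =
        2 * (Real.sqrt (Real.pi * k) * Real.sqrt (((2 * k + 1 : ℕ) : ℝ) / (2 * (k : ℝ)))) := by
      rw [← Real.sqrt_mul (by positivity), show (2 : ℝ) = Real.sqrt (2 ^ 2) by
        rw [Real.sqrt_sq (by norm_num)], ← Real.sqrt_mul (by positivity)]
      congr 1
      rw [Real.sqrt_sq (by norm_num)]
      field_simp
    rw [s5, pow_succ, pow_mul]
    norm_num
    field_simp

theorem QQ_tendsto : Tendsto (fun t : ℕ => (QQ t : ℝ) / (2 ^ t / Real.sqrt (2 * Real.pi * t)))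
    atTop (𝓝 1) := by
  have hdiv : Tendsto (fun t : ℕ => t / 2) atTop atTop :=
    Nat.tendsto_div_const_atTop (by norm_num)
  have h1 : Tendsto (fun t : ℕ => rho (t / 2)) atTop (𝓝 1) := rho_tendsto.comp hdiv
  have h2 : Tendsto (fun t : ℕ => (t : ℝ) / (2 * ((t / 2 : ℕ) : ℝ))) atTop (𝓝 1) := by
    have h3 : Tendsto (fun t : ℕ => 1 + 1 / ((t / 2 : ℕ) : ℝ)) atTop (𝓝 (1 + 0)) := by
      apply Tendsto.const_add
      exact tendsto_one_div_atTop_nhds_zero_nat.comp hdiv
    rw [add_zero] at h3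
    apply tendsto_of_tendsto_of_tendsto_of_le_of_le' tendsto_const_nhds h3
    · filter_upwards [eventually_ge_atTop 2] with t ht
      have h4 : 0 < t / 2 := by omega
      have h5 : (0 : ℝ) < ((t / 2 : ℕ) : ℝ) := by exact_mod_cast h4
      rw [le_div_iff₀ (by positivity)]
      have : 2 * (t / 2) ≤ t := by omega
      have h6 : (2 : ℝ) * ((t / 2 : ℕ) : ℝ) ≤ t := by exact_mod_cast this
      linarith
    · filter_upwards [eventually_ge_atTop 2] with t ht
      have h4 : 0 < t / 2 := by omega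
      have h5 : (0 : ℝ) < ((t / 2 : ℕ) : ℝ) := by exact_mod_cast h4
      rw [div_le_iff₀ (by positivity)]
      have : t ≤ 2 * (t / 2) + 1 := by omega
      have h6 : (t : ℝ) ≤ 2 * ((t / 2 : ℕ) : ℝ) + 1 := by exact_mod_cast this
      have h7 : (1 + 1 / ((t / 2 : ℕ) : ℝ)) * (2 * ((t / 2 : ℕ) : ℝ)) =
          2 * ((t / 2 : ℕ) : ℝ) + 2 := by field_simp
      rw [h7]
      linarith
  have h3 : Tendsto (fun t : ℕ => Real.sqrt ((t : ℝ) / (2 * ((t / 2 : ℕ) : ℝ)))) atTop
      (𝓝 1) := by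
    have := (Real.continuous_sqrt.tendsto 1).comp h2
    rwa [Real.sqrt_one] at this
  have h4 := h1.mul h3
  rw [mul_one] at h4
  refine h4.congr' ?_
  filter_upwards [eventually_ge_atTop 2] with t ht
  exact (QQ_ratio t ht).symm

end Pool.Agent.helper59
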