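import Mathlib

/-! A colouring of 4-sets with few colours and without the pattern. -/

namespace Pool.Agent.helper59

open Finset

theorem exists_div_eq (x z : ℕ) : ∃ j, x / 2 ^ j = z / 2 ^ j := by
  refine ⟨x + z, ?_⟩
  rw [Nat.div_eq_of_lt, Nat.div_eq_of_lt]
  · calc z ≤ x + z := by omega
      _ < 2 ^ (x + z) := Nat.lt_two_pow_self
  · calc x ≤ x + z := by omega
      _ < 2 ^ (x + z) := Nat.lt_two_pow_self

/-- one more than the position of the highest binary digit in which `x` and `z` differ -/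
def dl (x z : ℕ) : ℕ := Nat.find (exists_div_eq x z)

theorem dl_spec (x z : ℕ) : x / 2 ^ (dl x z) = z / 2 ^ (dl x z) := Nat.find_spec (exists_div_eq x z)

theorem dl_min {x z j : ℕ} (h : j < dl x z) : x / 2 ^ j ≠ z / 2 ^ j :=
  Nat.find_min (exists_div_eq x z) h

theorem dl_pos {x z : ℕ} (h : x < z) : 0 < dl x z := by
  rcases Nat.eq_zero_or_pos (dl x z) with h0 | h0
  · have := dl_spec x z
    rw [h0] at this
    simp at this
    omega
  · exact h0

theorem dl_le {x z q : ℕ} (hx : x < 2 ^ q) (hz : z < 2 ^ q) : dl x z ≤ q := by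
  apply Nat.find_le
  rw [Nat.div_eq_of_lt hx, Nat.div_eq_of_lt hz]

/-- at the splitting level, the smaller number has digit 0 and the larger has digit 1 -/
theorem dl_digits {x z e : ℕ} (h : x < z) (he : dl x z = e + 1) :
    x / 2 ^ e = 2 * (x / 2 ^ (e + 1)) ∧ z / 2 ^ e = 2 * (x / 2 ^ (e + 1)) + 1 := by
  have h1 := dl_spec x z
  rw [he] at h1
  have h2 : x / 2 ^ e ≠ z / 2 ^ e := dl_min (by omega)
  have h3 : x / 2 ^ e ≤ z / 2 ^ e := Nat.div_le_div_right h.le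
  have h4 : x / 2 ^ (e + 1) = x / 2 ^ e / 2 := by rw [pow_succ, Nat.div_div_eq_div_mul]
  have h5 : z / 2 ^ (e + 1) = z / 2 ^ e / 2 := by rw [pow_succ, Nat.div_div_eq_div_mul]
  omega

/-- the three equal splitting levels of a pattern are contradictory -/
theorem dl_contra {x₁ x₂ x₃ x₄ x₅ x₆ : ℕ} (h12 : x₁ < x₂) (h23 : x₂ < x₃) (h34 : x₃ < x₄)
    (h45 : x₄ < x₅) (h56 : x₅ < x₆) (e1 : dl x₁ x₃ = dl x₂ x₅) (e2 : dl x₂ x₅ = dl x₄ x₆) :
    False := by
  obtain ⟨e, he⟩ : ∃ e, dl x₂ x₅ = e + 1 :=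
    ⟨dl x₂ x₅ - 1, by have := dl_pos (x := x₂) (z := x₅) (by omega); omega⟩
  have a1 := dl_digits (x := x₁) (z := x₃) (by omega) (e1.trans he)
  have a2 := dl_digits (x := x₂) (z := x₅) (by omega) he
  have a3 := dl_digits (x := x₄) (z := x₆) (by omega) (e2 ▸ he)
  have m1 : x₂ / 2 ^ e ≤ x₃ / 2 ^ e := Nat.div_le_div_right h23.le
  have m2 : x₃ / 2 ^ e ≤ x₄ / 2 ^ e := Nat.div_le_div_right h34.le
  have m3 : x₄ / 2 ^ e ≤ x₅ / 2 ^ e := Nat.div_le_div_right h45.le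
  have m4 : x₁ / 2 ^ e ≤ x₂ / 2 ^ e := Nat.div_le_div_right h12.le
  omega

/-- pairwise incomparable sets from the middle layer -/
theorem exists_layer (m : ℕ) : ∃ A : ℕ → Finset (Fin m), ∀ i < m.choose (m / 2),
    ∀ j < m.choose (m / 2), i ≠ j → ∃ k, k ∈ A j ∧ k ∉ A i := by
  classical
  have hc : (powersetCard (m / 2) (univ : Finset (Fin m))).card = m.choose (m / 2) := by
    rw [card_powersetCard, card_univ, Fintype.card_fin]
  let e := (powersetCard (m / 2) (univ : Finset (Fin m))).equivFinOfCardEq hc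
  refine ⟨fun i => if h : i < m.choose (m / 2) then (e.symm ⟨i, h⟩).1 else ∅, ?_⟩
  intro i hi j hj hij
  simp only [dif_pos hi, dif_pos hj]
  by_contra hcon
  push Not at hcon
  have h1 : (e.symm ⟨j, hj⟩).1 ⊆ (e.symm ⟨i, hi⟩).1 := fun k hk => hcon k hk
  have c1 := (mem_powersetCard.1 (e.symm ⟨j, hj⟩).2).2
  have c2 := (mem_powersetCard.1 (e.symm ⟨i, hi⟩).2).2
  have h2 : (e.symm ⟨j, hj⟩).1 = (e.symm ⟨i, hi⟩).1 :=
    eq_of_subset_of_card_le h1 (by rw [c1, c2])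
  have h3 := e.symm.injective (Subtype.ext h2)
  simp only [Fin.mk.injEq] at h3
  exact hij h3.symm

/-- A colouring of the 4-sets of `{0,…,2^q-1}`, `q = C(m, m/2)`, with `m + 1` colours and without
the pattern. -/
theorem exists_colouring (m : ℕ) : ∃ col : ℕ → ℕ → ℕ → ℕ → Fin (m + 1),
    ∀ x₁ x₂ x₃ x₄ x₅ x₆, x₁ < x₂ → x₂ < x₃ → x₃ < x₄ → x₄ < x₅ → x₅ < x₆ →
      x₆ < 2 ^ (m.choose (m / 2)) → col x₁ x₂ x₃ x₅ ≠ col x₂ x₄ x₅ x₆ := by
  classical
  obtain ⟨A, hA⟩ := exists_layer m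
  let col : ℕ → ℕ → ℕ → ℕ → Fin (m + 1) := fun a b c d =>
    if dl a c = dl b d then 0
    else if h : ∃ k, k ∈ A (dl b d - 1) ∧ k ∉ A (dl a c - 1) then (h.choose).succ else 0
  have hcol0 : ∀ a b c d, dl a c = dl b d → col a b c d = 0 := by
    intro a b c d h
    simp only [col, if_pos h]
  have hcol1 : ∀ a b c d, a < b → b < c → c < d → d < 2 ^ (m.choose (m / 2)) →
      dl a c ≠ dl b d → ∃ k, k ∈ A (dl b d - 1) ∧ k ∉ A (dl a c - 1) ∧ col a b c d = k.succ := by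
    intro a b c d hab hbc hcd hd h
    have p1 := dl_pos (x := a) (z := c) (by omega)
    have p2 := dl_pos (x := b) (z := d) (by omega)
    have q1 := dl_le (x := a) (z := c) (q := m.choose (m / 2)) (by omega) (by omega)
    have q2 := dl_le (x := b) (z := d) (q := m.choose (m / 2)) (by omega) (by omega)
    have hex := hA (dl a c - 1) (by omega) (dl b d - 1) (by omega) (by omega)
    refine ⟨hex.choose, hex.choose_spec.1, hex.choose_spec.2, ?_⟩
    simp only [col, if_neg h, dif_pos hex]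
  refine ⟨col, ?_⟩
  intro x₁ x₂ x₃ x₄ x₅ x₆ h12 h23 h34 h45 h56 h6 heq
  by_cases e1 : dl x₁ x₃ = dl x₂ x₅
  · have c1 := hcol0 x₁ x₂ x₃ x₅ e1
    by_cases e2 : dl x₂ x₅ = dl x₄ x₆
    · exact dl_contra h12 h23 h34 h45 h56 e1 e2
    · obtain ⟨k, _, _, hk⟩ := hcol1 x₂ x₄ x₅ x₆ (by omega) h45 h56 h6 e2
      rw [c1, hk] at heq
      exact (Fin.succ_ne_zero k) heq.symm
  · obtain ⟨k, hk1, hk2, hk⟩ := hcol1 x₁ x₂ x₃ x₅ h12 h23 (by omega) (by omega) e1
    by_cases e2 : dl x₂ x₅ = dl x₄ x₆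
    · have c2 := hcol0 x₂ x₄ x₅ x₆ e2
      rw [c2, hk] at heq
      exact (Fin.succ_ne_zero k) heq
    · obtain ⟨l, hl1, hl2, hl⟩ := hcol1 x₂ x₄ x₅ x₆ (by omega) h45 h56 h6 e2
      rw [hk, hl] at heq
      have hkl := Fin.succ_injective _ heq
      rw [hkl] at hk1
      exact hl2 hk1

end Pool.Agent.helper59
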