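import Pool.Agent.helper59.Leaf

/-! From a pattern-free colouring of 4-sets to maximal antichains. -/

namespace Pool.Agent.helper59

open Finset

section Closure
variable {β : Type*} [DecidableEq β] [Fintype β]

/-- sets all of whose one point extensions lie in `f` -/
def plus (f : Finset (Finset β)) : Finset (Finset β) :=
  univ.filter (fun X => ∀ k, k ∉ X → insert k X ∈ f)

theorem mem_plus {f : Finset (Finset β)} {X : Finset β} :
    X ∈ plus f ↔ ∀ k, k ∉ X → insert k X ∈ f := by simp [plus]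

/-- minimal members -/
def mins (h : Finset (Finset β)) : Finset (Finset β) := h.filter (fun X => ∀ Y ∈ h, Y ⊆ X → Y = X)

theorem mem_mins {h : Finset (Finset β)} {X : Finset β} :
    X ∈ mins h ↔ X ∈ h ∧ ∀ Y ∈ h, Y ⊆ X → Y = X := by simp [mins]

theorem exists_mins {h : Finset (Finset β)} {X : Finset β} (hX : X ∈ h) :
    ∃ Y ∈ mins h, Y ⊆ X := by
  obtain ⟨Y, hYX, hY⟩ := h.exists_le_minimal hX
  refine ⟨Y, mem_mins.2 ⟨hY.1, fun Z hZ hZY => ?_⟩, hYX⟩
  exact Subset.antisymm hZY (hY.2 hZ hZY)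

theorem plus_upper {f : Finset (Finset β)} (hf : ∀ X ∈ f, ∀ Y, X ⊆ Y → Y ∈ f) :
    ∀ X ∈ plus f, ∀ Y, X ⊆ Y → Y ∈ plus f := by
  intro X hX Y hXY
  rw [mem_plus] at hX ⊢
  intro k hk
  exact hf _ (hX k (fun h => hk (hXY h))) _ (insert_subset_insert k hXY)

theorem subset_plus {f : Finset (Finset β)} (hf : ∀ X ∈ f, ∀ Y, X ⊆ Y → Y ∈ f) : f ⊆ plus f := by
  intro X hX
  rw [mem_plus]
  intro k _
  exact hf X hX _ (subset_insert k X)

theorem mins_mem_MIS {f : Finset (Finset β)} (hf : ∀ X ∈ f, ∀ Y, X ⊆ Y → Y ∈ f) :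
    mins (plus f) ∈ MIS cmp univ := by
  rw [mem_MIS]
  refine ⟨subset_univ _, ?_, ?_⟩
  · rintro X hX Y hY (h | h)
    · exact h.ne ((mem_mins.1 hY).2 X (mem_mins.1 hX).1 h.subset)
    · exact h.ne ((mem_mins.1 hX).2 Y (mem_mins.1 hY).1 h.subset)
  · intro X _ hX
    by_cases hXp : X ∈ plus f
    · obtain ⟨Y, hY, hYX⟩ := exists_mins hXp
      exact ⟨Y, hY, Or.inr (Finset.ssubset_iff_subset_ne.2 ⟨hYX, fun h => hX (h ▸ hY)⟩)⟩
    · have hXf : X ∈ univ.filter (fun Z => Z ∉ f) := by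
        rw [mem_filter]
        exact ⟨mem_univ _, fun h => hXp (subset_plus hf h)⟩
      obtain ⟨M, hXM, hM⟩ := (univ.filter (fun Z => Z ∉ f)).exists_le_maximal hXf
      have hMf : M ∉ f := (mem_filter.1 hM.1).2
      have hMp : M ∈ plus f := by
        rw [mem_plus]
        intro k hk
        by_contra hcon
        have h1 : insert k M ∈ univ.filter (fun Z => Z ∉ f) := by
          rw [mem_filter]; exact ⟨mem_univ _, hcon⟩
        have h2 := hM.2 h1 (subset_insert k M)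
        exact hk (h2 (mem_insert_self k M))
      refine ⟨M, mem_mins.2 ⟨hMp, ?_⟩, Or.inl (Finset.ssubset_iff_subset_ne.2 ⟨hXM, ?_⟩)⟩
      · intro Y hY hYM
        by_contra hne
        obtain ⟨k, hkM, hkY⟩ := exists_of_ssubset (Finset.ssubset_iff_subset_ne.2 ⟨hYM, hne⟩)
        rw [mem_plus] at hY
        exact hMf (hf _ (hY k hkY) _ (insert_subset hkM hYM))
      · intro h
        exact hXp (h ▸ hMp)

theorem plus_inj {f g : Finset (Finset β)} (hf : ∀ X ∈ f, ∀ Y, X ⊆ Y → Y ∈ f)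
    (hg : ∀ X ∈ g, ∀ Y, X ⊆ Y → Y ∈ g) (h : mins (plus f) = mins (plus g)) : plus f = plus g := by
  apply Subset.antisymm
  · intro X hX
    obtain ⟨Y, hY, hYX⟩ := exists_mins hX
    rw [h] at hY
    exact plus_upper hg Y (mem_mins.1 hY).1 X hYX
  · intro X hX
    obtain ⟨Y, hY, hYX⟩ := exists_mins hX
    rw [← h] at hY
    exact plus_upper hf Y (mem_mins.1 hY).1 X hYX

end Closure

section Colouring
variable {t : ℕ}

/-- `col` has no pattern on `{1,…,n}` -/
def PF (n : ℕ) (col : ℕ → ℕ → ℕ → ℕ → Fin t) : Prop :=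
  ∀ x₁ x₂ x₃ x₄ x₅ x₆, 1 ≤ x₁ → x₁ < x₂ → x₂ < x₃ → x₃ < x₄ → x₄ < x₅ → x₅ < x₆ → x₆ ≤ n →
    col x₁ x₂ x₃ x₅ ≠ col x₂ x₄ x₅ x₆

open scoped Classical in
/-- the colours seen on `(w, x, y', z)` with `w < x < y' ≤ y` -/
noncomputable def SS (col : ℕ → ℕ → ℕ → ℕ → Fin t) (x y z : ℕ) : Finset (Fin t) :=
  univ.filter (fun κ => ∃ w y', 1 ≤ w ∧ w < x ∧ x < y' ∧ y' ≤ y ∧ col w x y' z = κ)

theorem mem_SS {col : ℕ → ℕ → ℕ → ℕ → Fin t} {x y z : ℕ} {κ : Fin t} :
    κ ∈ SS col x y z ↔ ∃ w y', 1 ≤ w ∧ w < x ∧ x < y' ∧ y' ≤ y ∧ col w x y' z = κ := by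
  simp [SS]

theorem SS_mono {col : ℕ → ℕ → ℕ → ℕ → Fin t} {x y y' z : ℕ} (h : y ≤ y') :
    SS col x y z ⊆ SS col x y' z := by
  intro κ hκ
  rw [mem_SS] at hκ ⊢
  obtain ⟨w, b, h1, h2, h3, h4, h5⟩ := hκ
  exact ⟨w, b, h1, h2, h3, h4.trans h, h5⟩

open scoped Classical in
/-- the up-set attached to the point `x` -/
noncomputable def ff (n : ℕ) (col : ℕ → ℕ → ℕ → ℕ → Fin t) (x : ℕ) : Finset (Finset (Fin t)) :=
  univ.filter (fun X => ∃ y z, x < y ∧ y < z ∧ z ≤ n ∧ SS col x y z ⊆ X)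

theorem mem_ff {n : ℕ} {col : ℕ → ℕ → ℕ → ℕ → Fin t} {x : ℕ} {X : Finset (Fin t)} :
    X ∈ ff n col x ↔ ∃ y z, x < y ∧ y < z ∧ z ≤ n ∧ SS col x y z ⊆ X := by
  simp [ff]

theorem ff_upper (n : ℕ) (col : ℕ → ℕ → ℕ → ℕ → Fin t) (x : ℕ) :
    ∀ X ∈ ff n col x, ∀ Y, X ⊆ Y → Y ∈ ff n col x := by
  intro X hX Y hXY
  rw [mem_ff] at hX ⊢
  obtain ⟨y, z, h1, h2, h3, h4⟩ := hX
  exact ⟨y, z, h1, h2, h3, h4.trans hXY⟩

theorem SS_notMem {n : ℕ} {col : ℕ → ℕ → ℕ → ℕ → Fin t} (hPF : PF n col) {x b z : ℕ}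
    (hx1 : 1 ≤ x) (hxb : x < b) (hbz : b < z) : SS col x b (z + 1) ∉ ff n col z := by
  intro h
  rw [mem_ff] at h
  obtain ⟨y', z', h1, h2, h3, h4⟩ := h
  have hκ : col x z (z + 1) z' ∈ SS col z y' z' := by
    rw [mem_SS]
    exact ⟨x, z + 1, hx1, by omega, by omega, by omega, rfl⟩
  have hκ' := h4 hκ
  rw [mem_SS] at hκ'
  obtain ⟨w, y'', g1, g2, g3, g4, g5⟩ := hκ'
  exact hPF w x y'' z (z + 1) z' g1 g2 g3 (by omega) (by omega) (by omega) h3 g5

theorem flat {n : ℕ} {col : ℕ → ℕ → ℕ → ℕ → Fin t} (hPF : PF n col) {x z : ℕ}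
    (hx1 : 1 ≤ x) (hzn : z + 1 ≤ n)
    (hplus : plus (ff n col x) = plus (ff n col z)) {b b' : ℕ} (hxb : x < b) (hbb : b ≤ b')
    (hbz : b' < z) : SS col x b' (z + 1) = SS col x b (z + 1) := by
  by_contra hne
  have hsub : SS col x b (z + 1) ⊂ SS col x b' (z + 1) :=
    Finset.ssubset_iff_subset_ne.2 ⟨SS_mono hbb, fun h => hne h.symm⟩
  obtain ⟨k, hk1, hk2⟩ := exists_of_ssubset hsub
  have h1 : SS col x b (z + 1) ∈ ff n col x := by
    rw [mem_ff]
    exact ⟨b, z + 1, hxb, by omega, hzn, Subset.refl _⟩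
  have h2 : SS col x b (z + 1) ∈ plus (ff n col z) := by
    rw [← hplus]
    exact subset_plus (ff_upper n col x) h1
  rw [mem_plus] at h2
  have h3 := h2 k hk2
  have h4 : SS col x b' (z + 1) ∈ ff n col z :=
    ff_upper n col z _ h3 _ (insert_subset hk1 hsub.subset)
  exact SS_notMem hPF hx1 (by omega) hbz h4

/-- a family of points with the same closure is small -/
theorem fiber_card {n : ℕ} {col : ℕ → ℕ → ℕ → ℕ → Fin t} (hPF : PF n col) (m : ℕ)
    (hm : 2 * m + 1 ≤ n) (G : Finset ℕ) (hG : G ⊆ Icc 1 m)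
    (hGp : ∀ i ∈ G, ∀ j ∈ G, plus (ff n col (2 * i)) = plus (ff n col (2 * j))) :
    G.card ≤ 2 * 2 ^ t + 1 := by
  by_contra hcon
  push Not at hcon
  set q := 2 ^ t + 1 with hq
  have hGq : 2 * q ≤ G.card := by omega
  let g : Fin G.card ↪o ℕ := G.orderEmbOfFin rfl
  have hgG : ∀ i, g i ∈ G := fun i => G.orderEmbOfFin_mem rfl i
  have hg1 : ∀ i, 1 ≤ g i ∧ g i ≤ m := fun i => mem_Icc.1 (hG (hgG i))
  let a : ℕ → ℕ := fun i => if h : i < G.card then g ⟨i, h⟩ else 0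
  have ha : ∀ i, i < G.card → a i ∈ G := by
    intro i hi
    simp only [a, dif_pos hi]
    exact hgG _
  have ha1 : ∀ i, i < G.card → 1 ≤ a i ∧ a i ≤ m := fun i hi => mem_Icc.1 (hG (ha i hi))
  have halt : ∀ i j, i < j → j < G.card → a i < a j := by
    intro i j hij hj
    have hi : i < G.card := hij.trans hj
    simp only [a, dif_pos hi, dif_pos hj]
    exact g.strictMono (by simpa using hij)
  let X : Fin q → Finset (Fin t) := fun i => SS col (2 * a i) (2 * a i + 1) (2 * a (i + q) + 1)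
  have hX : ∀ i j : Fin q, i < j → X i ≠ X j := by
    intro i j hij hXe
    have hij' : (i : ℕ) < j := hij
    have hjq : (j : ℕ) < q := j.2
    have c1 : a i < a j := halt i j hij' (by omega)
    have c2 : a j < a (i + q) := halt j (i + q) (by omega) (by omega)
    have c3 : a (i + q) < a (j + q) := halt (i + q) (j + q) (by omega) (by omega)
    have c4 := ha1 i (by omega)
    have c5 := ha1 (j + q) (by omega)
    have hκ : col (2 * a i) (2 * a j) (2 * a (i + q) + 1) (2 * a (j + q) + 1) ∈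
        SS col (2 * a j) (2 * a (i + q) + 1) (2 * a (j + q) + 1) := by
      rw [mem_SS]
      exact ⟨2 * a i, 2 * a (i + q) + 1, by omega, by omega, by omega, le_rfl, rfl⟩
    have hfl : SS col (2 * a j) (2 * a (i + q) + 1) (2 * a (j + q) + 1) = X j := by
      apply flat hPF (by omega) (by omega)
      · exact hGp _ (ha j (by omega)) _ (ha (j + q) (by omega))
      · omega
      · omega
      · omega
    rw [hfl, ← hXe] at hκ
    simp only [X] at hκ
    rw [mem_SS] at hκ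
    obtain ⟨w, y', g1, g2, g3, g4, g5⟩ := hκ
    exact hPF w (2 * a i) y' (2 * a j) (2 * a (i + q) + 1) (2 * a (j + q) + 1) g1 g2 g3
      (by omega) (by omega) (by omega) (by omega) g5
  have hinj : Function.Injective X := by
    intro i j hij
    rcases lt_trichotomy i j with h | h | h
    · exact absurd hij (hX i j h)
    · exact h
    · exact absurd hij.symm (hX j i h)
  have hcard := Fintype.card_le_of_injective X hinj
  rw [Fintype.card_fin, Fintype.card_finset, Fintype.card_fin] at hcard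
  omega

/-- the main combinatorial upper bound -/
theorem upper_main {n : ℕ} {col : ℕ → ℕ → ℕ → ℕ → Fin t} (hPF : PF n col) :
    n ≤ 2 * ((2 * 2 ^ t + 1) * (MIS cmp (univ : Finset (Finset (Fin t)))).card) + 2 := by
  classical
  rcases Nat.lt_or_ge n 3 with hn | hn
  · omega
  set m := (n - 1) / 2 with hm
  have hm1 : 2 * m + 1 ≤ n := by omega
  have hm2 : n ≤ 2 * m + 2 := by omega
  have h1 : (Icc 1 m).card ≤ (2 * 2 ^ t + 1) *
      ((Icc 1 m).image (fun i => plus (ff n col (2 * i)))).card := by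
    apply card_le_mul_card_image
    intro p _
    apply fiber_card hPF m hm1
    · exact filter_subset _ _
    · intro i hi j hj
      rw [mem_filter] at hi hj
      rw [hi.2, hj.2]
  have h2 : ((Icc 1 m).image (fun i => plus (ff n col (2 * i)))).card ≤
      (MIS cmp (univ : Finset (Finset (Fin t)))).card := by
    apply card_le_card_of_injOn (fun h => mins h)
    · intro h hh
      rw [mem_coe, mem_image] at hh
      obtain ⟨i, _, rfl⟩ := hh
      exact mins_mem_MIS (ff_upper n col _)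
    · intro h hh h' hh' heq
      rw [mem_coe, mem_image] at hh hh'
      obtain ⟨i, _, rfl⟩ := hh
      obtain ⟨j, _, rfl⟩ := hh'
      exact plus_inj (ff_upper n col _) (ff_upper n col _) heq
  rw [Nat.card_Icc] at h1
  have h3 := Nat.mul_le_mul_left (2 * 2 ^ t + 1) h2
  omega

end Colouring

end Pool.Agent.helper59
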