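import Mathlib

/-! Clique complexes inside `Fin K → ℝ`, foldings, and open thickenings. -/

namespace Pool.Agent.helper59.Dism

open Finset

variable {K : ℕ}

/-- Two sets which are homotopy equivalent through straight-line homotopies. -/
theorem contractible_of_straight {S T : Set (Fin K → ℝ)} (f g : (Fin K → ℝ) → (Fin K → ℝ))
    (hf : ContinuousOn f S) (hg : ContinuousOn g T)
    (hfm : ∀ x ∈ S, f x ∈ T) (hgm : ∀ x ∈ T, g x ∈ S)
    (hS : ∀ x ∈ S, ∀ t : ℝ, 0 ≤ t → t ≤ 1 → (1 - t) • g (f x) + t • x ∈ S)
    (hT : ∀ x ∈ T, ∀ t : ℝ, 0 ≤ t → t ≤ 1 → (1 - t) • f (g x) + t • x ∈ T)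
    (hc : ContractibleSpace T) : ContractibleSpace S := by
  have hfc : Continuous (fun x : S => (⟨f x.1, hfm x.1 x.2⟩ : T)) :=
    Continuous.subtype_mk (continuousOn_iff_continuous_domRestrict.1 hf) _
  have hgc : Continuous (fun x : T => (⟨g x.1, hgm x.1 x.2⟩ : S)) :=
    Continuous.subtype_mk (continuousOn_iff_continuous_domRestrict.1 hg) _
  let F : C(S, T) := ⟨_, hfc⟩
  let G : C(T, S) := ⟨_, hgc⟩
  have h1 : (G.comp F).Homotopic (ContinuousMap.id S) := by
    refine ⟨⟨⟨fun p => ⟨(1 - (p.1 : ℝ)) • g (f p.2.1) + (p.1 : ℝ) • p.2.1,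
      hS p.2.1 p.2.2 p.1 p.1.2.1 p.1.2.2⟩, ?_⟩, ?_, ?_⟩⟩
    · refine Continuous.subtype_mk ?_ _
      have h2 : Continuous (fun p : unitInterval × S => g (f p.2.1)) := by
        have : Continuous (fun p : unitInterval × S => ((G (F p.2) : S) : Fin K → ℝ)) :=
          continuous_subtype_val.comp (G.continuous.comp (F.continuous.comp continuous_snd))
        exact this
      have h3 : Continuous (fun p : unitInterval × S => (p.1 : ℝ)) :=
        continuous_subtype_val.comp continuous_fst
      have h4 : Continuous (fun p : unitInterval × S => (p.2.1 : Fin K → ℝ)) :=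
        continuous_subtype_val.comp continuous_snd
      exact ((continuous_const.sub h3).smul h2).add (h3.smul h4)
    · intro x
      apply Subtype.ext
      simp [F, G]
    · intro x
      apply Subtype.ext
      simp
  have h2 : (F.comp G).Homotopic (ContinuousMap.id T) := by
    refine ⟨⟨⟨fun p => ⟨(1 - (p.1 : ℝ)) • f (g p.2.1) + (p.1 : ℝ) • p.2.1,
      hT p.2.1 p.2.2 p.1 p.1.2.1 p.1.2.2⟩, ?_⟩, ?_, ?_⟩⟩
    · refine Continuous.subtype_mk ?_ _
      have h2 : Continuous (fun p : unitInterval × T => f (g p.2.1)) := by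
        have : Continuous (fun p : unitInterval × T => ((F (G p.2) : T) : Fin K → ℝ)) :=
          continuous_subtype_val.comp (F.continuous.comp (G.continuous.comp continuous_snd))
        exact this
      have h3 : Continuous (fun p : unitInterval × T => (p.1 : ℝ)) :=
        continuous_subtype_val.comp continuous_fst
      have h4 : Continuous (fun p : unitInterval × T => (p.2.1 : Fin K → ℝ)) :=
        continuous_subtype_val.comp continuous_snd
      exact ((continuous_const.sub h3).smul h2).add (h3.smul h4)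
    · intro x
      apply Subtype.ext
      simp [F, G]
    · intro x
      apply Subtype.ext
      simp
  let e : ContinuousMap.HomotopyEquiv S T := ⟨F, G, h1, h2⟩
  exact e.contractibleSpace

/-- The geometric realization of the clique complex of `comp` on the vertex set `Q`. -/
def X (comp : Fin K → Fin K → Prop) (Q : Set (Fin K)) : Set (Fin K → ℝ) :=
  {x | (∀ k, 0 ≤ x k) ∧ ∑ k, x k = 1 ∧ (∀ k l, ¬ comp k l → x k = 0 ∨ x l = 0) ∧
    ∀ k, k ∉ Q → x k = 0}

/-- The open thickening: points at which the positive coordinates form a clique meeting `Q`. -/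
def V (comp : Fin K → Fin K → Prop) (Q : Set (Fin K)) : Set (Fin K → ℝ) :=
  {x | (∀ k l, ¬ comp k l → x k < 0 ∨ x l < 0) ∧ ∃ k ∈ Q, 0 < x k}

/-- Dismantlability by folding vertices `a` onto vertices `b`. -/
inductive Dismantlable (comp : Fin K → Fin K → Prop) : Set (Fin K) → Prop
  | single (a : Fin K) : Dismantlable comp {a}
  | step (a b : Fin K) (Q : Set (Fin K)) (hb : b ∈ Q) (hab : a ≠ b)
      (h : ∀ c ∈ Q, comp a c → comp b c) (hQ : Dismantlable comp (Q \ {a})) :
      Dismantlable comp Q

theorem push_mem {comp : Fin K → Fin K → Prop} (hrefl : ∀ a, comp a a)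
    (hsymm : ∀ a b, comp a b → comp b a) {Q : Set (Fin K)} {a b : Fin K} (hb : b ∈ Q)
    (hab : a ≠ b) (h : ∀ c ∈ Q, comp a c → comp b c) {x : Fin K → ℝ} (hx : x ∈ X comp Q)
    {s : ℝ} (hs0 : 0 ≤ s) (hs1 : s ≤ 1) :
    x + (s * x a) • (Pi.single b 1 - Pi.single a 1 : Fin K → ℝ) ∈ X comp Q := by
  classical
  obtain ⟨h1, h2, h3, h4⟩ := hx
  -- the value of each coordinate
  have hv : ∀ k, (x + (s * x a) • (Pi.single b 1 - Pi.single a 1 : Fin K → ℝ)) k
      = if k = a then (1 - s) * x a else if k = b then x b + s * x a else x k := by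
    intro k
    by_cases hk : k = a
    · subst hk
      simp [hab]
      ring
    · by_cases hk2 : k = b
      · subst hk2
        simp [hk]
      · simp [hk, hk2]
  have hsupp : ∀ k, (x + (s * x a) • (Pi.single b 1 - Pi.single a 1 : Fin K → ℝ)) k ≠ 0 →
      x k ≠ 0 ∨ (k = b ∧ x a ≠ 0) := by
    intro k hk
    rw [hv] at hk
    by_cases hk1 : k = a
    · subst hk1
      left
      intro h0
      simp [h0] at hk
    · by_cases hk2 : k = b
      · subst hk2
        by_cases h0 : x a = 0
        · left
          simpa [hk1, h0] using hk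
        · right; exact ⟨rfl, h0⟩
      · left
        simpa [hk1, hk2] using hk
  -- vertices of the support of `x` are pairwise comparable
  have hcl : ∀ k l, x k ≠ 0 → x l ≠ 0 → comp k l := by
    intro k l hk hl
    by_contra hcon
    rcases h3 k l hcon with h | h
    · exact hk h
    · exact hl h
  have hQ : ∀ k, x k ≠ 0 → k ∈ Q := by
    intro k hk
    by_contra hcon
    exact hk (h4 k hcon)
  refine ⟨fun k => ?_, ?_, ?_, ?_⟩
  · rw [hv]
    have := h1 a
    split_ifs
    · exact mul_nonneg (by linarith) this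
    · exact add_nonneg (h1 b) (mul_nonneg hs0 this)
    · exact h1 k
  · simp only [Pi.add_apply, Pi.smul_apply, Pi.sub_apply, smul_eq_mul, Finset.sum_add_distrib,
      ← Finset.mul_sum, Finset.sum_sub_distrib, h2]
    simp
  · intro k l hkl
    by_contra hcon
    push Not at hcon
    obtain ⟨hk, hl⟩ := hcon
    apply hkl
    rcases hsupp k hk with hk' | ⟨rfl, hk'⟩
    · rcases hsupp l hl with hl' | ⟨rfl, hl'⟩
      · exact hcl k l hk' hl'
      · exact hsymm _ _ (h k (hQ k hk') (hcl a k hl' hk'))
    · rcases hsupp l hl with hl' | ⟨rfl, hl'⟩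
      · exact h l (hQ l hl') (hcl a l hk' hl')
      · exact hrefl _
  · intro k hk
    by_contra hcon
    rcases hsupp k hcon with hk' | ⟨rfl, -⟩
    · exact hk (hQ k hk')
    · exact hk hb

theorem Dismantlable.contractible {comp : Fin K → Fin K → Prop} (hrefl : ∀ a, comp a a)
    (hsymm : ∀ a b, comp a b → comp b a) {Q : Set (Fin K)} (h : Dismantlable comp Q) :
    ContractibleSpace (X comp Q) := by
  classical
  induction h with
  | single a =>
    have hx : (Pi.single a 1 : Fin K → ℝ) ∈ X comp {a} := by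
      refine ⟨fun k => ?_, ?_, ?_, ?_⟩
      · by_cases h : k = a
        · subst h; simp
        · simp [h]
      · simp
      · intro k l hkl
        by_cases hk : k = a
        · right
          have hl : l ≠ a := by
            rintro rfl
            subst hk
            exact hkl (hrefl _)
          simp [hl]
        · left
          simp [hk]
      · intro k hk
        have hk : k ≠ a := hk
        simp [hk]
    have hne : Nonempty (X comp {a}) := ⟨⟨_, hx⟩⟩
    have hss : Subsingleton (X comp {a}) := by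
      refine ⟨fun x y => Subtype.ext ?_⟩
      have key : ∀ z ∈ X comp {a}, z = Pi.single a 1 := by
        rintro z ⟨-, h2, -, h4⟩
        have h5 : z a = 1 := by
          rw [← h2]
          symm
          apply Finset.sum_eq_single a
          · intro b _ hb
            exact h4 b hb
          · simp
        funext k
        by_cases hk : k = a
        · subst hk; simp [h5]
        · rw [h4 k hk]; simp [hk]
      rw [key _ x.2, key _ y.2]
    infer_instance
  | step a b Q hb hab h hQ ih =>
    have hmono : ∀ x ∈ X comp (Q \ {a}), x ∈ X comp Q := by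
      rintro x ⟨h1, h2, h3, h4⟩
      exact ⟨h1, h2, h3, fun k hk => h4 k (fun hk' => hk hk'.1)⟩
    have hza : ∀ x ∈ X comp (Q \ {a}), x a = 0 := by
      rintro x ⟨h1, h2, h3, h4⟩
      exact h4 a (by simp)
    refine contractible_of_straight (S := X comp Q) (T := X comp (Q \ {a}))
      (fun x => x + (x a) • (Pi.single b 1 - Pi.single a 1)) id ?_ continuousOn_id ?_ ?_ ?_ ?_ ih
    · apply Continuous.continuousOn
      exact continuous_id.add ((continuous_apply a).smul continuous_const)
    · -- maps into T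
      intro x hx
      have h1 := push_mem hrefl hsymm hb hab h hx (s := 1) zero_le_one le_rfl
      rw [one_mul] at h1
      obtain ⟨g1, g2, g3, g4⟩ := h1
      refine ⟨g1, g2, g3, fun k hk => ?_⟩
      by_cases hka : k = a
      · subst hka
        simp [hab]
      · exact g4 k (fun hk' => hk ⟨hk', hka⟩)
    · intro x hx; exact hmono x hx
    · intro x hx t ht0 ht1
      have h1 := push_mem hrefl hsymm hb hab h hx (s := 1 - t) (by linarith) (by linarith)
      have h2 : (1 - t) • id (x + (x a) • (Pi.single b 1 - Pi.single a 1 : Fin K → ℝ)) + t • x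
          = x + ((1 - t) * x a) • (Pi.single b 1 - Pi.single a 1 : Fin K → ℝ) := by
        funext k
        simp only [id, Pi.add_apply, Pi.smul_apply, smul_eq_mul]
        ring
      rw [h2]
      exact h1
    · intro x hx t ht0 ht1
      have h2 : (1 - t) • (id x + (id x a) • (Pi.single b 1 - Pi.single a 1 : Fin K → ℝ)) + t • x
          = x := by
        have h0 : (id x : Fin K → ℝ) a = 0 := hza x hx
        rw [h0]
        funext k
        simp only [id, Pi.add_apply, Pi.smul_apply, smul_eq_mul]
        ring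
      rw [h2]
      exact hx

theorem exists_gt {comp : Fin K → Fin K → Prop} {Q : Set (Fin K)} {x : Fin K → ℝ}
    (hx : x ∈ X comp Q) : ∃ k ∈ Q, 1 / ((K : ℝ) + 1) < x k := by
  obtain ⟨h1, h2, h3, h4⟩ := hx
  by_contra hcon
  push Not at hcon
  have hpos : (0 : ℝ) < 1 / ((K : ℝ) + 1) := by positivity
  have hle : ∀ k, x k ≤ 1 / ((K : ℝ) + 1) := by
    intro k
    by_cases hk : k ∈ Q
    · exact hcon k hk
    · rw [h4 k hk]; exact hpos.le
  have hsum : ∑ k, x k ≤ ∑ _k : Fin K, 1 / ((K : ℝ) + 1) := Finset.sum_le_sum fun k _ => hle k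
  rw [h2] at hsum
  simp only [Finset.sum_const, Finset.card_univ, Fintype.card_fin, nsmul_eq_mul] at hsum
  have hK : (0 : ℝ) < (K : ℝ) + 1 := by positivity
  rw [mul_one_div, le_div_iff₀ hK] at hsum
  linarith

theorem convex_neg {a b t : ℝ} (ha : a < 0) (hb : b < 0) (h0 : 0 ≤ t) (h1 : t ≤ 1) :
    (1 - t) * a + t * b < 0 := by
  rcases lt_or_eq_of_le h1 with h | h
  · have h2 : (1 - t) * a < 0 := mul_neg_of_pos_of_neg (by linarith) ha
    have h3 : t * b ≤ 0 := mul_nonpos_of_nonneg_of_nonpos h0 hb.le
    linarith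
  · subst h; simpa using hb

theorem convex_pos {a b t : ℝ} (ha : 0 < a) (hb : 0 < b) (h0 : 0 ≤ t) (h1 : t ≤ 1) :
    0 < (1 - t) * a + t * b := by
  have := convex_neg (a := -a) (b := -b) (by linarith) (by linarith) h0 h1
  nlinarith

open Classical in
/-- positive part on `Q`. -/
noncomputable def pp (Q : Set (Fin K)) (y : Fin K → ℝ) : Fin K → ℝ :=
  fun k => if k ∈ Q then max (y k) 0 else 0

theorem pp_nonneg (Q : Set (Fin K)) (y : Fin K → ℝ) (k : Fin K) : 0 ≤ pp Q y k := by
  unfold pp; split_ifs
  · exact le_max_right _ _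
  · exact le_rfl

theorem pp_zero {Q : Set (Fin K)} {y : Fin K → ℝ} {k : Fin K} (h : y k ≤ 0) : pp Q y k = 0 := by
  unfold pp; split_ifs
  · exact max_eq_right h
  · rfl

theorem pp_notMem {Q : Set (Fin K)} {y : Fin K → ℝ} {k : Fin K} (h : k ∉ Q) :
    pp Q y k = 0 := by
  unfold pp; rw [if_neg h]

theorem pp_mem {Q : Set (Fin K)} {y : Fin K → ℝ} {k : Fin K} (h : k ∈ Q) :
    pp Q y k = max (y k) 0 := by
  unfold pp; rw [if_pos h]

theorem continuous_pp (Q : Set (Fin K)) : Continuous (pp Q) := by
  refine continuous_pi fun k => ?_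
  unfold pp
  by_cases hk : k ∈ Q
  · simp only [hk, if_true]
    exact (continuous_apply k).max continuous_const
  · simp only [hk, if_false]
    exact continuous_const

theorem sum_pp_pos {Q : Set (Fin K)} {y : Fin K → ℝ} (h : ∃ k ∈ Q, 0 < y k) :
    0 < ∑ k, pp Q y k := by
  obtain ⟨k, hk, hy⟩ := h
  refine Finset.sum_pos' (fun k _ => pp_nonneg Q y k) ⟨k, Finset.mem_univ _, ?_⟩
  rw [pp_mem hk]
  exact lt_max_of_lt_left hy

/-- The open thickening is homotopy equivalent to the clique complex. -/
theorem open_contractible {comp : Fin K → Fin K → Prop} {Q : Set (Fin K)}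
    (h : ContractibleSpace (X comp Q)) : ContractibleSpace (V comp Q) := by
  classical
  have hδ : (0 : ℝ) < 1 / ((K : ℝ) + 1) := by positivity
  set δ : ℝ := 1 / ((K : ℝ) + 1) with hδdef
  have hf : ∀ y ∈ V comp Q, (∑ k, pp Q y k)⁻¹ • pp Q y ∈ X comp Q := by
    rintro y ⟨h1, h2⟩
    have hs := sum_pp_pos h2
    refine ⟨fun k => ?_, ?_, fun k l hkl => ?_, fun k hk => ?_⟩
    · simp only [Pi.smul_apply, smul_eq_mul]
      exact mul_nonneg (inv_nonneg.2 hs.le) (pp_nonneg Q y k)
    · simp only [Pi.smul_apply, smul_eq_mul, ← Finset.mul_sum]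
      exact inv_mul_cancel₀ hs.ne'
    · simp only [Pi.smul_apply, smul_eq_mul]
      rcases h1 k l hkl with h | h
      · left; rw [pp_zero h.le, mul_zero]
      · right; rw [pp_zero h.le, mul_zero]
    · simp only [Pi.smul_apply, smul_eq_mul]
      rw [pp_notMem hk, mul_zero]
  have hg : ∀ x ∈ X comp Q, x - (fun _ => δ) ∈ V comp Q := by
    rintro x hx
    obtain ⟨k, hk, hxk⟩ := exists_gt hx
    obtain ⟨h1, h2, h3, h4⟩ := hx
    refine ⟨fun k l hkl => ?_, k, hk, ?_⟩
    · rcases h3 k l hkl with h | h
      · left; simp only [Pi.sub_apply, h]; linarith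
      · right; simp only [Pi.sub_apply, h]; linarith
    · simp only [Pi.sub_apply]; linarith
  refine contractible_of_straight (S := V comp Q) (T := X comp Q)
    (fun y => (∑ k, pp Q y k)⁻¹ • pp Q y) (fun x => x - (fun _ => δ)) ?_ ?_ hf hg ?_ ?_ h
  · have hc1 : ContinuousOn (fun y : Fin K → ℝ => (∑ k, pp Q y k)⁻¹) (V comp Q) := by
      refine ContinuousOn.inv₀ ?_ ?_
      · exact (continuous_finsetSum _ fun k _ =>
          (continuous_apply k).comp (continuous_pp Q)).continuousOn
      · rintro y ⟨-, h2⟩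
        exact (sum_pp_pos h2).ne'
    exact hc1.smul (continuous_pp Q).continuousOn
  · exact (continuous_id.sub continuous_const).continuousOn
  · intro y hy t ht0 ht1
    have hfy := hf y hy
    obtain ⟨k0, hk0, hlt⟩ := exists_gt hfy
    obtain ⟨h1, h2⟩ := hy
    have hs := sum_pp_pos h2
    refine ⟨fun k l hkl => ?_, k0, hk0, ?_⟩
    · simp only [Pi.add_apply, Pi.smul_apply, Pi.sub_apply, smul_eq_mul]
      rcases h1 k l hkl with h | h
      · left
        apply convex_neg _ h ht0 ht1
        rw [pp_zero h.le]; linarith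
      · right
        apply convex_neg _ h ht0 ht1
        rw [pp_zero h.le]; linarith
    · simp only [Pi.add_apply, Pi.smul_apply, Pi.sub_apply, smul_eq_mul] at hlt ⊢
      apply convex_pos _ _ ht0 ht1
      · linarith
      · by_contra hcon
        push Not at hcon
        rw [pp_zero hcon, mul_zero] at hlt
        linarith
  · intro x hx t ht0 ht1
    have h5 := hf _ (hg x hx)
    obtain ⟨h1, h2, h3, h4⟩ := hx
    obtain ⟨g1, g2, g3, g4⟩ := h5
    refine ⟨fun k => ?_, ?_, fun k l hkl => ?_, fun k hk => ?_⟩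
    · simp only [Pi.add_apply, Pi.smul_apply, smul_eq_mul] at g1 ⊢
      exact add_nonneg (mul_nonneg (by linarith) (g1 k)) (mul_nonneg ht0 (h1 k))
    · have : ∑ k, ((1 - t) • ((∑ k, pp Q (x - fun _ => δ) k)⁻¹ • pp Q (x - fun _ => δ))
          + t • x) k = (1 - t) * ∑ k, ((∑ k, pp Q (x - fun _ => δ) k)⁻¹ •
            pp Q (x - fun _ => δ)) k + t * ∑ k, x k := by
        rw [Finset.mul_sum, Finset.mul_sum, ← Finset.sum_add_distrib]
        rfl
      rw [this, g2, h2]
      ring
    · simp only [Pi.add_apply, Pi.smul_apply, smul_eq_mul]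
      rcases h3 k l hkl with h | h
      · left
        rw [pp_zero (by simp only [Pi.sub_apply, h]; linarith), h]; ring
      · right
        rw [pp_zero (by simp only [Pi.sub_apply, h]; linarith), h]; ring
    · simp only [Pi.add_apply, Pi.smul_apply, smul_eq_mul]
      rw [pp_notMem hk, h4 k hk]; ring

end Pool.Agent.helper59.Dism
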