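import Pool.Agent.helper23.HB.Stmts

open MeasureTheory ProbabilityTheory Set Filter Topology
open scoped ENNReal NNReal

namespace Pool.Agent.helper59.HB

open Pool.Agent.helper23.HB

theorem bmp_root {Ω : Type} [MeasurableSpace Ω] {P : Measure Ω} {B : Ω → Lab → Pth}
    (h : Noise P B) : BMp P (fun ω => (B ω [] : ℝ → ℝ)) where
  cont := fun ω => (B ω []).2.1
  meas := fun t => (measurable_pi_apply t).comp (measurable_subtype_coe.comp (h.meas []))
  bm := h.bm []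

theorem mUL (hCOV : St_COV1) (hSYS : St_SYS) (hMSYS : St_MSYS) (hOSC : St_OSC) (hSUMY : St_SUMY)
    (hCNT : St_CNT) : St_UL := by
  intro Ω _ P _ β lam hβ hlam S hle hlt
  obtain ⟨hS1, hS2, hS3, hS4, hS5, hS6, hS7, hS8, hS9⟩ := hSYS Ω P β lam S
  obtain ⟨hcnt, hNE⟩ := hCNT Ω P β S.T hβ S.life
  have hosc := (hMSYS Ω P β lam S).2.2.2.2.2
  set c : ℝ := lam + 1 / 2 with hc
  have hc0 : 0 < c := by rw [hc]; linarith
  set q : ℝ := √(c ^ 2 - 2 * β) with hq
  have hq0 : 0 ≤ q := Real.sqrt_nonneg _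
  have hle' : 2 * β ≤ c ^ 2 := by
    have : (1 + 2 * lam) ^ 2 / 8 = c ^ 2 / 2 := by rw [hc]; ring
    rw [this] at hle
    linarith
  have hq2 : q ^ 2 = c ^ 2 - 2 * β := Real.sq_sqrt (by linarith)
  have hδ : (1 + 2 * lam - √((1 + 2 * lam) ^ 2 - 8 * β)) / 2 = c - q := by
    have h1 : (1 + 2 * lam) ^ 2 - 8 * β = 2 ^ 2 * (c ^ 2 - 2 * β) := by rw [hc]; ring
    rw [h1, Real.sqrt_mul (by norm_num), Real.sqrt_sq (by norm_num), ← hq, hc]
    ring
  rw [hδ] at hlt ⊢
  have hqc : q < c := by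
    rw [hq, Real.sqrt_lt' hc0]
    linarith
  have key : ∀ s : ℝ, c - q < s → s ≤ 1 → (β < c * s - s ^ 2 / 2 ∨ (β = c ^ 2 / 2 ∧ c < s)) →
      ∀ᵐ ω ∂P, dimH (LSet (S.T ω) (S.Z ω)) ≤ ENNReal.ofReal s := by
    intro s hs1 hs2 hs3
    have hs0 : 0 < s := by linarith
    obtain ⟨C, hC, hCb⟩ := hOSC s hs0 hs2
    have hsum := hSUMY Ω P (fun ω => (S.B ω [] : ℝ → ℝ)) (bmp_root S.noiseB) β c s hβ hc0 hs0 hs3
    set I : ℕ → ℝ≥0∞ := fun m => ∫⁻ ω, ENNReal.ofReal (Real.exp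
      (-s * (Yk c (blk 1 (S.B ω [])) m - (blk 1 (S.B ω []) m).2))) ∂P with hI
    have hT : Measurable (fun ω => S.T ω) := measurable_pi_lambda _ fun u => S.life.meas u
    have hind : ∀ (m : ℕ) (u : Lab), Measurable (fun τ : Lab → ℝ =>
        ind (u ∈ Alive τ ((m : ℝ) + 1))) := fun m u => measurable_ind (measurableSet_Alive_left u _)
    have hmeas : ∀ (m : ℕ) (u : Lab), Measurable (fun ω =>
        ind (u ∈ Alive (S.T ω) ((m : ℝ) + 1)) * ENNReal.ofReal (S.osc ω u m) ^ s) := by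
      intro m u
      exact ((hind m u).comp hT).mul ((hosc u m).ennreal_ofReal.pow_const s)
    have hterm : ∀ (m : ℕ) (u : Lab),
        ∫⁻ ω, ind (u ∈ Alive (S.T ω) ((m : ℝ) + 1)) * ENNReal.ofReal (S.osc ω u m) ^ s ∂P ≤
          C * (∫⁻ ω, ind (u ∈ Alive (S.T ω) ((m : ℝ) + 1)) ∂P) * I m := by
      intro m u
      have := hCb Ω P β lam hlam S u m (fun τ => ind (u ∈ Alive τ ((m : ℝ) + 1))) (fun _ => 1)
        (hind m u) measurable_const
      simp only [mul_one, one_mul] at this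
      exact this
    have hm : ∀ m : ℕ, ∑' u : Lab,
        ∫⁻ ω, ind (u ∈ Alive (S.T ω) ((m : ℝ) + 1)) * ENNReal.ofReal (S.osc ω u m) ^ s ∂P ≤
          C * ENNReal.ofReal (Real.exp β) * (ENNReal.ofReal (Real.exp (β * m)) * I m) := by
      intro m
      calc _ ≤ ∑' u : Lab, C * (∫⁻ ω, ind (u ∈ Alive (S.T ω) ((m : ℝ) + 1)) ∂P) * I m :=
            ENNReal.tsum_le_tsum fun u => hterm m u
        _ = C * (∑' u : Lab, ∫⁻ ω, ind (u ∈ Alive (S.T ω) ((m : ℝ) + 1)) ∂P) * I m := by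
            rw [ENNReal.tsum_mul_right, ENNReal.tsum_mul_left]
        _ = C * (∫⁻ ω, cnt (S.T ω) ((m : ℝ) + 1) ∂P) * I m := by
            unfold cnt
            rw [lintegral_tsum]
            intro u
            exact ((hind m u).comp hT).aemeasurable
        _ = C * ENNReal.ofReal (Real.exp β) * (ENNReal.ofReal (Real.exp (β * m)) * I m) := by
            rw [hcnt _ (by positivity), show β * ((m : ℝ) + 1) = β + β * m by ring, Real.exp_add,
              ENNReal.ofReal_mul (Real.exp_pos _).le]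
            ring
    have hfin : ∫⁻ ω, ∑' m : ℕ, ∑' u : Lab,
        ind (u ∈ Alive (S.T ω) ((m : ℝ) + 1)) * ENNReal.ofReal (S.osc ω u m) ^ s ∂P ≠ ∞ := by
      rw [lintegral_tsum (fun m => (Measurable.tsum fun u => hmeas m u).aemeasurable)]
      simp_rw [lintegral_tsum (fun u => (hmeas _ u).aemeasurable)]
      refine ne_top_of_le_ne_top ?_ (ENNReal.tsum_le_tsum hm)
      rw [ENNReal.tsum_mul_left]
      exact ENNReal.mul_ne_top (ENNReal.mul_ne_top hC ENNReal.ofReal_ne_top) hsum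
    have hae := ae_lt_top (Measurable.tsum fun m => Measurable.tsum fun u =>
      hmeas m u) hfin
    filter_upwards [hae, hNE] with ω hω hNEω
    refine hCOV (S.T ω) (S.Z ω) (S.D ω) (fun u m => ENNReal.ofReal (S.osc ω u m)) s hNEω hs0 hs2
      (hS3 ω) (fun u t ht => ⟨hS6 ω u t, (hS7 ω u t ht).2.1⟩) (fun u m r hr0 hr1 => ?_) hω.ne
    rw [← ofReal_norm]
    exact ENNReal.ofReal_le_ofReal (hS8 ω u m r hr0 hr1)
  -- a sequence `s_n ↓ c - q`
  obtain ⟨ε, hε0, hε⟩ : ∃ ε : ℝ, 0 < ε ∧ ∀ s, c - q < s → s < c - q + ε →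
      s ≤ 1 ∧ (β < c * s - s ^ 2 / 2 ∨ (β = c ^ 2 / 2 ∧ c < s)) := by
    rcases hq0.eq_or_lt with h0 | hpos
    · refine ⟨1 - (c - q), by linarith, fun s h1 h2 => ⟨by linarith, Or.inr ⟨?_, ?_⟩⟩⟩
      · rw [← h0] at hq2
        nlinarith
      · rw [← h0] at h1
        linarith
    · refine ⟨min (1 - (c - q)) q, lt_min (by linarith) hpos, fun s h1 h2 => ⟨?_, Or.inl ?_⟩⟩
      · have := min_le_left (1 - (c - q)) q
        linarith
      · have := min_le_right (1 - (c - q)) q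
        have h3 : c - s < q := by linarith
        have h4 : -q < c - s := by linarith
        have h5 : (c - s) ^ 2 < q ^ 2 := sq_lt_sq' h4 h3
        nlinarith
  have hall : ∀ᵐ ω ∂P, ∀ n : ℕ, dimH (LSet (S.T ω) (S.Z ω)) ≤
      ENNReal.ofReal (c - q + ε / (n + 2)) := by
    rw [ae_all_iff]
    intro n
    have hn : 0 < ε / ((n : ℝ) + 2) := by positivity
    have hn' : ε / ((n : ℝ) + 2) < ε := by
      rw [div_lt_iff₀ (by positivity)]
      have : (0 : ℝ) ≤ n := Nat.cast_nonneg n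
      nlinarith
    obtain ⟨h1, h2⟩ := hε (c - q + ε / (n + 2)) (by linarith) (by linarith)
    exact key _ (by linarith) h1 h2
  filter_upwards [hall] with ω hω
  have hlim : Tendsto (fun n : ℕ => ENNReal.ofReal (c - q + ε / ((n : ℝ) + 2))) atTop
      (𝓝 (ENNReal.ofReal (c - q))) := by
    refine (ENNReal.continuous_ofReal.tendsto _).comp ?_
    have h1 : Tendsto (fun n : ℕ => (n : ℝ) + 2) atTop atTop :=
      tendsto_atTop_add_const_right _ _ tendsto_natCast_atTop_atTop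
    have h2 := (h1.const_div_atTop ε).const_add (c - q)
    simpa using h2
  exact ge_of_tendsto' hlim hω

end Pool.Agent.helper59.HB
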