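import Pool.Agent.helper59.Count

/-! Asymptotic upper bound for the number of maximal antichains. -/

namespace Pool.Agent.helper59

open Finset Filter Topology

/-- `⌊(n/16)^{1/4}⌋` -/
def kk (n : ℕ) : ℕ := Nat.sqrt (Nat.sqrt (n / 16))

theorem kk_ge {n K : ℕ} (h : 16 * K ^ 4 ≤ n) : K ≤ kk n := by
  unfold kk
  rw [Nat.le_sqrt, Nat.le_sqrt, Nat.le_div_iff_mul_le (by norm_num)]
  calc K * K * (K * K) * 16 = 16 * K ^ 4 := by ring
    _ ≤ n := h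

theorem kk_pow (n : ℕ) : 16 * (kk n) ^ 4 ≤ n := by
  have h1 : kk n * kk n ≤ Nat.sqrt (n / 16) := Nat.sqrt_le _
  have h2 : Nat.sqrt (n / 16) * Nat.sqrt (n / 16) ≤ n / 16 := Nat.sqrt_le _
  have h3 : (kk n * kk n) * (kk n * kk n) ≤ n / 16 := (Nat.mul_le_mul h1 h1).trans h2
  have h4 : (kk n * kk n) * (kk n * kk n) = (kk n) ^ 4 := by ring
  omega

theorem lt_kk (n : ℕ) (h : 1 ≤ kk n) : n < 256 * (kk n) ^ 4 := by
  have h1 : Nat.sqrt (n / 16) < (kk n + 1) * (kk n + 1) := Nat.lt_succ_sqrt _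
  have h2 : n / 16 < (Nat.sqrt (n / 16) + 1) * (Nat.sqrt (n / 16) + 1) := Nat.lt_succ_sqrt _
  have h3 : (Nat.sqrt (n / 16) + 1) * (Nat.sqrt (n / 16) + 1) ≤
      ((kk n + 1) * (kk n + 1)) * ((kk n + 1) * (kk n + 1)) := Nat.mul_le_mul h1 h1
  have h4 : (kk n + 1) * (kk n + 1) ≤ (2 * kk n) * (2 * kk n) :=
    Nat.mul_le_mul (by omega) (by omega)
  have h5 := Nat.mul_le_mul h4 h4
  have h6 : (2 * kk n) * (2 * kk n) * ((2 * kk n) * (2 * kk n)) = 16 * (kk n) ^ 4 := by ring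
  omega

theorem ma_upper (δ : ℝ) (hδ : 0 < δ) :
    ∀ᶠ n : ℕ in atTop, Real.logb 2 (ma n) ≤ (1 / 2 + δ) * (mid n : ℝ) := by
  set D : ℝ := δ / 4 with hD
  have hD0 : 0 < D := by positivity
  -- the constant kB
  obtain ⟨kB, hkB1, hkB⟩ : ∃ kB : ℕ, 1 ≤ kB ∧ 6 / D ≤ kB := by
    refine ⟨max 1 ⌈6 / D⌉₊, le_max_left _ _, ?_⟩
    exact (Nat.le_ceil _).trans (by exact_mod_cast le_max_right _ _)
  set η : ℝ := min D (1 / 2) with hηdef
  have hη0 : 0 < η := lt_min hD0 (by norm_num)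
  have hηD : η ≤ D := min_le_left _ _
  have hηh : η ≤ 1 / 2 := min_le_right _ _
  obtain ⟨r, hr4, hr⟩ : ∃ r : ℕ, 4 ≤ r ∧ 8 * (kB : ℝ) ^ 4 / η ≤ r := by
    refine ⟨max 4 ⌈8 * (kB : ℝ) ^ 4 / η⌉₊, le_max_left _ _, ?_⟩
    exact (Nat.le_ceil _).trans (by exact_mod_cast le_max_right _ _)
  have hrpos : (0 : ℝ) < r := by exact_mod_cast (by omega : 0 < r)
  obtain ⟨K, hK1, hK⟩ : ∃ K : ℕ, 1 ≤ K ∧ 96 / D ≤ K := by
    refine ⟨max 1 ⌈96 / D⌉₊, le_max_left _ _, ?_⟩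
    exact (Nat.le_ceil _).trans (by exact_mod_cast le_max_right _ _)
  obtain ⟨N2, hN2⟩ : ∃ N2 : ℕ, (2 * (r : ℝ) ^ 2 / D) ^ 2 ≤ N2 := ⟨_, Nat.le_ceil _⟩
  filter_upwards [eventually_ge_atTop (16 * K ^ 4), eventually_ge_atTop N2,
    eventually_ge_atTop 16] with n hn1 hn2 hn3
  have hkA : K ≤ kk n := kk_ge hn1
  have hkA1 : 1 ≤ kk n := hK1.trans hkA
  have hnr : n / r ≤ n / 4 := Nat.div_le_div_left hr4 (by norm_num)
  have hlo : 1 ≤ n / 2 - n / r := by omega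
  have hA : 2 * (kk n) ^ 4 ≤ n / 2 - n / r := by
    have := kk_pow n
    omega
  have hnpos : (0 : ℝ) < n := by exact_mod_cast (by omega : 0 < n)
  have hmid : (0 : ℝ) < (mid n : ℝ) := by exact_mod_cast mid_pos n
  have hη : ((kB ^ 4 : ℕ) : ℝ) * (((n / 2 + n / r : ℕ) : ℝ) - ((n / 2 - n / r : ℕ) : ℝ)) /
      (((n / 2 - n / r : ℕ) : ℝ) + 1) ≤ η := by
    have h1 : n / r ≤ n / 2 := by omega
    have h2 : ((n / 2 - n / r : ℕ) : ℝ) = ((n / 2 : ℕ) : ℝ) - ((n / r : ℕ) : ℝ) :=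
      Nat.cast_sub h1
    have h3 : ((n / r : ℕ) : ℝ) ≤ (n : ℝ) / r := Nat.cast_div_le
    have h4 : (n : ℝ) / 4 ≤ ((n / 2 - n / r : ℕ) : ℝ) + 1 := by
      have : n ≤ 4 * (n / 2 - n / r + 1) := by omega
      have h5 : (n : ℝ) ≤ 4 * (((n / 2 - n / r : ℕ) : ℝ) + 1) := by exact_mod_cast this
      linarith
    have h5 : (0 : ℝ) < ((n / 2 - n / r : ℕ) : ℝ) + 1 := by positivity
    rw [div_le_iff₀ h5]
    have h6 : (((n / 2 + n / r : ℕ) : ℝ) - ((n / 2 - n / r : ℕ) : ℝ)) = 2 * ((n / r : ℕ) : ℝ) := by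
      rw [h2]; push_cast; ring
    rw [h6]
    have h7 : 8 * (kB : ℝ) ^ 4 ≤ η * r := by
      rw [div_le_iff₀ hη0] at hr
      linarith
    calc ((kB ^ 4 : ℕ) : ℝ) * (2 * ((n / r : ℕ) : ℝ)) ≤ ((kB ^ 4 : ℕ) : ℝ) * (2 * ((n : ℝ) / r)) := by
          gcongr
      _ = (8 * (kB : ℝ) ^ 4) * ((n : ℝ) / (4 * r)) := by push_cast; field_simp; ring
      _ ≤ (η * r) * ((n : ℝ) / (4 * r)) := mul_le_mul_of_nonneg_right h7 (by positivity)
      _ = η * ((n : ℝ) / 4) := by field_simp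
      _ ≤ η * (((n / 2 - n / r : ℕ) : ℝ) + 1) := mul_le_mul_of_nonneg_left h4 hη0.le
  have hmain := logb_ma_le n r (kk n) kB η hkA1 hkB1 hlo hA (by linarith) hη
  have h2n := two_pow_le_mid n (by omega)
  have hsq : 0 < Real.sqrt n := Real.sqrt_pos.2 hnpos
  have hsqsq : Real.sqrt n * Real.sqrt n = n := Real.mul_self_sqrt hnpos.le
  -- cost 1
  have c1 : (((univ : Finset (Finset (Fin n))) \ LL n r).card : ℝ) ≤ D * mid n := by
    have h1 := card_outside n r (by omega)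
    have h3 : 2 * (r : ℝ) ^ 2 / D ≤ Real.sqrt n := by
      apply Real.le_sqrt_of_sq_le
      calc (2 * (r : ℝ) ^ 2 / D) ^ 2 ≤ N2 := hN2
        _ ≤ n := by exact_mod_cast hn2
    have h4 : 2 * (r : ℝ) ^ 2 ≤ D * Real.sqrt n := by
      rw [div_le_iff₀ hD0] at h3
      linarith
    have h5 : (0 : ℝ) < ((n : ℝ) / r) ^ 2 := by positivity
    rw [← mul_le_mul_iff_left₀ h5]
    calc _ ≤ (n : ℝ) * 2 ^ n := h1
      _ ≤ n * (2 * Real.sqrt n * mid n) := mul_le_mul_of_nonneg_left h2n hnpos.le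
      _ = (2 * (r : ℝ) ^ 2) * (mid n * (n * Real.sqrt n / r ^ 2)) := by field_simp
      _ ≤ (D * Real.sqrt n) * (mid n * (n * Real.sqrt n / r ^ 2)) :=
          mul_le_mul_of_nonneg_right h4 (by positivity)
      _ = D * mid n * (n * (Real.sqrt n * Real.sqrt n) / r ^ 2) := by ring
      _ = D * mid n * ((n : ℝ) / r) ^ 2 := by rw [hsqsq]; ring
  -- cost 2
  have hk0 : (0 : ℝ) < (kk n : ℝ) := by exact_mod_cast hkA1
  have c2 : (2 : ℝ) ^ n * (3 / (kk n : ℝ) ^ 3) ≤ D * mid n := by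
    have h1 : Real.sqrt n ≤ 16 * (kk n : ℝ) ^ 2 := by
      rw [Real.sqrt_le_left (by positivity)]
      have h3 : n ≤ 256 * (kk n) ^ 4 := (lt_kk n hkA1).le
      have h4 : (n : ℝ) ≤ 256 * (kk n : ℝ) ^ 4 := by exact_mod_cast h3
      calc (n : ℝ) ≤ 256 * (kk n : ℝ) ^ 4 := h4
        _ = (16 * (kk n : ℝ) ^ 2) ^ 2 := by ring
    have h3 : 96 ≤ D * (kk n : ℝ) := by
      have h4 : 96 / D ≤ (kk n : ℝ) := hK.trans (by exact_mod_cast hkA)
      rw [div_le_iff₀ hD0] at h4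
      linarith
    calc (2 : ℝ) ^ n * (3 / (kk n : ℝ) ^ 3)
        ≤ (2 * Real.sqrt n * mid n) * (3 / (kk n : ℝ) ^ 3) :=
          mul_le_mul_of_nonneg_right h2n (by positivity)
      _ ≤ (2 * (16 * (kk n : ℝ) ^ 2) * mid n) * (3 / (kk n : ℝ) ^ 3) := by gcongr
      _ = 96 * (mid n / (kk n : ℝ)) := by field_simp; ring
      _ ≤ (D * (kk n : ℝ)) * (mid n / (kk n : ℝ)) :=
          mul_le_mul_of_nonneg_right h3 (by positivity)
      _ = D * mid n := by field_simp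
  -- cost 3
  have c3 : ((2 * mid n : ℕ) : ℝ) * (3 / (kB : ℝ) ^ 3) ≤ D * mid n := by
    have hkB0 : (0 : ℝ) < (kB : ℝ) := by exact_mod_cast hkB1
    have hkB1' : (1 : ℝ) ≤ (kB : ℝ) := by exact_mod_cast hkB1
    have h3 : 6 ≤ D * (kB : ℝ) := by
      rw [div_le_iff₀ hD0] at hkB
      linarith
    have h4 : 6 / (kB : ℝ) ^ 3 ≤ D := by
      rw [div_le_iff₀ (by positivity)]
      have h5 : (kB : ℝ) ≤ (kB : ℝ) ^ 3 := le_self_pow₀ hkB1' (by norm_num)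
      calc (6 : ℝ) ≤ D * (kB : ℝ) := h3
        _ ≤ D * (kB : ℝ) ^ 3 := mul_le_mul_of_nonneg_left h5 hD0.le
    calc ((2 * mid n : ℕ) : ℝ) * (3 / (kB : ℝ) ^ 3) = (6 / (kB : ℝ) ^ 3) * mid n := by
          push_cast; ring
      _ ≤ D * mid n := mul_le_mul_of_nonneg_right h4 hmid.le
  -- cost 4
  have c4 : (mid n : ℝ) / (2 * (1 - η)) ≤ (1 / 2 + D) * mid n := by
    have h1 : 0 < 2 * (1 - η) := by linarith
    rw [div_le_iff₀ h1]
    have h2 : 1 ≤ (1 / 2 + D) * (2 * (1 - η)) := by nlinarith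
    calc (mid n : ℝ) = 1 * mid n := by ring
      _ ≤ ((1 / 2 + D) * (2 * (1 - η))) * mid n := mul_le_mul_of_nonneg_right h2 hmid.le
      _ = _ := by ring
  calc Real.logb 2 (ma n) ≤ _ := hmain
    _ ≤ D * mid n + ((1 / 2 + D) * mid n + D * mid n + D * mid n) := by linarith
    _ = (1 / 2 + δ) * (mid n : ℝ) := by rw [hD]; ring

end Pool.Agent.helper59
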