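import Pool.Agent.helper59.Lym

/-! The number of maximal antichains of the Boolean lattice is `2^((1/2+o(1)) C(n,n/2))`
(upper bound). -/

namespace Pool.Agent.helper59

open Finset Filter Topology

/-- number of maximal antichains of the power set of `Fin n` -/
noncomputable def ma (n : ℕ) : ℕ := (MIS cmp (univ : Finset (Finset (Fin n)))).card

/-- the middle binomial coefficient -/
def mid (n : ℕ) : ℕ := n.choose (n / 2)

theorem mid_pos (n : ℕ) : 0 < mid n := Nat.choose_pos (Nat.div_le_self _ _)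

theorem sixteen_pow_le (k : ℕ) (hk : 1 ≤ k) : 16 ^ k ≤ 4 * k * (Nat.centralBinom k) ^ 2 := by
  induction k, hk using Nat.le_induction with
  | base => decide
  | succ k hk ih =>
    have h1 := Nat.succ_mul_centralBinom_succ k
    have h2 : (k + 1) * (4 * (k + 1) * (Nat.centralBinom (k + 1)) ^ 2) =
        16 * (2 * k + 1) ^ 2 * (Nat.centralBinom k) ^ 2 := by
      calc (k + 1) * (4 * (k + 1) * (Nat.centralBinom (k + 1)) ^ 2)
          = 4 * ((k + 1) * Nat.centralBinom (k + 1)) ^ 2 := by ring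
        _ = 4 * (2 * (2 * k + 1) * Nat.centralBinom k) ^ 2 := by rw [h1]
        _ = _ := by ring
    have h3 : (k + 1) * 16 ^ (k + 1) ≤ (k + 1) * (4 * (k + 1) * (Nat.centralBinom (k + 1)) ^ 2) := by
      rw [h2]
      calc (k + 1) * 16 ^ (k + 1) = 16 * (k + 1) * 16 ^ k := by ring
        _ ≤ 16 * (k + 1) * (4 * k * (Nat.centralBinom k) ^ 2) := Nat.mul_le_mul_left _ ih
        _ = 16 * (4 * k * (k + 1)) * (Nat.centralBinom k) ^ 2 := by ring
        _ ≤ 16 * (2 * k + 1) ^ 2 * (Nat.centralBinom k) ^ 2 := by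
            apply Nat.mul_le_mul_right
            apply Nat.mul_le_mul_left
            nlinarith
    exact Nat.le_of_mul_le_mul_left h3 (by omega)

theorem four_pow_le_sqrt (k : ℕ) (hk : 1 ≤ k) :
    (4 : ℝ) ^ k ≤ 2 * Real.sqrt k * (Nat.centralBinom k : ℝ) := by
  have h1 : ((16 : ℝ)) ^ k ≤ 4 * k * (Nat.centralBinom k : ℝ) ^ 2 := by
    exact_mod_cast sixteen_pow_le k hk
  have h2 : (0 : ℝ) ≤ 2 * Real.sqrt k * (Nat.centralBinom k : ℝ) := by positivity
  apply le_of_sq_le_sq _ h2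
  have h3 : Real.sqrt k ^ 2 = k := Real.sq_sqrt (Nat.cast_nonneg k)
  calc ((4 : ℝ) ^ k) ^ 2 = 16 ^ k := by rw [← pow_mul, mul_comm, pow_mul]; norm_num
    _ ≤ 4 * k * (Nat.centralBinom k : ℝ) ^ 2 := h1
    _ = 4 * (Real.sqrt k ^ 2) * (Nat.centralBinom k : ℝ) ^ 2 := by rw [h3]
    _ = (2 * Real.sqrt k * (Nat.centralBinom k : ℝ)) ^ 2 := by ring

theorem two_pow_le_mid (n : ℕ) (hn : 1 ≤ n) : (2 : ℝ) ^ n ≤ 2 * Real.sqrt n * (mid n : ℝ) := by
  rcases Nat.even_or_odd' n with ⟨k, rfl | rfl⟩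
  · have hk : 1 ≤ k := by omega
    have h1 := four_pow_le_sqrt k hk
    have h2 : mid (2 * k) = Nat.centralBinom k := by
      unfold mid Nat.centralBinom
      rw [Nat.mul_div_cancel_left k (by norm_num)]
    rw [h2, pow_mul]
    have h3 : Real.sqrt k ≤ Real.sqrt ((2 * k : ℕ) : ℝ) := by
      apply Real.sqrt_le_sqrt
      push_cast
      have : (0 : ℝ) ≤ k := Nat.cast_nonneg k
      linarith
    calc ((2 : ℝ) ^ 2) ^ k = 4 ^ k := by norm_num
      _ ≤ _ := h1
      _ ≤ _ := by gcongr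
  · have h1 := four_pow_le_sqrt (k + 1) (by omega)
    have h2 : Nat.centralBinom (k + 1) = 2 * mid (2 * k + 1) := by
      unfold mid Nat.centralBinom
      have e1 : (2 * k + 1) / 2 = k := by omega
      rw [e1]
      have e2 : 2 * (k + 1) = (2 * k + 1) + 1 := by ring
      rw [e2, Nat.choose_succ_succ' (2 * k + 1) k]
      have e3 : (2 * k + 1).choose (k + 1) = (2 * k + 1).choose k := by
        rw [← Nat.choose_symm_half]
      rw [e3]; ring
    rw [h2] at h1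
    have h3 : Real.sqrt ((k + 1 : ℕ) : ℝ) ≤ Real.sqrt ((2 * k + 1 : ℕ) : ℝ) := by
      apply Real.sqrt_le_sqrt
      push_cast
      have : (0 : ℝ) ≤ k := Nat.cast_nonneg k
      linarith
    have h4 : (0 : ℝ) ≤ (mid (2 * k + 1) : ℝ) := Nat.cast_nonneg _
    have h5 : (2 : ℝ) ^ (2 * k + 1) * 2 = 4 ^ (k + 1) := by
      rw [show (4 : ℝ) = 2 ^ 2 by norm_num, ← pow_mul]; ring
    have h6 : (2 : ℝ) ^ (2 * k + 1) * 2 ≤
        (2 * Real.sqrt ((k + 1 : ℕ) : ℝ) * (mid (2 * k + 1) : ℝ)) * 2 := by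
      rw [h5]
      calc (4 : ℝ) ^ (k + 1) ≤ _ := h1
        _ = _ := by push_cast; ring
    have h7 : (2 : ℝ) ^ (2 * k + 1) ≤
        2 * Real.sqrt ((k + 1 : ℕ) : ℝ) * (mid (2 * k + 1) : ℝ) := by linarith
    calc _ ≤ _ := h7
      _ ≤ _ := by gcongr

theorem variance {β : Type*} [DecidableEq β] (V : Finset β) :
    ∑ X ∈ V.powerset, (2 * (X.card : ℝ) - V.card) ^ 2 = (V.card : ℝ) * 2 ^ V.card := by
  induction V using Finset.induction_on with
  | empty => simp
  | insert a s ha ih =>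
    rw [sum_powerset_insert ha, card_insert_of_notMem ha]
    have h1 : ∑ X ∈ s.powerset, (2 * ((insert a X).card : ℝ) - ((s.card + 1 : ℕ) : ℝ)) ^ 2 =
        ∑ X ∈ s.powerset, ((2 * (X.card : ℝ) - s.card) ^ 2 + 2 * (2 * (X.card : ℝ) - s.card) + 1) := by
      apply sum_congr rfl
      intro X hX
      have haX : a ∉ X := fun h => ha (mem_powerset.1 hX h)
      rw [card_insert_of_notMem haX]
      push_cast
      ring
    have h2 : ∑ X ∈ s.powerset, (2 * (X.card : ℝ) - ((s.card + 1 : ℕ) : ℝ)) ^ 2 =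
        ∑ X ∈ s.powerset, ((2 * (X.card : ℝ) - s.card) ^ 2 - 2 * (2 * (X.card : ℝ) - s.card) + 1) := by
      apply sum_congr rfl
      intro X hX
      push_cast
      ring
    rw [h1, h2, ← sum_add_distrib]
    have h3 : ∀ X ∈ s.powerset,
        ((2 * (X.card : ℝ) - s.card) ^ 2 - 2 * (2 * (X.card : ℝ) - s.card) + 1) +
        ((2 * (X.card : ℝ) - s.card) ^ 2 + 2 * (2 * (X.card : ℝ) - s.card) + 1) =
        2 * (2 * (X.card : ℝ) - s.card) ^ 2 + 2 := by
      intro X _; ring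
    rw [sum_congr rfl h3, sum_add_distrib, ← mul_sum, ih, sum_const, card_powerset]
    push_cast
    ring

/-- the middle part of the Boolean lattice -/
def LL (n r : ℕ) : Finset (Finset (Fin n)) :=
  univ.filter (fun X => n / 2 - n / r ≤ X.card ∧ X.card ≤ n / 2 + n / r)

theorem mem_LL {n r : ℕ} {X : Finset (Fin n)} :
    X ∈ LL n r ↔ n / 2 - n / r ≤ X.card ∧ X.card ≤ n / 2 + n / r := by simp [LL]

theorem card_outside (n r : ℕ) (hr : 2 ≤ r) :
    (((univ : Finset (Finset (Fin n))) \ LL n r).card : ℝ) * ((n : ℝ) / r) ^ 2 ≤ n * 2 ^ n := by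
  have hv := variance (univ : Finset (Fin n))
  rw [card_univ, Fintype.card_fin, powerset_univ] at hv
  rw [← hv]
  have hrpos : (0 : ℝ) < r := by exact_mod_cast (by omega : 0 < r)
  calc (((univ : Finset (Finset (Fin n))) \ LL n r).card : ℝ) * ((n : ℝ) / r) ^ 2
      = ∑ X ∈ (univ : Finset (Finset (Fin n))) \ LL n r, ((n : ℝ) / r) ^ 2 := by
        rw [sum_const, nsmul_eq_mul]
    _ ≤ ∑ X ∈ (univ : Finset (Finset (Fin n))) \ LL n r, (2 * (X.card : ℝ) - n) ^ 2 := by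
        apply sum_le_sum
        intro X hX
        rw [Finset.mem_sdiff, mem_LL, not_and_or] at hX
        have hs : (n : ℝ) / r < (n / r : ℕ) + 1 := by
          rw [div_lt_iff₀ hrpos]
          have : n < (n / r + 1) * r := by
            have := Nat.lt_div_mul_add (a := n) (b := r) (by omega)
            nlinarith
          exact_mod_cast this
        have hs0 : (0 : ℝ) ≤ ((n / r : ℕ) : ℝ) := Nat.cast_nonneg _
        have hnr : n / r ≤ n / 2 := Nat.div_le_div_left hr (by norm_num)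
        have hn0 : (0 : ℝ) ≤ (n : ℝ) / r := by positivity
        have habs : (n : ℝ) / r ≤ |2 * (X.card : ℝ) - n| := by
          rcases hX.2 with h | h
          · have h1 : 2 * X.card + 2 * (n / r) + 2 ≤ n := by omega
            have h2 : 2 * (X.card : ℝ) + 2 * ((n / r : ℕ) : ℝ) + 2 ≤ n := by exact_mod_cast h1
            rw [abs_sub_comm]
            refine le_trans ?_ (le_abs_self _)
            linarith
          · have h1 : n + 2 * (n / r) + 1 ≤ 2 * X.card := by omega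
            have h2 : (n : ℝ) + 2 * ((n / r : ℕ) : ℝ) + 1 ≤ 2 * (X.card : ℝ) := by exact_mod_cast h1
            refine le_trans ?_ (le_abs_self _)
            linarith
        rw [← sq_abs (2 * (X.card : ℝ) - n)]
        exact pow_le_pow_left₀ hn0 habs 2
    _ ≤ ∑ X ∈ (univ : Finset (Finset (Fin n))), (2 * (X.card : ℝ) - n) ^ 2 :=
        sum_le_sum_of_subset_of_nonneg (subset_univ _) (fun _ _ _ => sq_nonneg _)

theorem cube_le_three_pow : ∀ k : ℕ, k ^ 3 ≤ 3 ^ k := by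
  intro k
  rcases Nat.lt_or_ge k 3 with h | h
  · interval_cases k <;> norm_num
  · induction k, h using Nat.le_induction with
    | base => norm_num
    | succ k hk ih =>
      rw [pow_succ 3 k]
      have : (k + 1) ^ 3 ≤ k ^ 3 * 3 := by nlinarith [sq_nonneg k, mul_le_mul hk hk (by norm_num) (by omega), pow_pos (show 0 < k by omega) 3, pow_pos (show 0 < k by omega) 2]
      exact this.trans (Nat.mul_le_mul_right 3 ih)

/-- the branching base for degree `k ^ 4` -/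
noncomputable def xb (k : ℕ) : ℝ := 1 + 2 / (k : ℝ) ^ 3

theorem xb_ge_one (k : ℕ) : 1 ≤ xb k := by
  unfold xb
  have : (0 : ℝ) ≤ 2 / (k : ℝ) ^ 3 := by positivity
  linarith

theorem xb_spec (k : ℕ) (hk : 1 ≤ k) : (xb k) ^ (k ^ 4) + 1 ≤ (xb k) ^ (k ^ 4 + 1) := by
  have hk0 : (0 : ℝ) < (k : ℝ) := by exact_mod_cast hk
  have hy : (0 : ℝ) ≤ 2 / (k : ℝ) ^ 3 := by positivity
  have h1 : (3 : ℝ) ≤ (xb k) ^ (k ^ 3) := by
    have := one_add_mul_le_pow (a := 2 / (k : ℝ) ^ 3) (by linarith) (k ^ 3)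
    unfold xb
    refine le_trans ?_ this
    push_cast
    field_simp
    norm_num
  have h2 : (k : ℝ) ^ 3 ≤ (xb k) ^ (k ^ 4) := by
    calc (k : ℝ) ^ 3 ≤ 3 ^ k := by exact_mod_cast cube_le_three_pow k
      _ ≤ ((xb k) ^ (k ^ 3)) ^ k := pow_le_pow_left₀ (by norm_num) h1 k
      _ = (xb k) ^ (k ^ 4) := by rw [← pow_mul]; ring_nf
  have h3 : (1 : ℝ) ≤ (xb k) ^ (k ^ 4) * (2 / (k : ℝ) ^ 3) := by
    calc (1 : ℝ) ≤ (k : ℝ) ^ 3 * (2 / (k : ℝ) ^ 3) := by field_simp; norm_num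
      _ ≤ _ := mul_le_mul_of_nonneg_right h2 hy
  calc (xb k) ^ (k ^ 4) + 1 ≤ (xb k) ^ (k ^ 4) + (xb k) ^ (k ^ 4) * (2 / (k : ℝ) ^ 3) := by linarith
    _ = (xb k) ^ (k ^ 4) * (1 + 2 / (k : ℝ) ^ 3) := by ring
    _ = (xb k) ^ (k ^ 4) * (xb k) := rfl
    _ = (xb k) ^ (k ^ 4 + 1) := (pow_succ _ _).symm

theorem logb_xb (k : ℕ) : Real.logb 2 (xb k) ≤ 3 / (k : ℝ) ^ 3 := by
  have h1 : Real.log (xb k) ≤ 2 / (k : ℝ) ^ 3 := by
    have h2 : 0 < xb k := lt_of_lt_of_le one_pos (xb_ge_one k)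
    have := Real.log_le_sub_one_of_pos h2
    unfold xb at this ⊢
    linarith
  have h3 : (2 / 3 : ℝ) ≤ Real.log 2 := by
    have := Real.log_two_gt_d9
    linarith
  have h4 : (0 : ℝ) < Real.log 2 := by linarith
  rw [Real.logb, div_le_iff₀ h4]
  have h5 : (0 : ℝ) ≤ 3 / (k : ℝ) ^ 3 := by positivity
  calc Real.log (xb k) ≤ 2 / (k : ℝ) ^ 3 := h1
    _ = 3 / (k : ℝ) ^ 3 * (2 / 3) := by ring
    _ ≤ _ := mul_le_mul_of_nonneg_left h3 h5

theorem ma_pos (n : ℕ) : 0 < ma n := by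
  classical
  unfold ma
  rw [card_pos]
  refine ⟨{∅}, ?_⟩
  rw [mem_MIS]
  refine ⟨subset_univ _, ?_, ?_⟩
  · intro x hx y hy
    rw [mem_singleton] at hx hy
    rw [hx, hy]
    exact cmp_irrefl _
  · intro x _ hx
    rw [mem_singleton] at hx
    exact ⟨∅, mem_singleton_self _, Or.inr (Finset.ssubset_iff_subset_ne.2
      ⟨empty_subset _, fun h => hx h.symm⟩)⟩

/-- the explicit upper bound -/
theorem logb_ma_le (n r kA kB : ℕ) (η : ℝ) (hkA : 1 ≤ kA) (hkB : 1 ≤ kB)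
    (hlo : 1 ≤ n / 2 - n / r) (hA : 2 * kA ^ 4 ≤ n / 2 - n / r) (hη1 : η < 1)
    (hη : ((kB ^ 4 : ℕ) : ℝ) * (((n / 2 + n / r : ℕ) : ℝ) - ((n / 2 - n / r : ℕ) : ℝ)) /
      (((n / 2 - n / r : ℕ) : ℝ) + 1) ≤ η) :
    Real.logb 2 (ma n) ≤ (((univ : Finset (Finset (Fin n))) \ LL n r).card : ℝ) +
      ((mid n : ℝ) / (2 * (1 - η)) + (2 * mid n : ℕ) * (3 / (kB : ℝ) ^ 3) +
        (2 : ℝ) ^ n * (3 / (kA : ℝ) ^ 3)) := by
  classical
  set h : ℝ := (mid n : ℝ) / (2 * (1 - η)) with hh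
  have h1η : 0 < 1 - η := by linarith
  have hh0 : 0 ≤ h := by positivity
  -- stage B leaves
  have hleaf : ∀ F ⊆ LL n r, (∀ v ∈ F, (nbr cmp F v).card < kB ^ 4) →
      ((MIS cmp F).card : ℝ) ≤ (2 : ℝ) ^ h := by
    intro F hF hdeg
    have h1 := card_hull_le F (n / 2 - n / r) (n / 2 + n / r) (kB ^ 4)
      (fun A hA => (mem_LL.1 (hF hA)).1) (fun A hA => (mem_LL.1 (hF hA)).2)
      (fun A hA => (hdeg A hA).le) η hη hη1
    rw [Fintype.card_fin] at h1
    have h2 := leaf_bound F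
    have h3 : ((hull F).card : ℝ) / 2 ≤ h := by
      rw [hh, le_div_iff₀ (by positivity)]
      have : ((hull F).card : ℝ) * (1 - η) ≤ (mid n : ℝ) := h1
      linarith
    calc ((MIS cmp F).card : ℝ) ≤ (Real.sqrt 2) ^ (hull F).card := h2
      _ = (2 : ℝ) ^ (((hull F).card : ℝ) / 2) := by
          rw [Real.sqrt_eq_rpow, ← Real.rpow_natCast, ← Real.rpow_mul (by norm_num)]
          congr 1
          ring
      _ ≤ (2 : ℝ) ^ h := Real.rpow_le_rpow_of_exponent_le (by norm_num) h3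
  have hG0 : (0 : ℝ) ≤ (2 : ℝ) ^ h := by positivity
  have hB := branching (α := Finset (Fin n)) (adj := cmp) cmp_symm cmp_irrefl (kB ^ 4) (xb kB)
    ((2 : ℝ) ^ h) (xb_ge_one kB) hG0 (xb_spec kB hkB) (LL n r) hleaf
  -- stage A
  set GA : ℝ := (2 : ℝ) ^ h * (xb kB) ^ (2 * mid n) with hGA
  have hxB0 : 0 < xb kB := lt_of_lt_of_le one_pos (xb_ge_one kB)
  have hxA0 : 0 < xb kA := lt_of_lt_of_le one_pos (xb_ge_one kA)
  have hGA0 : 0 ≤ GA := by positivity
  have hstA : ∀ F ⊆ LL n r, (∀ v ∈ F, (nbr cmp F v).card < kA ^ 4) →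
      ((MIS cmp F).card : ℝ) ≤ GA := by
    intro F hF hdeg
    have h1 := card_le_of_degree F (n / 2 - n / r) (kA ^ 4) hlo
      (fun A hA => (mem_LL.1 (hF hA)).1) hdeg hA
    rw [Fintype.card_fin] at h1
    have h2 : F.card ≤ 2 * mid n := by
      have : (F.card : ℝ) ≤ ((2 * mid n : ℕ) : ℝ) := by
        push_cast
        exact h1
      exact_mod_cast this
    calc ((MIS cmp F).card : ℝ) ≤ (2 : ℝ) ^ h * (xb kB) ^ F.card := hB F hF
      _ ≤ GA := by
          rw [hGA]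
          apply mul_le_mul_of_nonneg_left _ hG0
          exact pow_le_pow_right₀ (xb_ge_one kB) h2
  have hAA := branching (α := Finset (Fin n)) (adj := cmp) cmp_symm cmp_irrefl (kA ^ 4) (xb kA)
    GA (xb_ge_one kA) hGA0 (xb_spec kA hkA) (LL n r) hstA
  have hcardF : ∀ F : Finset (Finset (Fin n)), F.card ≤ 2 ^ n := by
    intro F
    calc F.card ≤ (univ : Finset (Finset (Fin n))).card := card_le_card (subset_univ F)
      _ = 2 ^ n := by rw [card_univ, Fintype.card_finset, Fintype.card_fin]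
  have hfin : ∀ F ⊆ LL n r, ((MIS cmp F).card : ℝ) ≤ GA * (xb kA) ^ (2 ^ n) := by
    intro F hF
    calc ((MIS cmp F).card : ℝ) ≤ GA * (xb kA) ^ F.card := hAA F hF
      _ ≤ _ := by
          apply mul_le_mul_of_nonneg_left _ hGA0
          exact pow_le_pow_right₀ (xb_ge_one kA) (hcardF F)
  have hall := branching_outside (α := Finset (Fin n)) (adj := cmp) cmp_symm (LL n r)
    (GA * (xb kA) ^ (2 ^ n)) (by positivity) hfin univ
  have hma : (0 : ℝ) < (ma n : ℝ) := by exact_mod_cast ma_pos n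
  have hlog := Real.logb_le_logb_of_le (b := 2) (by norm_num) hma hall
  refine hlog.trans ?_
  rw [hGA, Real.logb_mul (by positivity) (by positivity), Real.logb_mul (by positivity)
    (by positivity), Real.logb_mul (by positivity) (by positivity), Real.logb_pow, Real.logb_pow,
    Real.logb_pow, Real.logb_rpow (by norm_num) (by norm_num), Real.logb_self_eq_one (by norm_num)]
  have e1 : ((2 * mid n : ℕ) : ℝ) * Real.logb 2 (xb kB) ≤ ((2 * mid n : ℕ) : ℝ) * (3 / (kB : ℝ) ^ 3) :=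
    mul_le_mul_of_nonneg_left (logb_xb kB) (Nat.cast_nonneg _)
  have e2 : ((2 ^ n : ℕ) : ℝ) * Real.logb 2 (xb kA) ≤ (2 : ℝ) ^ n * (3 / (kA : ℝ) ^ 3) := by
    push_cast
    exact mul_le_mul_of_nonneg_left (logb_xb kA) (by positivity)
  linarith

end Pool.Agent.helper59
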