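import Pool.Agent.helper59.Mis

/-! Number of maximal antichains of a finite family of finite sets, bounded by the size of its hull. -/

namespace Pool.Agent.helper59

open Finset

section Leaf
variable {β : Type*} [DecidableEq β] [Fintype β]

/-- strict comparability of finite sets -/
def cmp (A B : Finset β) : Prop := A ⊂ B ∨ B ⊂ A

omit [DecidableEq β] [Fintype β] in
theorem cmp_symm (A B : Finset β) (h : cmp A B) : cmp B A := h.symm

omit [DecidableEq β] [Fintype β] in
theorem cmp_irrefl (A : Finset β) : ¬ cmp A A := by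
  rintro (h | h) <;> exact (ssubset_irrefl _ h)

/-- the order-convex hull of a family of finite sets -/
def hull (F : Finset (Finset β)) : Finset (Finset β) :=
  univ.filter (fun X => (∃ A ∈ F, A ⊆ X) ∧ ∃ D ∈ F, X ⊆ D)

theorem mem_hull {F : Finset (Finset β)} {X : Finset β} :
    X ∈ hull F ↔ (∃ A ∈ F, A ⊆ X) ∧ ∃ D ∈ F, X ⊆ D := by
  simp [hull]

theorem subset_hull (F : Finset (Finset β)) : F ⊆ hull F := by
  intro X hX
  exact mem_hull.2 ⟨⟨X, hX, Subset.refl _⟩, ⟨X, hX, Subset.refl _⟩⟩

theorem hull_mono {F F' : Finset (Finset β)} (h : F' ⊆ F) : hull F' ⊆ hull F := by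
  intro X hX
  rw [mem_hull] at hX ⊢
  obtain ⟨⟨A, hA, hAX⟩, ⟨D, hD, hXD⟩⟩ := hX
  exact ⟨⟨A, h hA, hAX⟩, ⟨D, h hD, hXD⟩⟩

theorem card_hull_add {F F' : Finset (Finset β)} (E : Finset (Finset β)) (h1 : F' ⊆ F)
    (h2 : E ⊆ hull F) (h3 : ∀ X ∈ E, X ∉ hull F') : (hull F').card + E.card ≤ (hull F).card := by
  rw [← card_union_of_disjoint]
  · apply card_le_card
    exact union_subset (hull_mono h1) h2
  · rw [disjoint_left]
    intro X hX hXE
    exact h3 X hXE hX

/-- nothing comparable to `u` lies in the hull of `rem cmp F u` -/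
theorem notMem_hull_rem {F : Finset (Finset β)} {u X : Finset β} (h : X ⊆ u ∨ u ⊆ X) :
    X ∉ hull (rem cmp F u) := by
  intro hX
  rw [mem_hull] at hX
  obtain ⟨⟨A, hA, hAX⟩, ⟨D, hD, hXD⟩⟩ := hX
  rw [mem_rem] at hA hD
  rcases h with h | h
  · have h4 : A ⊆ u := hAX.trans h
    exact hA.2.2 (Or.inr (Finset.ssubset_iff_subset_ne.2 ⟨h4, hA.2.1⟩))
  · have h4 : u ⊆ D := h.trans hXD
    exact hD.2.2 (Or.inl (Finset.ssubset_iff_subset_ne.2 ⟨h4, hD.2.1.symm⟩))

theorem cmp_or {A B : Finset β} (h : cmp A B) : B ⊆ A ∨ A ⊆ B := by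
  rcases h with h | h
  · exact Or.inr h.subset
  · exact Or.inl h.subset

theorem card_hull_rem {F : Finset (Finset β)} {u : Finset β} (hu : u ∈ F) :
    (hull (rem cmp F u)).card + ((nbr cmp F u).card + 1) ≤ (hull F).card := by
  have h1 : u ∉ nbr cmp F u := fun h => cmp_irrefl u (mem_nbr.1 h).2
  rw [← card_insert_of_notMem h1]
  apply card_hull_add _ (rem_subset _ _)
  · intro X hX
    rw [mem_insert] at hX
    rcases hX with h | h
    · exact subset_hull F (h ▸ hu)
    · exact subset_hull F (nbr_subset _ _ h)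
  · intro X hX
    rw [mem_insert] at hX
    rcases hX with h | h
    · exact notMem_hull_rem (Or.inl (h ▸ Subset.refl _))
    · exact notMem_hull_rem (cmp_or (mem_nbr.1 h).2)

theorem sqrt_two_pow_ge (m : ℕ) (hm : m ≠ 3) : (m : ℝ) ≤ (Real.sqrt 2) ^ m := by
  have h2 : (Real.sqrt 2) ^ 2 = 2 := Real.sq_sqrt (by norm_num)
  have h1 : (1.414 : ℝ) ≤ Real.sqrt 2 := by
    rw [show (1.414 : ℝ) = Real.sqrt (1.414 ^ 2) by rw [Real.sqrt_sq (by norm_num)]]
    exact Real.sqrt_le_sqrt (by norm_num)
  rcases Nat.lt_or_ge m 4 with h | h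
  · interval_cases m
    · simp
    · simp
    · rw [h2]; norm_num
    · exact absurd rfl hm
  · clear hm
    induction m, h using Nat.le_induction with
    | base =>
      have : (Real.sqrt 2) ^ 4 = 4 := by
        rw [show (4 : ℕ) = 2 * 2 by norm_num, pow_mul, h2]; norm_num
      rw [this]; norm_num
    | succ k hk ih =>
      rw [pow_succ]
      have hk' : (4 : ℝ) ≤ k := by exact_mod_cast hk
      push_cast
      nlinarith

theorem card_MIS_empty : (MIS (cmp : Finset β → Finset β → Prop) ∅).card ≤ 1 := by
  rw [card_le_one]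
  intro a ha b hb
  rw [mem_MIS] at ha hb
  rw [subset_empty.1 ha.1, subset_empty.1 hb.1]

/-- the fourth point of the interval spanned by a 3-chain -/
theorem chain_bound {F : Finset (Finset β)} {A B D : Finset β} (hA : A ∈ F) (hB : B ∈ F)
    (hD : D ∈ F) (hAB : A ⊂ B) (hBD : B ⊂ D) (F' : Finset (Finset β)) (hF' : F' ⊆ F)
    (hno : ∀ X : Finset β, X ⊆ D → A ⊆ X → X ∉ hull F') :
    (hull F').card + 4 ≤ (hull F).card := by
  set B' : Finset β := A ∪ (D \ B) with hB'
  have hAD : A ⊂ D := hAB.trans hBD
  have h1 : A ⊆ B' := subset_union_left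
  have h2 : B' ⊆ D := union_subset hAD.subset sdiff_subset
  obtain ⟨x, hxD, hxB⟩ := exists_of_ssubset hBD
  obtain ⟨y, hyB, hyA⟩ := exists_of_ssubset hAB
  have hxB' : x ∈ B' := mem_union_right _ (mem_sdiff.2 ⟨hxD, hxB⟩)
  have hyB' : y ∉ B' := by
    rw [hB', mem_union, mem_sdiff]
    rintro (h | h)
    · exact hyA h
    · exact h.2 hyB
  have hxA : x ∉ A := fun h => hxB (hAB.subset h)
  have hyD : y ∈ D := hBD.subset hyB
  have n1 : A ≠ B := hAB.ne
  have n2 : A ≠ D := hAD.ne
  have n3 : B ≠ D := hBD.ne
  have n4 : A ≠ B' := fun h => hxA (h ▸ hxB')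
  have n5 : B ≠ B' := fun h => hxB (h ▸ hxB')
  have n6 : D ≠ B' := fun h => hyB' (h ▸ hyD)
  have hcard : ({A, B, D, B'} : Finset (Finset β)).card = 4 := by
    rw [card_insert_of_notMem, card_insert_of_notMem, card_insert_of_notMem, card_singleton]
    · simp [n6]
    · simp [n3, n5]
    · simp [n1, n2, n4]
  rw [← hcard]
  apply card_hull_add _ hF'
  · intro X hX
    simp only [mem_insert, mem_singleton] at hX
    rcases hX with h | h | h | h
    · exact subset_hull F (h ▸ hA)
    · exact subset_hull F (h ▸ hB)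
    · exact subset_hull F (h ▸ hD)
    · rw [h]
      exact mem_hull.2 ⟨⟨A, hA, h1⟩, ⟨D, hD, h2⟩⟩
  · intro X hX
    simp only [mem_insert, mem_singleton] at hX
    rcases hX with h | h | h | h <;> subst h
    · exact hno _ hAD.subset (Subset.refl _)
    · exact hno _ hBD.subset hAB.subset
    · exact hno _ (Subset.refl _) hAD.subset
    · exact hno _ h2 h1

/-- three pairwise comparable sets form a chain -/
theorem exists_chain {a b c : Finset β} (h1 : cmp a b) (h2 : cmp a c) (h3 : cmp b c) :
    ∃ A B D : Finset β, A ⊂ B ∧ B ⊂ D ∧ ({A, B, D} : Finset (Finset β)) = {a, b, c} := by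
  rcases h1 with h1 | h1 <;> rcases h2 with h2 | h2 <;> rcases h3 with h3 | h3
  · exact ⟨a, b, c, h1, h3, rfl⟩
  · refine ⟨a, c, b, h2, h3, ?_⟩
    ext x; simp only [mem_insert, mem_singleton]; tauto
  · exact absurd (h1.trans h3) (fun h => ssubset_irrefl _ (h.trans h2))
  · refine ⟨c, a, b, h2, h1, ?_⟩
    ext x; simp only [mem_insert, mem_singleton]; tauto
  · refine ⟨b, a, c, h1, h2, ?_⟩
    ext x; simp only [mem_insert, mem_singleton]; tauto
  · exact absurd (h2.trans h3) (fun h => ssubset_irrefl _ (h.trans h1))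
  · refine ⟨b, c, a, h3, h2, ?_⟩
    ext x; simp only [mem_insert, mem_singleton]; tauto
  · refine ⟨c, b, a, h3, h1, ?_⟩
    ext x; simp only [mem_insert, mem_singleton]; tauto

/-- The number of maximal antichains of `F` is at most `√2 ^ |hull F|`. -/
theorem leaf_bound : ∀ F : Finset (Finset β),
    ((MIS cmp F).card : ℝ) ≤ (Real.sqrt 2) ^ (hull F).card := by
  classical
  intro F
  induction hn : F.card using Nat.strong_induction_on generalizing F with
  | _ n ih =>
  subst hn
  set s : ℝ := Real.sqrt 2 with hs_def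
  have hs2 : s ^ 2 = 2 := Real.sq_sqrt (by norm_num)
  have hs0 : 0 < s := Real.sqrt_pos.2 (by norm_num)
  have hs141 : (1.41 : ℝ) ≤ s := by
    rw [hs_def, show (1.41 : ℝ) = Real.sqrt (1.41 ^ 2) by rw [Real.sqrt_sq (by norm_num)]]
    exact Real.sqrt_le_sqrt (by norm_num)
  have hs1 : 1 ≤ s := by linarith
  have hs3 : s ^ 3 = 2 * s := by rw [pow_succ, hs2]
  have hs4 : s ^ 4 = 4 := by rw [show (4 : ℕ) = 2 * 2 by norm_num, pow_mul, hs2]; norm_num
  have hs5 : s ^ 5 = 4 * s := by rw [pow_succ, hs4]
  rcases F.eq_empty_or_nonempty with hF0 | hFne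
  · subst hF0
    have h1 : ((MIS (cmp : Finset β → Finset β → Prop) ∅).card : ℝ) ≤ 1 := by
      exact_mod_cast card_MIS_empty
    exact h1.trans (one_le_pow₀ hs1)
  obtain ⟨v, hv, hvmin⟩ := exists_min_image F (fun v => (nbr cmp F v).card) hFne
  set H : ℝ := s ^ (hull F).card with hH_def
  have hH0 : 0 < H := by positivity
  -- general bound for a smaller family
  have key : ∀ F' : Finset (Finset β), F'.card < F.card → ∀ k : ℕ,
      (hull F').card + k ≤ (hull F).card → ((MIS cmp F').card : ℝ) * s ^ k ≤ H := by
    intro F' hF' k hk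
    calc ((MIS cmp F').card : ℝ) * s ^ k ≤ s ^ (hull F').card * s ^ k := by
          apply mul_le_mul_of_nonneg_right (ih F'.card hF' F' rfl)
          positivity
      _ = s ^ ((hull F').card + k) := by rw [pow_add]
      _ ≤ H := pow_le_pow_right₀ hs1 hk
  have hcard : ∀ u ∈ F, (rem cmp F u).card < F.card := by
    intro u hu
    have := card_rem F (adj := cmp) cmp_irrefl hu
    omega
  have keyrem : ∀ u ∈ F, ∀ k : ℕ, k ≤ (nbr cmp F u).card + 1 →
      ((MIS cmp (rem cmp F u)).card : ℝ) * s ^ k ≤ H := by
    intro u hu k hk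
    apply key _ (hcard u hu)
    have := card_hull_rem hu
    omega
  have hsum := card_MIS_le_sum F (adj := cmp) cmp_symm hv
  by_cases hδ : (nbr cmp F v).card = 2
  · obtain ⟨a, b, hab, hnv⟩ := card_eq_two.1 hδ
    have ha' : a ∈ nbr cmp F v := by rw [hnv]; simp
    have hb' : b ∈ nbr cmp F v := by rw [hnv]; simp
    obtain ⟨haF, hva⟩ := mem_nbr.1 ha'
    obtain ⟨hbF, hvb⟩ := mem_nbr.1 hb'
    have hda : 2 ≤ (nbr cmp F a).card := hδ ▸ hvmin a haF
    have hdb : 2 ≤ (nbr cmp F b).card := hδ ▸ hvmin b hbF
    have hva' : v ≠ a := fun h => cmp_irrefl v (h ▸ hva)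
    have hvb' : v ≠ b := fun h => cmp_irrefl v (h ▸ hvb)
    set μv : ℝ := ((MIS cmp (rem cmp F v)).card : ℝ) with hμv
    set μa : ℝ := ((MIS cmp (rem cmp F a)).card : ℝ) with hμa
    set μb : ℝ := ((MIS cmp (rem cmp F b)).card : ℝ) with hμb
    have hμv0 : 0 ≤ μv := Nat.cast_nonneg _
    have hμa0 : 0 ≤ μa := Nat.cast_nonneg _
    have hμb0 : 0 ≤ μb := Nat.cast_nonneg _
    have hsum' : ((MIS cmp F).card : ℝ) ≤ μv + (μa + μb) := by
      rw [hnv, sum_pair hab] at hsum
      rw [hμv, hμa, hμb]
      exact_mod_cast hsum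
    have hv3 : μv * 2.82 ≤ H := by
      have h1 := keyrem v hv 3 (by omega)
      rw [hs3] at h1
      nlinarith
    have ha3 : μa * 2.82 ≤ H := by
      have h1 := keyrem a haF 3 (by omega)
      rw [hs3] at h1
      nlinarith
    have hb3 : μb * 2.82 ≤ H := by
      have h1 := keyrem b hbF 3 (by omega)
      rw [hs3] at h1
      nlinarith
    by_cases hda3 : 3 ≤ (nbr cmp F a).card
    · have ha4 : μa * 4 ≤ H := by
        have h1 := keyrem a haF 4 (by omega)
        rwa [hs4] at h1
      linarith
    by_cases hdb3 : 3 ≤ (nbr cmp F b).card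
    · have hb4 : μb * 4 ≤ H := by
        have h1 := keyrem b hbF 4 (by omega)
        rwa [hs4] at h1
      linarith
    have hda2 : (nbr cmp F a).card = 2 := by omega
    have hdb2 : (nbr cmp F b).card = 2 := by omega
    have hvna : v ∈ nbr cmp F a := mem_nbr.2 ⟨hv, cmp_symm _ _ hva⟩
    have hvnb : v ∈ nbr cmp F b := mem_nbr.2 ⟨hv, cmp_symm _ _ hvb⟩
    by_cases hadj : cmp a b
    · -- a triangle
      obtain ⟨A, B, D, hAB, hBD, hset⟩ := exists_chain hva hvb hadj
      have hna : nbr cmp F a = {v, b} := by
        symm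
        apply eq_of_subset_of_card_le
        · intro x hx
          simp only [mem_insert, mem_singleton] at hx
          rcases hx with h | h
          · exact h ▸ hvna
          · exact h ▸ (mem_nbr.2 ⟨hbF, hadj⟩)
        · rw [hda2, card_pair hvb']
      have hnb : nbr cmp F b = {v, a} := by
        symm
        apply eq_of_subset_of_card_le
        · intro x hx
          simp only [mem_insert, mem_singleton] at hx
          rcases hx with h | h
          · exact h ▸ hvnb
          · exact h ▸ (mem_nbr.2 ⟨haF, cmp_symm _ _ hadj⟩)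
        · rw [hdb2, card_pair hva']
      have hmemF : ∀ x ∈ ({v, a, b} : Finset (Finset β)), x ∈ F := by
        intro x hx
        simp only [mem_insert, mem_singleton] at hx
        rcases hx with h | h | h
        · exact h ▸ hv
        · exact h ▸ haF
        · exact h ▸ hbF
      have hAm : A ∈ ({v, a, b} : Finset (Finset β)) := by rw [← hset]; simp
      have hBm : B ∈ ({v, a, b} : Finset (Finset β)) := by rw [← hset]; simp
      have hDm : D ∈ ({v, a, b} : Finset (Finset β)) := by rw [← hset]; simp
      -- in `rem cmp F u` for `u` in the triangle, nothing is comparable to `D`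
      have hrem : ∀ u ∈ ({v, a, b} : Finset (Finset β)), rem cmp F u = rem cmp F D := by
        have h0 : ∀ u ∈ ({v, a, b} : Finset (Finset β)), rem cmp F u = F \ {v, a, b} := by
          intro u hu
          ext x
          rw [mem_rem, mem_sdiff]
          have hx : x ∈ F → (x ≠ u ∧ ¬ cmp u x ↔ x ∉ ({v, a, b} : Finset (Finset β))) := by
            intro hxF
            simp only [mem_insert, mem_singleton] at hu ⊢
            rcases hu with h | h | h
            · subst h
              have : cmp u x ↔ x = a ∨ x = b := by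
                have h5 : x ∈ nbr cmp F u ↔ x = a ∨ x = b := by rw [hnv]; simp
                rw [← h5, mem_nbr]; simp [hxF]
              rw [this]; tauto
            · subst h
              have : cmp u x ↔ x = v ∨ x = b := by
                have h5 : x ∈ nbr cmp F u ↔ x = v ∨ x = b := by rw [hna]; simp
                rw [← h5, mem_nbr]; simp [hxF]
              rw [this]; tauto
            · subst h
              have : cmp u x ↔ x = v ∨ x = a := by
                have h5 : x ∈ nbr cmp F u ↔ x = v ∨ x = a := by rw [hnb]; simp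
                rw [← h5, mem_nbr]; simp [hxF]
              rw [this]; tauto
          constructor
          · rintro ⟨h6, h7⟩
            exact ⟨h6, (hx h6).1 h7⟩
          · rintro ⟨h6, h7⟩
            exact ⟨h6, (hx h6).2 h7⟩
        intro u hu
        rw [h0 u hu, h0 D hDm]
      have hcb : (hull (rem cmp F D)).card + 4 ≤ (hull F).card :=
        chain_bound (hmemF A hAm) (hmemF B hBm) (hmemF D hDm) hAB hBD _ (rem_subset _ _)
          (fun X h1 _ => notMem_hull_rem (Or.inl h1))
      have hk : ((MIS cmp (rem cmp F D)).card : ℝ) * s ^ 4 ≤ H :=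
        key _ (hcard D (hmemF D hDm)) 4 hcb
      have e1 : μv * 4 ≤ H := by rw [hμv, hrem v (by simp), ← hs4]; exact hk
      have e2 : μa * 4 ≤ H := by rw [hμa, hrem a (by simp), ← hs4]; exact hk
      have e3 : μb * 4 ≤ H := by rw [hμb, hrem b (by simp), ← hs4]; exact hk
      linarith
    · -- `a` and `b` not comparable, of degree 2
      obtain ⟨a', ha'⟩ : ∃ a', nbr cmp F a = {v, a'} ∧ v ≠ a' := by
        obtain ⟨x, y, hxy, hxy'⟩ := card_eq_two.1 hda2
        rw [hxy'] at hvna
        simp only [mem_insert, mem_singleton] at hvna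
        rcases hvna with h | h
        · exact ⟨y, by rw [hxy', h], by rw [h]; exact hxy⟩
        · exact ⟨x, by rw [hxy', h, pair_comm], by rw [h]; exact hxy.symm⟩
      obtain ⟨b', hb'⟩ : ∃ b', nbr cmp F b = {v, b'} ∧ v ≠ b' := by
        obtain ⟨x, y, hxy, hxy'⟩ := card_eq_two.1 hdb2
        rw [hxy'] at hvnb
        simp only [mem_insert, mem_singleton] at hvnb
        rcases hvnb with h | h
        · exact ⟨y, by rw [hxy', h], by rw [h]; exact hxy⟩
        · exact ⟨x, by rw [hxy', h, pair_comm], by rw [h]; exact hxy.symm⟩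
      have ha'n : a' ∈ nbr cmp F a := by rw [ha'.1]; simp
      have hb'n : b' ∈ nbr cmp F b := by rw [hb'.1]; simp
      obtain ⟨ha'F, haa'⟩ := mem_nbr.1 ha'n
      obtain ⟨hb'F, hbb'⟩ := mem_nbr.1 hb'n
      have haa'ne : a ≠ a' := fun h => cmp_irrefl a (by rw [← h] at haa'; exact haa')
      have hbb'ne : b ≠ b' := fun h => cmp_irrefl b (by rw [← h] at hbb'; exact hbb')
      have hba' : b ≠ a' := fun h => hadj (by rw [h]; exact haa')
      have hab' : a ≠ b' := fun h => hadj (cmp_symm _ _ (by rw [h]; exact hbb'))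
      -- cover of `MIS cmp F`
      have hcov : MIS cmp F ⊆ ((MIS cmp F).filter (fun I => v ∈ I) ∪
          (MIS cmp F).filter (fun I => a ∈ I)) ∪
          (MIS cmp F).filter (fun I => b ∈ I ∧ a' ∈ I) := by
        intro I hI
        rw [mem_union, mem_union, mem_filter, mem_filter, mem_filter]
        have hI' := hI
        rw [mem_MIS] at hI'
        obtain ⟨h1, h2, h3⟩ := hI'
        by_cases hvI : v ∈ I
        · exact Or.inl (Or.inl ⟨hI, hvI⟩)
        by_cases haI : a ∈ I
        · exact Or.inl (Or.inr ⟨hI, haI⟩)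
        right
        refine ⟨hI, ?_, ?_⟩
        · obtain ⟨y, hy, hxy⟩ := h3 v hv hvI
          have : y ∈ nbr cmp F v := mem_nbr.2 ⟨h1 hy, hxy⟩
          rw [hnv] at this
          simp only [mem_insert, mem_singleton] at this
          rcases this with h | h
          · exact absurd (h ▸ hy) haI
          · exact h ▸ hy
        · obtain ⟨y, hy, hxy⟩ := h3 a haF haI
          have : y ∈ nbr cmp F a := mem_nbr.2 ⟨h1 hy, hxy⟩
          rw [ha'.1] at this
          simp only [mem_insert, mem_singleton] at this
          rcases this with h | h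
          · exact absurd (h ▸ hy) hvI
          · exact h ▸ hy
      have hthird : (((MIS cmp F).filter (fun I => b ∈ I ∧ a' ∈ I)).card : ℝ) * 5.64 ≤ H := by
        by_cases hca : cmp b a'
        · have : (MIS cmp F).filter (fun I => b ∈ I ∧ a' ∈ I) = ∅ := by
            rw [filter_eq_empty_iff]
            intro I hI hbI
            rw [mem_MIS] at hI
            exact hI.2.1 b hbI.1 a' hbI.2 hca
          rw [this]
          simp only [card_empty, Nat.cast_zero, zero_mul]
          exact hH0.le
        · have h1 := card_MIS_mem_mem_le F (adj := cmp) cmp_symm hba'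
          have h2 : ((((MIS cmp F).filter (fun I => b ∈ I ∧ a' ∈ I)).card : ℕ) : ℝ) ≤
              ((MIS cmp (rem cmp (rem cmp F b) a')).card : ℝ) := by exact_mod_cast h1
          have ha'b' : a' ≠ b' := fun h => hca (by rw [h]; exact hbb')
          have hE : ({b, v, b', a', a} : Finset (Finset β)).card = 5 := by
            rw [card_insert_of_notMem, card_insert_of_notMem, card_insert_of_notMem,
              card_insert_of_notMem, card_singleton]
            · simp [haa'ne.symm]
            · simp [ha'b'.symm, hab'.symm]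
            · simp [hb'.2, ha'.2, hva']
            · simp [hvb'.symm, hbb'ne, hba', hab.symm]
          have h3 : (hull (rem cmp (rem cmp F b) a')).card + 5 ≤ (hull F).card := by
            rw [← hE]
            apply card_hull_add _ ((rem_subset _ _).trans (rem_subset _ _))
            · intro X hX
              simp only [mem_insert, mem_singleton] at hX
              apply subset_hull F
              rcases hX with h | h | h | h | h <;> subst h <;> assumption
            · intro X hX
              simp only [mem_insert, mem_singleton] at hX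
              rcases hX with h | h | h | h | h
              · subst h
                exact fun h => notMem_hull_rem (Or.inl (Subset.refl _))
                  (hull_mono (rem_subset _ _ |> fun (h' : rem cmp (rem cmp F X) a' ⊆
                    rem cmp F X) => h') h)
              · subst h
                exact fun h => notMem_hull_rem (cmp_or (cmp_symm _ _ hvb))
                  (hull_mono (rem_subset (rem cmp F b) a') h)
              · subst h
                exact fun h => notMem_hull_rem (cmp_or hbb')
                  (hull_mono (rem_subset (rem cmp F b) a') h)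
              · subst h
                exact notMem_hull_rem (Or.inl (Subset.refl _))
              · subst h
                exact notMem_hull_rem (cmp_or (cmp_symm _ _ haa'))
          have hlt : (rem cmp (rem cmp F b) a').card < F.card := by
            have h4 := hcard b hbF
            have h5 : (rem cmp (rem cmp F b) a').card ≤ (rem cmp F b).card :=
              card_le_card (rem_subset _ _)
            omega
          have h6 := key _ hlt 5 h3
          rw [hs5] at h6
          have h7 : (0 : ℝ) ≤ ((MIS cmp (rem cmp (rem cmp F b) a')).card : ℝ) :=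
            Nat.cast_nonneg _
          have h8 : (5.64 : ℝ) ≤ 4 * s := by linarith
          have h9 := mul_le_mul_of_nonneg_left h8 h7
          have h10 := mul_le_mul_of_nonneg_right h2 (show (0:ℝ) ≤ 5.64 by norm_num)
          exact h10.trans (h9.trans h6)
      have h1 : (MIS cmp F).card ≤ (MIS cmp (rem cmp F v)).card + (MIS cmp (rem cmp F a)).card +
          ((MIS cmp F).filter (fun I => b ∈ I ∧ a' ∈ I)).card := by
        calc (MIS cmp F).card ≤ _ := card_le_card hcov
          _ ≤ _ := card_union_le _ _
          _ ≤ _ := Nat.add_le_add_right (card_union_le _ _) _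
          _ ≤ _ := Nat.add_le_add_right (Nat.add_le_add (card_MIS_mem_le F cmp_symm v)
              (card_MIS_mem_le F cmp_symm a)) _
      have h2 : ((MIS cmp F).card : ℝ) ≤ μv + μa +
          (((MIS cmp F).filter (fun I => b ∈ I ∧ a' ∈ I)).card : ℝ) := by
        rw [hμv, hμa]; exact_mod_cast h1
      linarith
  · -- minimum degree different from 2
    set δ := (nbr cmp F v).card with hδdef
    have h1 : ((MIS cmp F).card : ℝ) * s ^ (δ + 1) ≤ ((δ + 1 : ℕ) : ℝ) * H := by
      have h2 : ((MIS cmp F).card : ℝ) ≤ ((MIS cmp (rem cmp F v)).card : ℝ) +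
          ∑ u ∈ nbr cmp F v, ((MIS cmp (rem cmp F u)).card : ℝ) := by exact_mod_cast hsum
      calc ((MIS cmp F).card : ℝ) * s ^ (δ + 1)
          ≤ (((MIS cmp (rem cmp F v)).card : ℝ) +
          ∑ u ∈ nbr cmp F v, ((MIS cmp (rem cmp F u)).card : ℝ)) * s ^ (δ + 1) := by
            apply mul_le_mul_of_nonneg_right h2; positivity
        _ = ((MIS cmp (rem cmp F v)).card : ℝ) * s ^ (δ + 1) +
          ∑ u ∈ nbr cmp F v, ((MIS cmp (rem cmp F u)).card : ℝ) * s ^ (δ + 1) := by
            rw [add_mul, sum_mul]
        _ ≤ H + ∑ u ∈ nbr cmp F v, H := by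
            apply add_le_add (keyrem v hv _ le_rfl)
            apply sum_le_sum
            intro u hu
            have huF := nbr_subset _ _ hu
            apply keyrem u huF
            have := hvmin u huF
            omega
        _ = ((δ + 1 : ℕ) : ℝ) * H := by
            rw [sum_const, nsmul_eq_mul, ← hδdef]; push_cast; ring
    have h3 : ((δ + 1 : ℕ) : ℝ) ≤ s ^ (δ + 1) := sqrt_two_pow_ge (δ + 1) (by omega)
    have h4 : 0 < s ^ (δ + 1) := by positivity
    have h5 : ((MIS cmp F).card : ℝ) * s ^ (δ + 1) ≤ H * s ^ (δ + 1) := by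
      calc _ ≤ ((δ + 1 : ℕ) : ℝ) * H := h1
        _ ≤ s ^ (δ + 1) * H := mul_le_mul_of_nonneg_right h3 hH0.le
        _ = H * s ^ (δ + 1) := by ring
    exact le_of_mul_le_mul_right h5 h4

end Leaf

end Pool.Agent.helper59
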