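import Pool.Agent.helper59.Leaf

/-! A Lubell–Yamamoto–Meshalkin type inequality for families which are not antichains. -/

namespace Pool.Agent.helper59

open Finset

section Lym
variable {β : Type*} [DecidableEq β]

/-- conditional expectation of the number of members strictly below `X` on a random chain -/
noncomputable def bet (K : Finset (Finset β)) (X : Finset β) : ℝ :=
  ∑ Z ∈ K.filter (fun Z => Z ⊂ X), 1 / (X.card.choose Z.card : ℝ)

theorem bet_nonneg (K : Finset (Finset β)) (X : Finset β) : 0 ≤ bet K X :=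
  sum_nonneg (fun _ _ => by positivity)

theorem lym_pairs : ∀ (n : ℕ) (V : Finset β), V.card = n → ∀ K : Finset (Finset β),
    (∀ X ∈ K, X ⊆ V) →
    ∑ X ∈ K, (1 / (V.card.choose X.card : ℝ)) * (1 - bet K X) ≤ 1 := by
  intro n
  induction n with
  | zero =>
    intro V hV K hK
    have hV0 : V = ∅ := card_eq_zero.1 hV
    subst hV0
    have hK' : K ⊆ {∅} := by
      intro X hX
      rw [mem_singleton]
      exact subset_empty.1 (hK X hX)
    calc ∑ X ∈ K, (1 / ((∅ : Finset β).card.choose X.card : ℝ)) * (1 - bet K X)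
        ≤ ∑ X ∈ K, (1 : ℝ) := by
          apply sum_le_sum
          intro X hX
          have hX0 : X = ∅ := subset_empty.1 (hK X hX)
          subst hX0
          have := bet_nonneg K (∅ : Finset β)
          simp
          exact this
      _ = K.card := by simp
      _ ≤ 1 := by exact_mod_cast card_le_one.2 (fun a ha b hb => by
          rw [mem_singleton.1 (hK' ha), mem_singleton.1 (hK' hb)])
  | succ m ih =>
    intro V hV K hK
    by_cases hVK : V ∈ K
    · have hfil : K.filter (fun Z => Z ⊂ V) = K.erase V := by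
        ext Z
        rw [mem_filter, mem_erase]
        constructor
        · rintro ⟨h1, h2⟩
          exact ⟨h2.ne, h1⟩
        · rintro ⟨h1, h2⟩
          exact ⟨h2, Finset.ssubset_iff_subset_ne.2 ⟨hK Z h2, h1⟩⟩
      have hbV : bet K V = ∑ Z ∈ K.erase V, 1 / (V.card.choose Z.card : ℝ) := by
        rw [bet, hfil]
      rw [← add_sum_erase K _ hVK, hbV, Nat.choose_self]
      have h1 : ∑ X ∈ K.erase V, (1 / (V.card.choose X.card : ℝ)) * (1 - bet K X) =
          ∑ X ∈ K.erase V, 1 / (V.card.choose X.card : ℝ) -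
          ∑ X ∈ K.erase V, (1 / (V.card.choose X.card : ℝ)) * bet K X := by
        rw [← sum_sub_distrib]
        apply sum_congr rfl
        intro X _
        ring
      have h2 : 0 ≤ ∑ X ∈ K.erase V, (1 / (V.card.choose X.card : ℝ)) * bet K X :=
        sum_nonneg (fun X _ => mul_nonneg (by positivity) (bet_nonneg K X))
      rw [h1]
      push_cast
      linarith
    · have hlt : ∀ X ∈ K, X.card < m + 1 := by
        intro X hX
        rw [← hV]
        exact card_lt_card (Finset.ssubset_iff_subset_ne.2 ⟨hK X hX, fun h => hVK (h ▸ hX)⟩)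
      have hx : ∀ x ∈ V, ∑ X ∈ K.filter (fun X => x ∉ X),
          (1 / (m.choose X.card : ℝ)) * (1 - bet K X) ≤ 1 := by
        intro x hxV
        have hcard : (V.erase x).card = m := by rw [card_erase_of_mem hxV, hV]; rfl
        have h1 := ih (V.erase x) hcard (K.filter (fun X => x ∉ X)) (by
          intro X hX
          rw [mem_filter] at hX
          intro y hy
          rw [mem_erase]
          exact ⟨fun h => hX.2 (h ▸ hy), hK X hX.1 hy⟩)
        rw [hcard] at h1
        refine le_trans (le_of_eq ?_) h1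
        apply sum_congr rfl
        intro X hX
        rw [mem_filter] at hX
        have h2 : bet (K.filter (fun X => x ∉ X)) X = bet K X := by
          unfold bet
          apply sum_congr _ (fun _ _ => rfl)
          ext Z
          simp only [mem_filter]
          constructor
          · rintro ⟨⟨h1, _⟩, h3⟩
            exact ⟨h1, h3⟩
          · rintro ⟨h1, h3⟩
            exact ⟨⟨h1, fun h => hX.2 (h3.subset h)⟩, h3⟩
        rw [h2]
      have hsum : ∑ x ∈ V, ∑ X ∈ K.filter (fun X => x ∉ X),
          (1 / (m.choose X.card : ℝ)) * (1 - bet K X) ≤ (m + 1 : ℕ) := by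
        calc _ ≤ ∑ x ∈ V, (1 : ℝ) := sum_le_sum hx
          _ = (m + 1 : ℕ) := by rw [sum_const, hV]; simp
      have hswap : ∑ x ∈ V, ∑ X ∈ K.filter (fun X => x ∉ X),
          (1 / (m.choose X.card : ℝ)) * (1 - bet K X) =
          ∑ X ∈ K, ∑ x ∈ V.filter (fun x => x ∉ X),
          (1 / (m.choose X.card : ℝ)) * (1 - bet K X) := by
        apply sum_comm'
        intro x X
        simp only [mem_filter]
        tauto
      rw [hswap] at hsum
      have hterm : ∀ X ∈ K, ∑ x ∈ V.filter (fun x => x ∉ X),
          (1 / (m.choose X.card : ℝ)) * (1 - bet K X) =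
          ((m + 1 : ℕ) : ℝ) * ((1 / (V.card.choose X.card : ℝ)) * (1 - bet K X)) := by
        intro X hX
        have hcX := hlt X hX
        have hfc : (V.filter (fun x => x ∉ X)).card = m + 1 - X.card := by
          have : V.filter (fun x => x ∉ X) = V \ X := by
            ext y; simp [mem_sdiff]
          rw [this, card_sdiff_of_subset (hK X hX), hV]
        rw [sum_const, nsmul_eq_mul, hfc, hV]
        have hid := Nat.choose_mul_succ_eq m X.card
        have hidR : (m.choose X.card : ℝ) * ((m + 1 : ℕ) : ℝ) =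
            ((m + 1).choose X.card : ℝ) * ((m + 1 - X.card : ℕ) : ℝ) := by exact_mod_cast hid
        have hc1 : (0 : ℝ) < (m.choose X.card : ℝ) := by
          exact_mod_cast Nat.choose_pos (by omega)
        have hc2 : (0 : ℝ) < ((m + 1).choose X.card : ℝ) := by
          exact_mod_cast Nat.choose_pos (by omega)
        have hq : ((m + 1 - X.card : ℕ) : ℝ) * (1 / (m.choose X.card : ℝ)) =
            ((m + 1 : ℕ) : ℝ) * (1 / ((m + 1).choose X.card : ℝ)) := by
          field_simp
          linarith
        rw [← mul_assoc, hq, mul_assoc]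
      rw [sum_congr rfl hterm, ← mul_sum] at hsum
      have hpos : (0 : ℝ) < ((m + 1 : ℕ) : ℝ) := by positivity
      by_contra hcon
      push Not at hcon
      have := mul_lt_mul_of_pos_left hcon hpos
      linarith

/-- the interval `[A, X)` -/
def intv (A X : Finset β) : Finset (Finset β) := X.powerset.filter (fun Z => A ⊆ Z ∧ Z ≠ X)

theorem sum_intv : ∀ (m : ℕ) (A X : Finset β), A ⊆ X → X.card = m →
    ∑ Z ∈ intv A X, 1 / (X.card.choose Z.card : ℝ) =
      ((X.card : ℝ) - (A.card : ℝ)) / ((A.card : ℝ) + 1) := by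
  intro m
  induction m with
  | zero =>
    intro A X hAX hX
    have hX0 : X = ∅ := card_eq_zero.1 hX
    subst hX0
    have hA0 : A = ∅ := subset_empty.1 hAX
    subst hA0
    have : intv (∅ : Finset β) ∅ = ∅ := by
      ext Z; simp [intv]
    rw [this]; simp
  | succ m ih =>
    intro A X hAX hX
    by_cases hAXe : A = X
    · subst hAXe
      have : intv A A = ∅ := by
        ext Z
        simp only [intv, mem_filter, mem_powerset, notMem_empty, iff_false]
        rintro ⟨h1, h2, h3⟩
        exact h3 (Subset.antisymm h1 h2)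
      rw [this]; simp
    · -- double counting
      have hAc : A.card < X.card :=
        card_lt_card (Finset.ssubset_iff_subset_ne.2 ⟨hAX, hAXe⟩)
      have h1 : ∀ Z ∈ intv A X, 1 / (X.card.choose Z.card : ℝ) =
          ∑ x ∈ X \ Z, (1 / ((m + 1 : ℕ) : ℝ)) * (1 / (m.choose Z.card : ℝ)) := by
        intro Z hZ
        simp only [intv, mem_filter, mem_powerset] at hZ
        obtain ⟨hZX, _, hne⟩ := hZ
        have hZc : Z.card < X.card := card_lt_card (Finset.ssubset_iff_subset_ne.2 ⟨hZX, hne⟩)
        rw [sum_const, nsmul_eq_mul, card_sdiff_of_subset hZX, hX]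
        rw [hX] at hZc
        have hid := Nat.choose_mul_succ_eq m Z.card
        have hidR : (m.choose Z.card : ℝ) * ((m + 1 : ℕ) : ℝ) =
            ((m + 1).choose Z.card : ℝ) * ((m + 1 - Z.card : ℕ) : ℝ) := by exact_mod_cast hid
        have hc1 : (0 : ℝ) < (m.choose Z.card : ℝ) := by
          exact_mod_cast Nat.choose_pos (by omega)
        have hc2 : (0 : ℝ) < ((m + 1).choose Z.card : ℝ) := by
          exact_mod_cast Nat.choose_pos (by omega)
        have hc3 : (0 : ℝ) < ((m + 1 : ℕ) : ℝ) := by positivity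
        field_simp
        linarith
      rw [sum_congr rfl h1]
      have hswap : ∑ Z ∈ intv A X, ∑ x ∈ X \ Z,
          (1 / ((m + 1 : ℕ) : ℝ)) * (1 / (m.choose Z.card : ℝ)) =
          ∑ x ∈ X \ A, ∑ Z ∈ insert (X.erase x) (intv A (X.erase x)),
          (1 / ((m + 1 : ℕ) : ℝ)) * (1 / (m.choose Z.card : ℝ)) := by
        apply sum_comm'
        intro Z x
        simp only [intv, mem_filter, mem_powerset, mem_sdiff, mem_insert]
        constructor
        · rintro ⟨⟨h1, h2, h3⟩, h4, h5⟩
          refine ⟨?_, h4, fun h => h5 (h2 h)⟩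
          by_cases h6 : Z = X.erase x
          · exact Or.inl h6
          · exact Or.inr ⟨fun y hy => mem_erase.2 ⟨fun h => h5 (h ▸ hy), h1 hy⟩, h2, h6⟩
        · rintro ⟨h1, h2, h3⟩
          rcases h1 with h1 | ⟨h1, h4, h5⟩
          · subst h1
            refine ⟨⟨erase_subset _ _, fun y hy => mem_erase.2 ⟨fun h => h3 (h ▸ hy), hAX hy⟩,
              fun h => ?_⟩, h2, notMem_erase _ _⟩
            have : x ∈ X.erase x := by rw [h]; exact h2
            exact notMem_erase _ _ this
          · have hxZ : x ∉ Z := fun h => notMem_erase _ _ (h1 h)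
            exact ⟨⟨h1.trans (erase_subset _ _), h4, fun h => hxZ (h ▸ h2)⟩, h2, hxZ⟩
      rw [hswap]
      have h2 : ∀ x ∈ X \ A, ∑ Z ∈ insert (X.erase x) (intv A (X.erase x)),
          (1 / ((m + 1 : ℕ) : ℝ)) * (1 / (m.choose Z.card : ℝ)) =
          (1 / ((m + 1 : ℕ) : ℝ)) * (1 + ((m : ℝ) - A.card) / (A.card + 1)) := by
        intro x hx
        rw [mem_sdiff] at hx
        have hc : (X.erase x).card = m := by rw [card_erase_of_mem hx.1, hX]; rfl
        have hAe : A ⊆ X.erase x := fun y hy => mem_erase.2 ⟨fun h => hx.2 (h ▸ hy), hAX hy⟩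
        have h3 := ih A (X.erase x) hAe hc
        rw [hc] at h3
        have h4 : X.erase x ∉ intv A (X.erase x) := by simp [intv]
        rw [sum_insert h4, ← mul_sum, h3, hc, Nat.choose_self]
        push_cast
        ring
      rw [sum_congr rfl h2, sum_const, nsmul_eq_mul, card_sdiff_of_subset hAX, hX]
      have hA1 : (0 : ℝ) < (A.card : ℝ) + 1 := by positivity
      have hm1 : (0 : ℝ) < ((m + 1 : ℕ) : ℝ) := by positivity
      rw [hX] at hAc
      rw [Nat.cast_sub hAc.le]
      field_simp
      push_cast
      ring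

theorem le_choose_of_mem : ∀ (n k : ℕ), 1 ≤ k → k + 1 ≤ n → n ≤ n.choose k := by
  intro n
  induction n with
  | zero => intro k h1 h2; omega
  | succ n ih =>
    intro k h1 h2
    rcases Nat.lt_or_ge k n with h | h
    · obtain ⟨j, rfl⟩ : ∃ j, k = j + 1 := ⟨k - 1, by omega⟩
      rw [Nat.choose_succ_succ']
      have h3 := ih (j + 1) (by omega) (by omega)
      have h4 : 1 ≤ n.choose j := Nat.choose_pos (by omega)
      omega
    · have hk : k = n := by omega
      subst hk
      rw [Nat.choose_succ_self_right]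

variable [Fintype β]

/-- size of the hull of a family with small comparability degrees -/
theorem card_hull_le (F : Finset (Finset β)) (lo hi Δ : ℕ) (hlo : ∀ A ∈ F, lo ≤ A.card)
    (hhi : ∀ A ∈ F, A.card ≤ hi) (hΔ : ∀ A ∈ F, (nbr cmp F A).card ≤ Δ) (η : ℝ)
    (hη : (Δ : ℝ) * ((hi : ℝ) - lo) / (lo + 1) ≤ η) (hη1 : η < 1) :
    ((hull F).card : ℝ) * (1 - η) ≤ (Fintype.card β).choose (Fintype.card β / 2) := by
  classical
  set C : ℝ := ((Fintype.card β).choose (Fintype.card β / 2) : ℝ) with hC
  have hCpos : 0 < C := by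
    rw [hC]; exact_mod_cast Nat.choose_pos (Nat.div_le_self _ _)
  have h1 := lym_pairs (Fintype.card β) (univ : Finset β) card_univ (hull F)
    (fun X _ => subset_univ X)
  have hbet : ∀ X ∈ hull F, bet (hull F) X ≤ η := by
    intro X hX
    obtain ⟨_, ⟨D, hD, hXD⟩⟩ := mem_hull.1 hX
    set G := F.filter (fun A => A ⊂ X) with hG
    have hGc : G.card ≤ Δ := by
      refine le_trans (card_le_card ?_) (hΔ D hD)
      intro A hA
      rw [hG, mem_filter] at hA
      rw [mem_nbr]
      exact ⟨hA.1, Or.inr (lt_of_lt_of_le hA.2 hXD)⟩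
    have h2 : bet (hull F) X ≤ ∑ A ∈ G, ∑ Z ∈ intv A X, 1 / (X.card.choose Z.card : ℝ) := by
      unfold bet
      have h3 : ∀ Z ∈ (hull F).filter (fun Z => Z ⊂ X), 1 / (X.card.choose Z.card : ℝ) ≤
          ∑ A ∈ G, if Z ∈ intv A X then 1 / (X.card.choose Z.card : ℝ) else 0 := by
        intro Z hZ
        rw [mem_filter] at hZ
        obtain ⟨⟨A, hA, hAZ⟩, _⟩ := mem_hull.1 hZ.1
        have hAG : A ∈ G := by
          rw [hG, mem_filter]
          exact ⟨hA, lt_of_le_of_lt hAZ hZ.2⟩
        have hZi : Z ∈ intv A X := by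
          rw [intv, mem_filter, mem_powerset]
          exact ⟨hZ.2.subset, hAZ, hZ.2.ne⟩
        calc 1 / (X.card.choose Z.card : ℝ)
            = if Z ∈ intv A X then 1 / (X.card.choose Z.card : ℝ) else 0 := by rw [if_pos hZi]
          _ ≤ _ := single_le_sum (f := fun A => if Z ∈ intv A X then
              1 / (X.card.choose Z.card : ℝ) else 0)
              (fun A _ => by split_ifs <;> positivity) hAG
      calc _ ≤ ∑ Z ∈ (hull F).filter (fun Z => Z ⊂ X), ∑ A ∈ G,
            (if Z ∈ intv A X then 1 / (X.card.choose Z.card : ℝ) else 0) := sum_le_sum h3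
        _ = ∑ A ∈ G, ∑ Z ∈ (hull F).filter (fun Z => Z ⊂ X),
            (if Z ∈ intv A X then 1 / (X.card.choose Z.card : ℝ) else 0) := sum_comm
        _ ≤ _ := by
            apply sum_le_sum
            intro A _
            rw [← sum_filter]
            apply sum_le_sum_of_subset_of_nonneg
            · intro Z hZ
              rw [mem_filter] at hZ
              exact hZ.2
            · intro Z _ _
              positivity
    have h4 : ∑ A ∈ G, ∑ Z ∈ intv A X, 1 / (X.card.choose Z.card : ℝ) ≤
        ∑ A ∈ G, (((hi : ℝ) - lo) / (lo + 1)) := by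
      apply sum_le_sum
      intro A hA
      rw [hG, mem_filter] at hA
      rw [sum_intv X.card A X hA.2.subset rfl]
      have h5 : (lo : ℝ) ≤ A.card := by exact_mod_cast hlo A hA.1
      have h6 : (X.card : ℝ) ≤ hi := by
        have : X.card ≤ hi := (card_le_card hXD).trans (hhi D hD)
        exact_mod_cast this
      have h7 : (A.card : ℝ) ≤ X.card := by exact_mod_cast card_le_card hA.2.subset
      have h8 : (0 : ℝ) ≤ lo := Nat.cast_nonneg _
      apply div_le_div₀ (by linarith) (by linarith) (by linarith) (by linarith)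
    have h9 : ∑ A ∈ G, (((hi : ℝ) - lo) / (lo + 1)) ≤ (Δ : ℝ) * ((hi : ℝ) - lo) / (lo + 1) := by
      rw [sum_const, nsmul_eq_mul, mul_div_assoc]
      apply mul_le_mul_of_nonneg_right (by exact_mod_cast hGc)
      have h6 : (lo : ℝ) ≤ hi := by
        exact_mod_cast (hlo D hD).trans (hhi D hD)
      have h8 : (0 : ℝ) ≤ lo := Nat.cast_nonneg _
      apply div_nonneg (by linarith) (by linarith)
    linarith
  have h2 : ∑ X ∈ hull F, (1 / C) * (1 - η) ≤
      ∑ X ∈ hull F, (1 / ((univ : Finset β).card.choose X.card : ℝ)) * (1 - bet (hull F) X) := by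
    apply sum_le_sum
    intro X hX
    have h3 := hbet X hX
    have h4 : ((univ : Finset β).card.choose X.card : ℝ) ≤ C := by
      rw [hC, card_univ]
      exact_mod_cast Nat.choose_le_middle _ _
    have h5 : (0 : ℝ) < ((univ : Finset β).card.choose X.card : ℝ) := by
      exact_mod_cast Nat.choose_pos (card_le_card (subset_univ X))
    apply mul_le_mul
    · exact one_div_le_one_div_of_le h5 h4
    · linarith
    · linarith
    · positivity
  rw [sum_const, nsmul_eq_mul] at h2
  have h3 : ((hull F).card : ℝ) * ((1 / C) * (1 - η)) ≤ 1 := le_trans h2 h1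
  have h4 : ((hull F).card : ℝ) * (1 - η) = C * (((hull F).card : ℝ) * ((1 / C) * (1 - η))) := by
    field_simp
  rw [h4]
  calc C * (((hull F).card : ℝ) * ((1 / C) * (1 - η))) ≤ C * 1 :=
        mul_le_mul_of_nonneg_left h3 hCpos.le
    _ = C := mul_one C

/-- supersaturation: a family with small comparability degrees has size at most `2 C` -/
theorem card_le_of_degree (F : Finset (Finset β)) (lo d : ℕ) (hlo1 : 1 ≤ lo)
    (hlo : ∀ A ∈ F, lo ≤ A.card) (hd : ∀ A ∈ F, (nbr cmp F A).card < d) (hd2 : 2 * d ≤ lo) :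
    (F.card : ℝ) ≤ 2 * ((Fintype.card β).choose (Fintype.card β / 2) : ℝ) := by
  classical
  set C : ℝ := ((Fintype.card β).choose (Fintype.card β / 2) : ℝ) with hC
  have hCpos : 0 < C := by
    rw [hC]; exact_mod_cast Nat.choose_pos (Nat.div_le_self _ _)
  have h1 := lym_pairs (Fintype.card β) (univ : Finset β) card_univ F
    (fun X _ => subset_univ X)
  have hbet : ∀ X ∈ F, bet F X ≤ 1 / 2 := by
    intro X hX
    unfold bet
    have hXlo := hlo X hX
    have hXpos : (0 : ℝ) < X.card := by exact_mod_cast (by omega : 0 < X.card)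
    calc ∑ Z ∈ F.filter (fun Z => Z ⊂ X), 1 / (X.card.choose Z.card : ℝ)
        ≤ ∑ Z ∈ F.filter (fun Z => Z ⊂ X), 1 / (X.card : ℝ) := by
          apply sum_le_sum
          intro Z hZ
          rw [mem_filter] at hZ
          have h2 : X.card ≤ X.card.choose Z.card := by
            apply le_choose_of_mem
            · have := hlo Z hZ.1
              omega
            · exact card_lt_card hZ.2
          apply one_div_le_one_div_of_le hXpos
          exact_mod_cast h2
      _ = ((F.filter (fun Z => Z ⊂ X)).card : ℝ) * (1 / (X.card : ℝ)) := by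
          rw [sum_const, nsmul_eq_mul]
      _ ≤ (d : ℝ) * (1 / (X.card : ℝ)) := by
          apply mul_le_mul_of_nonneg_right _ (by positivity)
          have h3 : F.filter (fun Z => Z ⊂ X) ⊆ nbr cmp F X := by
            intro Z hZ
            rw [mem_filter] at hZ
            exact mem_nbr.2 ⟨hZ.1, Or.inr hZ.2⟩
          exact_mod_cast (card_le_card h3).trans (hd X hX).le
      _ ≤ 1 / 2 := by
          have h4 : (2 * d : ℝ) ≤ X.card := by exact_mod_cast hd2.trans hXlo
          rw [mul_one_div, div_le_div_iff₀ hXpos (by norm_num)]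
          linarith
  have h2 : ∑ X ∈ F, (1 / C) * (1 / 2) ≤
      ∑ X ∈ F, (1 / ((univ : Finset β).card.choose X.card : ℝ)) * (1 - bet F X) := by
    apply sum_le_sum
    intro X hX
    have h3 := hbet X hX
    have h4 : ((univ : Finset β).card.choose X.card : ℝ) ≤ C := by
      rw [hC, card_univ]
      exact_mod_cast Nat.choose_le_middle _ _
    have h5 : (0 : ℝ) < ((univ : Finset β).card.choose X.card : ℝ) := by
      exact_mod_cast Nat.choose_pos (card_le_card (subset_univ X))
    apply mul_le_mul
    · exact one_div_le_one_div_of_le h5 h4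
    · linarith
    · norm_num
    · positivity
  rw [sum_const, nsmul_eq_mul] at h2
  have h3 : (F.card : ℝ) * ((1 / C) * (1 / 2)) ≤ 1 := le_trans h2 h1
  have h4 : (F.card : ℝ) = 2 * C * ((F.card : ℝ) * ((1 / C) * (1 / 2))) := by
    field_simp
  rw [h4]
  calc 2 * C * ((F.card : ℝ) * ((1 / C) * (1 / 2))) ≤ 2 * C * 1 :=
        mul_le_mul_of_nonneg_left h3 (by positivity)
    _ = 2 * C := mul_one _

end Lym

end Pool.Agent.helper59
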