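import Mathlib

/-! Maximal independent sets of a symmetric irreflexive relation, and branching recursions. -/

namespace Pool.Agent.helper59

open Finset

section MIS
variable {α : Type*} [DecidableEq α] (adj : α → α → Prop)

open scoped Classical in
/-- maximal independent sets of the relation `adj` inside the finite set `F` -/
noncomputable def MIS (F : Finset α) : Finset (Finset α) :=
  F.powerset.filter (fun I => (∀ x ∈ I, ∀ y ∈ I, ¬ adj x y) ∧ ∀ x ∈ F, x ∉ I → ∃ y ∈ I, adj x y)

open scoped Classical in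
/-- `F` with `v` and all its neighbours removed -/
noncomputable def rem (F : Finset α) (v : α) : Finset α := F.filter (fun x => x ≠ v ∧ ¬ adj v x)

open scoped Classical in
/-- the neighbours of `v` in `F` -/
noncomputable def nbr (F : Finset α) (v : α) : Finset α := F.filter (fun x => adj v x)

variable {adj}

theorem mem_MIS {F I : Finset α} : I ∈ MIS adj F ↔ I ⊆ F ∧ (∀ x ∈ I, ∀ y ∈ I, ¬ adj x y) ∧
    ∀ x ∈ F, x ∉ I → ∃ y ∈ I, adj x y := by
  simp [MIS, mem_filter, mem_powerset]

theorem mem_rem {F : Finset α} {v x : α} : x ∈ rem adj F v ↔ x ∈ F ∧ x ≠ v ∧ ¬ adj v x := by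
  simp [rem]

theorem mem_nbr {F : Finset α} {v x : α} : x ∈ nbr adj F v ↔ x ∈ F ∧ adj v x := by
  simp [nbr]

theorem rem_subset (F : Finset α) (v : α) : rem adj F v ⊆ F := fun _ hx => (mem_rem.1 hx).1

theorem nbr_subset (F : Finset α) (v : α) : nbr adj F v ⊆ F := fun _ hx => (mem_nbr.1 hx).1

theorem erase_mem_MIS_rem {F I : Finset α} (hs : ∀ x y, adj x y → adj y x) {v : α}
    (hI : I ∈ MIS adj F) (hv : v ∈ I) : I.erase v ∈ MIS adj (rem adj F v) := by
  rw [mem_MIS] at hI ⊢
  obtain ⟨h1, h2, h3⟩ := hI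
  refine ⟨?_, ?_, ?_⟩
  · intro x hx
    rw [mem_erase] at hx
    rw [mem_rem]
    exact ⟨h1 hx.2, hx.1, h2 v hv x hx.2⟩
  · intro x hx y hy
    exact h2 x (mem_of_mem_erase hx) y (mem_of_mem_erase hy)
  · intro x hx hxI
    rw [mem_rem] at hx
    have hxI' : x ∉ I := fun h => hxI (mem_erase.2 ⟨hx.2.1, h⟩)
    obtain ⟨y, hy, hxy⟩ := h3 x hx.1 hxI'
    refine ⟨y, mem_erase.2 ⟨?_, hy⟩, hxy⟩
    rintro rfl
    exact hx.2.2 (hs _ _ hxy)

open scoped Classical in
theorem card_MIS_mem_le (F : Finset α) (hs : ∀ x y, adj x y → adj y x) (v : α) :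
    ((MIS adj F).filter (fun I => v ∈ I)).card ≤ (MIS adj (rem adj F v)).card := by
  apply card_le_card_of_injOn (fun I => I.erase v)
  · intro I hI
    simp only [coe_filter, Set.mem_ofPred_eq] at hI
    exact erase_mem_MIS_rem hs hI.1 hI.2
  · intro I hI J hJ hIJ
    simp only [coe_filter, Set.mem_ofPred_eq] at hI hJ
    simp only at hIJ
    rw [← insert_erase hI.2, ← insert_erase hJ.2, hIJ]

open scoped Classical in
theorem card_MIS_mem_mem_le (F : Finset α) (hs : ∀ x y, adj x y → adj y x) {v w : α} (hvw : v ≠ w) :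
    ((MIS adj F).filter (fun I => v ∈ I ∧ w ∈ I)).card ≤
      (MIS adj (rem adj (rem adj F v) w)).card := by
  refine le_trans ?_ (card_MIS_mem_le (rem adj F v) hs w)
  apply card_le_card_of_injOn (fun I => I.erase v)
  · intro I hI
    simp only [coe_filter, Set.mem_ofPred_eq] at hI ⊢
    exact ⟨erase_mem_MIS_rem hs hI.1 hI.2.1, mem_erase.2 ⟨hvw.symm, hI.2.2⟩⟩
  · intro I hI J hJ hIJ
    simp only [coe_filter, Set.mem_ofPred_eq] at hI hJ
    simp only at hIJ
    rw [← insert_erase hI.2.1, ← insert_erase hJ.2.1, hIJ]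

open scoped Classical in
theorem card_MIS_notMem_le (F : Finset α) (v : α) :
    ((MIS adj F).filter (fun I => v ∉ I)).card ≤ (MIS adj (F.erase v)).card := by
  apply card_le_card
  intro I hI
  simp only [mem_filter] at hI
  obtain ⟨hI, hv⟩ := hI
  rw [mem_MIS] at hI ⊢
  obtain ⟨h1, h2, h3⟩ := hI
  refine ⟨?_, h2, ?_⟩
  · intro x hx
    exact mem_erase.2 ⟨fun h => hv (h ▸ hx), h1 hx⟩
  · intro x hx hxI
    exact h3 x (mem_of_mem_erase hx) hxI

theorem card_MIS_le_add (F : Finset α) (hs : ∀ x y, adj x y → adj y x) (v : α) :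
    (MIS adj F).card ≤ (MIS adj (F.erase v)).card + (MIS adj (rem adj F v)).card := by
  classical
  rw [← card_filter_add_card_filter_not (s := MIS adj F) (fun I => v ∈ I), add_comm]
  exact Nat.add_le_add (card_MIS_notMem_le F v) (card_MIS_mem_le F hs v)

theorem card_MIS_le_sum (F : Finset α) (hs : ∀ x y, adj x y → adj y x) {v : α} (hv : v ∈ F) :
    (MIS adj F).card ≤ (MIS adj (rem adj F v)).card +
      ∑ u ∈ nbr adj F v, (MIS adj (rem adj F u)).card := by
  classical
  have h1 : MIS adj F ⊆ (MIS adj F).filter (fun I => v ∈ I) ∪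
      (nbr adj F v).biUnion (fun u => (MIS adj F).filter (fun I => u ∈ I)) := by
    intro I hI
    have hI' := hI
    rw [mem_MIS] at hI'
    obtain ⟨h1, h2, h3⟩ := hI'
    rw [mem_union, mem_filter, mem_biUnion]
    by_cases hvI : v ∈ I
    · exact Or.inl ⟨hI, hvI⟩
    · right
      obtain ⟨y, hy, hxy⟩ := h3 v hv hvI
      exact ⟨y, mem_nbr.2 ⟨h1 hy, hxy⟩, mem_filter.2 ⟨hI, hy⟩⟩
  calc (MIS adj F).card ≤ _ := card_le_card h1
    _ ≤ _ := card_union_le _ _
    _ ≤ _ := Nat.add_le_add_left card_biUnion_le _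
    _ ≤ _ := Nat.add_le_add (card_MIS_mem_le F hs v)
        (sum_le_sum (fun u _ => card_MIS_mem_le F hs u))

theorem card_rem (F : Finset α) (hi : ∀ x, ¬ adj x x) {v : α} (hv : v ∈ F) :
    (rem adj F v).card + (nbr adj F v).card + 1 = F.card := by
  classical
  have h1 : F = rem adj F v ∪ insert v (nbr adj F v) := by
    ext x
    rw [mem_union, mem_insert, mem_rem, mem_nbr]
    constructor
    · intro hx
      by_cases h : x = v
      · exact Or.inr (Or.inl h)
      · by_cases h' : adj v x
        · exact Or.inr (Or.inr ⟨hx, h'⟩)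
        · exact Or.inl ⟨hx, h, h'⟩
    · rintro (h | h | h)
      · exact h.1
      · exact h ▸ hv
      · exact h.1
  have h2 : Disjoint (rem adj F v) (insert v (nbr adj F v)) := by
    rw [disjoint_left]
    intro x hx hx'
    rw [mem_rem] at hx
    rw [mem_insert, mem_nbr] at hx'
    rcases hx' with h | h
    · exact hx.2.1 h
    · exact hx.2.2 h.2
  have h3 : v ∉ nbr adj F v := by
    rw [mem_nbr]
    exact fun h => hi v h.2
  conv_rhs => rw [h1, card_union_of_disjoint h2, card_insert_of_notMem h3]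
  ring

/-- Branching on vertices of large degree. -/
theorem branching (hs : ∀ x y, adj x y → adj y x) (hi : ∀ x, ¬ adj x x) (d : ℕ) (x G : ℝ)
    (hx1 : 1 ≤ x) (hG : 0 ≤ G) (hx : x ^ d + 1 ≤ x ^ (d + 1)) (F₀ : Finset α)
    (H : ∀ F ⊆ F₀, (∀ v ∈ F, (nbr adj F v).card < d) → ((MIS adj F).card : ℝ) ≤ G) :
    ∀ F ⊆ F₀, ((MIS adj F).card : ℝ) ≤ G * x ^ F.card := by
  intro F
  induction hn : F.card using Nat.strong_induction_on generalizing F with
  | _ n ih =>
    intro hF
    subst hn
    by_cases hdeg : ∀ v ∈ F, (nbr adj F v).card < d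
    · calc ((MIS adj F).card : ℝ) ≤ G := H F hF hdeg
        _ = G * 1 := by ring
        _ ≤ G * x ^ F.card := by
            apply mul_le_mul_of_nonneg_left _ hG
            exact one_le_pow₀ hx1
    · push Not at hdeg
      obtain ⟨v, hv, hd⟩ := hdeg
      have hc := card_rem F hi hv
      have hFpos : 0 < F.card := card_pos.2 ⟨v, hv⟩
      have he : (F.erase v).card = F.card - 1 := card_erase_of_mem hv
      have h1 := ih (F.erase v).card (by omega) (F.erase v) rfl ((erase_subset _ _).trans hF)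
      have h2 := ih (rem adj F v).card (by omega) (rem adj F v) rfl ((rem_subset _ _).trans hF)
      have h3 : ((MIS adj F).card : ℝ) ≤ ((MIS adj (F.erase v)).card : ℝ) +
          ((MIS adj (rem adj F v)).card : ℝ) := by
        exact_mod_cast card_MIS_le_add F hs v
      obtain ⟨m, hm⟩ : ∃ m, F.card = m + d + 1 := ⟨F.card - d - 1, by omega⟩
      have h4 : x ^ (rem adj F v).card ≤ x ^ m := pow_le_pow_right₀ hx1 (by omega)
      have h5 : x ^ (F.erase v).card = x ^ (m + d) := by rw [he, hm]; simp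
      have hxpos : 0 < x := by linarith
      calc ((MIS adj F).card : ℝ) ≤ G * x ^ (F.erase v).card + G * x ^ (rem adj F v).card := by
            linarith
        _ ≤ G * x ^ (m + d) + G * x ^ m := by
            rw [h5]
            have := mul_le_mul_of_nonneg_left h4 hG
            linarith
        _ = G * (x ^ m * (x ^ d + 1)) := by ring
        _ ≤ G * (x ^ m * x ^ (d + 1)) := by
            apply mul_le_mul_of_nonneg_left _ hG
            apply mul_le_mul_of_nonneg_left hx (by positivity)
        _ = G * x ^ F.card := by rw [hm]; ring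

/-- removing the vertices outside `L`, one at a time -/
theorem branching_outside (hs : ∀ x y, adj x y → adj y x) (L : Finset α) (G : ℝ) (hG : 0 ≤ G)
    (H : ∀ F ⊆ L, ((MIS adj F).card : ℝ) ≤ G) :
    ∀ F : Finset α, ((MIS adj F).card : ℝ) ≤ 2 ^ (F \ L).card * G := by
  intro F
  induction hn : (F \ L).card using Nat.strong_induction_on generalizing F with
  | _ n ih =>
    subst hn
    by_cases hFL : F ⊆ L
    · calc ((MIS adj F).card : ℝ) ≤ G := H F hFL
        _ = 1 * G := by ring
        _ ≤ 2 ^ (F \ L).card * G := by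
            apply mul_le_mul_of_nonneg_right _ hG
            exact one_le_pow₀ (by norm_num)
    · obtain ⟨v, hv, hvL⟩ := not_subset.1 hFL
      have hvFL : v ∈ F \ L := mem_sdiff.2 ⟨hv, hvL⟩
      have h1 : ((F.erase v) \ L).card < (F \ L).card := by
        apply card_lt_card
        refine ⟨sdiff_subset_sdiff (erase_subset _ _) (Subset.refl _), fun h => ?_⟩
        have := h hvFL
        simp at this
      have h2 : ((rem adj F v) \ L).card < (F \ L).card := by
        apply card_lt_card
        refine ⟨sdiff_subset_sdiff (rem_subset _ _) (Subset.refl _), fun h => ?_⟩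
        have := h hvFL
        rw [mem_sdiff, mem_rem] at this
        exact this.1.2.1 rfl
      have h3 : ((MIS adj F).card : ℝ) ≤ ((MIS adj (F.erase v)).card : ℝ) +
          ((MIS adj (rem adj F v)).card : ℝ) := by
        exact_mod_cast card_MIS_le_add F hs v
      have h4 := ih _ h1 (F.erase v) rfl
      have h5 := ih _ h2 (rem adj F v) rfl
      obtain ⟨m, hm⟩ : ∃ m, (F \ L).card = m + 1 := ⟨(F \ L).card - 1, by omega⟩
      have h6 : (2:ℝ) ^ ((F.erase v) \ L).card ≤ 2 ^ m :=
        pow_le_pow_right₀ (by norm_num) (by omega)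
      have h7 : (2:ℝ) ^ ((rem adj F v) \ L).card ≤ 2 ^ m :=
        pow_le_pow_right₀ (by norm_num) (by omega)
      have h8 := mul_le_mul_of_nonneg_right h6 hG
      have h9 := mul_le_mul_of_nonneg_right h7 hG
      calc ((MIS adj F).card : ℝ) ≤ 2 ^ m * G + 2 ^ m * G := by linarith
        _ = 2 ^ (F \ L).card * G := by rw [hm]; ring

end MIS

end Pool.Agent.helper59
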