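import Mathlib
import Pool.Agent.helper67.ND.Defs

/-!
Module G1 of the `n/d` project of helper67 (MP_6163c8_ag): the field of rational functions with its
partial derivatives.
-/

namespace Pool.Agent.helper59.NDG1

open Pool.Agent.helper67.ND
open scoped BigOperators
open TrivSqZeroExt

section ext

variable {K R F : Type} [Field K] [CommRing R] [IsDomain R] [Algebra K R] [Field F] [Algebra R F]
  [Algebra K F] [IsScalarTower K R F] [IsFractionRing R F]

/-- the ring hom `r ↦ r + ε D r` -/
noncomputable def epsHom (D : Derivation K R R) : R →+* TrivSqZeroExt F F where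
  toFun r := inl (algebraMap R F r) + inr (algebraMap R F (D r))
  map_one' := by simp
  map_zero' := by simp
  map_add' x y := by
    apply TrivSqZeroExt.ext
    · simp
    · simp only [snd_add, snd_inl, snd_inr, map_add, zero_add]
  map_mul' x y := by
    apply TrivSqZeroExt.ext
    · simp
    · simp only [snd_add, snd_inl, snd_inr, fst_add, fst_inl, fst_inr, snd_mul, zero_add, add_zero,
        Derivation.leibniz, smul_eq_mul, map_add, map_mul, MulOpposite.smul_eq_mul_unop,
        MulOpposite.unop_op]
      ring

lemma epsHom_unit (D : Derivation K R R) (y : nonZeroDivisors R) :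
    IsUnit (epsHom (F := F) D (y : R)) := by
  rw [isUnit_iff_isUnit_fst]
  simp only [epsHom, RingHom.coe_mk, MonoidHom.coe_mk, OneHom.coe_mk, fst_add, fst_inl, fst_inr,
    add_zero, isUnit_iff_ne_zero]
  exact IsFractionRing.to_map_ne_zero_of_mem_nonZeroDivisors y.2

/-- the extension to the fraction field -/
noncomputable def epsLift (D : Derivation K R R) : F →+* TrivSqZeroExt F F :=
  IsLocalization.lift (M := nonZeroDivisors R) (epsHom_unit (F := F) D)

lemma epsLift_algebraMap (D : Derivation K R R) (r : R) :
    epsLift D (algebraMap R F r) = inl (algebraMap R F r) + inr (algebraMap R F (D r)) := by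
  rw [epsLift, IsLocalization.lift_eq]
  rfl

lemma fst_epsLift (D : Derivation K R R) (x : F) : (epsLift D x).fst = x := by
  have h : ((fstHom F F F : TrivSqZeroExt F F →ₐ[F] F) : TrivSqZeroExt F F →+* F).comp (epsLift D) =
      RingHom.id F := by
    apply IsLocalization.ringHom_ext (nonZeroDivisors R)
    ext r
    simp [epsLift_algebraMap]
  exact RingHom.congr_fun h x

/-- the extension of a derivation to the fraction field -/
noncomputable def extD (D : Derivation K R R) : Derivation K F F where
  toFun x := (epsLift D x).snd
  map_add' x y := by simp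
  map_smul' c x := by
    have h1 : (algebraMap K F c) = algebraMap R F (algebraMap K R c) :=
      IsScalarTower.algebraMap_apply K R F c
    rw [Algebra.smul_def, map_mul, snd_mul, fst_epsLift, fst_epsLift, h1, epsLift_algebraMap]
    simp [h1, Algebra.smul_def]
  map_one_eq_zero' := by
    show (epsLift D (1 : F)).snd = 0
    rw [map_one]
    simp
  leibniz' x y := by
    show (epsLift D (x * y)).snd = x • (epsLift D y).snd + y • (epsLift D x).snd
    rw [map_mul, snd_mul, fst_epsLift, fst_epsLift]
    simp only [smul_eq_mul, MulOpposite.smul_eq_mul_unop, MulOpposite.unop_op]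
    ring

lemma extD_algebraMap (D : Derivation K R R) (r : R) :
    extD D (algebraMap R F r) = algebraMap R F (D r) := by
  show (epsLift D (algebraMap R F r)).snd = _
  rw [epsLift_algebraMap, snd_add, snd_inl, snd_inr, zero_add]

/-- a derivation of the fraction field which vanishes on the ring is zero -/
lemma deriv_eq_zero (E : Derivation K F F) (h : ∀ r : R, E (algebraMap R F r) = 0) : E = 0 := by
  ext x
  obtain ⟨a, b, hb, rfl⟩ := IsFractionRing.div_surjective (A := R) x
  have hb0 : algebraMap R F b ≠ 0 := IsFractionRing.to_map_ne_zero_of_mem_nonZeroDivisors hb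
  have h1 : E (algebraMap R F a / algebraMap R F b * algebraMap R F b) = 0 := by
    rw [div_mul_cancel₀ _ hb0, h a]
  rw [Derivation.leibniz, h b, smul_zero, zero_add, smul_eq_mul] at h1
  rcases mul_eq_zero.1 h1 with h2 | h2
  · exact absurd h2 hb0
  · simpa using h2

end ext

/-- (G1) -/
theorem exists_env (K : Type) [Field K] [CharZero K] (N : ℕ) :
    ∃ (F : Type) (_ : Field F) (_ : Algebra K F), Nonempty (Env K F N) := by
  refine ⟨FractionRing (MvPolynomial (Fin N) K), inferInstance, inferInstance, ⟨?_⟩⟩
  refine
    { y := fun i => algebraMap (MvPolynomial (Fin N) K) _ (MvPolynomial.X i)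
      D := fun i => extD (MvPolynomial.pderiv i)
      D_y := ?_
      D_comm := ?_ }
  · intro i j
    rw [extD_algebraMap, MvPolynomial.pderiv_X]
    by_cases h : i = j
    · subst h
      simp
    · rw [if_neg h, Pi.single_apply, if_neg (fun h' => h h'.symm), map_zero]
  · intro i j f
    have h : (⁅extD (F := FractionRing (MvPolynomial (Fin N) K)) (MvPolynomial.pderiv (R := K) i),
        extD (MvPolynomial.pderiv j)⁆ : Derivation K (FractionRing (MvPolynomial (Fin N) K))
          (FractionRing (MvPolynomial (Fin N) K))) = 0 := by
      apply deriv_eq_zero (R := MvPolynomial (Fin N) K)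
      intro r
      rw [Derivation.commutator_apply, extD_algebraMap, extD_algebraMap, extD_algebraMap,
        extD_algebraMap, ← map_sub]
      have h2 : (⁅MvPolynomial.pderiv (R := K) i, MvPolynomial.pderiv j⁆ :
          Derivation K (MvPolynomial (Fin N) K) (MvPolynomial (Fin N) K)) = 0 := by
        apply MvPolynomial.derivation_ext
        intro l
        rw [Derivation.commutator_apply, MvPolynomial.pderiv_X, MvPolynomial.pderiv_X]
        simp only [Pi.single_apply]
        split_ifs <;> simp
      have h3 := DFunLike.congr_fun h2 r
      rw [Derivation.commutator_apply] at h3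
      rw [h3]
      simp
    have h4 := DFunLike.congr_fun h f
    rw [Derivation.commutator_apply] at h4
    exact sub_eq_zero.1 (by simpa using h4)

end Pool.Agent.helper59.NDG1
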